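import Pool.Agent.Lib.MP_305fdd_al.Fr.R.SSmall

/-!
# Semi-good valuations give small actions on the real tree of `SL₂(K)`, conclusion
-/

set_option autoImplicit false

namespace Pool.Agent.FrR

open Matrix

variable {K : Type} [Field K] {V : RV K} {Γ : Subgroup (SpecialLinearGroup (Fin 2) K)}

theorem ge_two : V.Ge 0 (2 : K) := by
  have := V.ge_one.add V.ge_one
  rwa [one_add_one_eq_two] at this

/-- fixed points in coordinates -/
theorem fix_coord (k g : SpecialLinearGroup (Fin 2) K) {s : ℝ} :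
    g • cls (⟨k, s⟩ : Pre V) = cls (⟨k, s⟩ : Pre V) ↔
      V.Ge (2 * s) ((k⁻¹ * g * k).1 1 0) ∧ V.Ge 0 ((k⁻¹ * g * k).1 1 1) ∧
      V.Ge 0 ((k⁻¹ * g * k).1 0 0) ∧ V.Ge (-(2 * s)) ((k⁻¹ * g * k).1 0 1) := by
  rw [smul_coord k g _ rfl s s, sub_self, two_mul]

theorem SG.comm_of_fix (h : SG V Γ) {g w : SpecialLinearGroup (Fin 2) K} (hg : g ∈ Γ)
    (hw : w ∈ Γ) {p q : Tr V} (hpq : p ≠ q) (g1 : g • p = p) (g2 : g • q = q) (w1 : w • p = p)
    (w2 : w • q = q) : g * w = w * g := by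
  obtain ⟨k, τ, hp, hq⟩ := split p q
  set D := dist p q with hD
  have hD0 : 0 < D := dist_pos.2 hpq
  rw [hp, fix_coord] at g1 w1
  rw [hq, fix_coord] at g2 w2
  set a := k⁻¹ * g * k with ha
  set b := k⁻¹ * w * k with hb
  obtain ⟨-, a11, a00, a01⟩ := g1
  obtain ⟨a10, -, -, -⟩ := g2
  obtain ⟨-, b11, b00, b01⟩ := w1
  obtain ⟨b10, -, -, -⟩ := w2
  have hc : V.Ge (2 * D) (tr (a * b * a⁻¹ * b⁻¹) - 2) := by
    rw [tr_comm]
    have c1 : V.Ge (2 * D) (a.1 0 1 * b.1 1 0 - b.1 0 1 * a.1 1 0) :=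
      ((a01.mul b10).mono (by linarith)).sub ((b01.mul a10).mono (by linarith))
    have c2 : V.Ge (-(2 * τ)) (b.1 0 1 * (a.1 0 0 - a.1 1 1) - a.1 0 1 * (b.1 0 0 - b.1 1 1)) :=
      ((b01.mul (a00.sub a11)).mono (by linarith)).sub
        ((a01.mul (b00.sub b11)).mono (by linarith))
    have c3 : V.Ge (2 * (τ + D)) (a.1 1 0 * (b.1 0 0 - b.1 1 1) -
        b.1 1 0 * (a.1 0 0 - a.1 1 1)) :=
      ((a10.mul (b00.sub b11)).mono (by linarith)).sub
        ((b10.mul (a00.sub a11)).mono (by linarith))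
    exact ((c1.mul c1).mono (by linarith)).add ((c2.mul c3).mono (by linarith))
  have e1 : a * b * a⁻¹ * b⁻¹ = k⁻¹ * (g * w * g⁻¹ * w⁻¹) * k := by
    rw [ha, hb]; group
  rw [e1, tr_conj] at hc
  have hmem : g * w * g⁻¹ * w⁻¹ ∈ Γ :=
    Γ.mul_mem (Γ.mul_mem (Γ.mul_mem hg hw) (Γ.inv_mem hg)) (Γ.inv_mem hw)
  by_contra hne
  have hne1 : g * w * g⁻¹ * w⁻¹ ≠ 1 := by
    intro h1
    apply hne
    have h2 : g * w = (g * w * g⁻¹ * w⁻¹) * (w * g) := by group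
    rw [h1, one_mul] at h2
    exact h2
  obtain ⟨h1, h2⟩ := h.two _ hmem hne1
  rw [V.ge_iff h1] at hc
  linarith

theorem SG.flip (h : SG V Γ) {g : SpecialLinearGroup (Fin 2) K} (hg : g ∈ Γ)
    {p q : Tr V} (g1 : g • p = q) (g2 : g • q = p) : p = q := by
  by_contra hpq
  obtain ⟨k, τ, hp, hq⟩ := split p q
  set D := dist p q with hD
  have hD0 : 0 < D := dist_pos.2 hpq
  have hg1 : g ≠ 1 := by
    rintro rfl
    rw [one_smul] at g1
    exact hpq g1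
  rw [hp, hq, smul_coord k g _ rfl] at g1 g2
  obtain ⟨-, a11, -, -⟩ := g1
  obtain ⟨-, -, a00, -⟩ := g2
  have h1 : V.Ge D (tr (k⁻¹ * g * k)) := by
    unfold tr
    exact (a00.mono (by linarith)).add (a11.mono (by linarith))
  rw [tr_conj] at h1
  obtain ⟨h2, h3⟩ := h.zero _ hg hg1
  rw [V.ge_iff h2] at h1
  linarith

theorem SG.fix (h : SG V Γ) {g w : SpecialLinearGroup (Fin 2) K} (hg : g ∈ Γ) (hg1 : g ≠ 1)
    (hgw : g * w = w * g) {p q : Tr V} (hpq : p ≠ q) (g1 : g • p = p) (g2 : g • q = q)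
    (w1 : w • p = p) : w • q = q := by
  obtain ⟨k, τ, hp, hq⟩ := split p q
  set D := dist p q with hD
  have hD0 : 0 < D := dist_pos.2 hpq
  rw [hp, fix_coord] at g1 w1
  rw [hq, fix_coord] at g2 ⊢
  have hab : (k⁻¹ * g * k) * (k⁻¹ * w * k) = (k⁻¹ * w * k) * (k⁻¹ * g * k) := by
    have e1 : (k⁻¹ * g * k) * (k⁻¹ * w * k) = k⁻¹ * (g * w) * k := by group
    have e2 : (k⁻¹ * w * k) * (k⁻¹ * g * k) = k⁻¹ * (w * g) * k := by group
    rw [e1, e2, hgw]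
  have htr := tr_conj k g
  set a := k⁻¹ * g * k with ha
  set b := k⁻¹ * w * k with hb
  obtain ⟨-, a11, a00, a01⟩ := g1
  obtain ⟨a10, -, -, -⟩ := g2
  obtain ⟨-, b11, b00, b01⟩ := w1
  rw [comm_iff] at hab
  obtain ⟨-, -, c3⟩ := hab
  refine ⟨?_, b11, b00, b01.mono (by linarith)⟩
  -- `a00 - a11` has value `0`
  have hu : a.1 0 0 - a.1 1 1 ≠ 0 ∧ V.v (a.1 0 0 - a.1 1 1) ≤ 0 := by
    by_contra hcon
    have hu' : ∃ ε : ℝ, 0 < ε ∧ V.Ge ε (a.1 0 0 - a.1 1 1) := by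
      by_cases h0 : a.1 0 0 - a.1 1 1 = 0
      · exact ⟨1, one_pos, Or.inl h0⟩
      · refine ⟨V.v (a.1 0 0 - a.1 1 1), ?_, V.ge_self _⟩
        by_contra h1
        exact hcon ⟨h0, not_lt.1 h1⟩
    obtain ⟨ε, hε, hu'⟩ := hu'
    have h1 : V.Ge (min ε (2 * D)) ((tr g - 2) * (tr g + 2)) := by
      have e1 : (tr g - 2) * (tr g + 2) = (a.1 0 0 - a.1 1 1) * (a.1 0 0 - a.1 1 1) +
          (2 * 2) * (a.1 0 1 * a.1 1 0) := by
        have := det_one a
        rw [← htr]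
        unfold tr
        linear_combination 4 * this
      rw [e1]
      refine RV.Ge.add ?_ ?_
      · refine (hu'.mul hu').mono ?_
        have := min_le_left ε (2 * D)
        linarith
      · refine ((ge_two.mul ge_two).mul (a01.mul a10)).mono ?_
        have := min_le_right ε (2 * D)
        linarith
    obtain ⟨n1, v1⟩ := h.two g hg hg1
    obtain ⟨n2, v2⟩ := h.mtwo g hg hg1
    rw [V.ge_iff (mul_ne_zero n1 n2), V.v_mul n1 n2] at h1
    have h3 : 0 < min ε (2 * D) := lt_min hε (by linarith)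
    linarith
  obtain ⟨hu0, hu1⟩ := hu
  have e1 : b.1 1 0 = a.1 1 0 * (b.1 0 0 - b.1 1 1) * (a.1 0 0 - a.1 1 1)⁻¹ := by
    rw [c3, mul_assoc, mul_inv_cancel₀ hu0, mul_one]
  rw [e1]
  have g3 : V.Ge 0 (a.1 0 0 - a.1 1 1)⁻¹ := by
    right
    rw [V.v_inv hu0]
    linarith
  exact ((a10.mul (b00.sub b11)).mul g3).mono (by linarith)

/-- Semi-good valuations give small actions. -/
theorem SG.small (h : SG V Γ) : Small Γ (Tr V) where
  isom g p q := dist_smul_eq g.1 p q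
  arc g w p q hpq g1 g2 w1 w2 := Subtype.ext (h.comm_of_fix g.2 w.2 hpq g1 g2 w1 w2)
  fix g w p q hg1 hgw hpq g1 g2 w1 :=
    h.fix g.2 (fun h1 => hg1 (Subtype.ext h1)) (congrArg Subtype.val hgw) hpq g1 g2 w1
  flip g p q g1 g2 := h.flip g.2 g1 g2
  ct a b c ha hab hac :=
    Subtype.ext (h.ct a.2 (fun h1 => ha (Subtype.ext h1)) (congrArg Subtype.val hab)
      (congrArg Subtype.val hac))
  csa a g ha hc :=
    Subtype.ext (h.csa a.2 (fun h1 => ha (Subtype.ext h1)) g.2 (congrArg Subtype.val hc))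

end Pool.Agent.FrR
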