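import Pool.Agent.Lib.MP_305fdd_al.Fr.R.Stm

/-!
# MP_305fdd_al, F_r, Theorem R: piece (serre)
-/

set_option autoImplicit false

namespace Pool.Agent.FrR

open SimpleGraph

private def serreHom {G V : Type} [Group G] [MulAction G V] (X : SimpleGraph V)
    (hadj : ∀ (g : G) (x y : V), X.Adj x y → X.Adj (g • x) (g • y)) (g : G) : X →g X :=
  ⟨fun x => g • x, fun {_ _} h => hadj g _ _ h⟩

private theorem serre_len {V : Type} {X : SimpleGraph V} (hT : X.IsTree) {a b : V}
    (p : X.Walk a b) (hp : p.IsPath) : p.length = X.dist a b := by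
  obtain ⟨q, hq⟩ := hT.connected.exists_walk_length_eq_dist a b
  have hqp : q.IsPath := q.isPath_of_length_eq_dist hq
  have h := hT.isAcyclic.path_unique ⟨p, hp⟩ ⟨q, hqp⟩
  have h' : p = q := congrArg Subtype.val h
  rw [h', hq]

private theorem serre_fix {G V : Type} [Group G] [MulAction G V] {X : SimpleGraph V}
    (hT : X.IsTree) (hadj : ∀ (g : G) (x y : V), X.Adj x y → X.Adj (g • x) (g • y)) (g : G)
    {a b : V} (p : X.Walk a b) (hp : p.IsPath) (ha : g • a = a) (hb : g • b = b) :
    ∀ v ∈ p.support, g • v = v := by
  intro v hv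
  have hinj : Function.Injective (serreHom X hadj g) := MulAction.injective g
  have h1 : (p.map (serreHom X hadj g)).IsPath := Walk.map_isPath_of_injective hinj hp
  have ha' : serreHom X hadj g a = a := ha
  have hb' : serreHom X hadj g b = b := hb
  have h2 : ((p.map (serreHom X hadj g)).copy ha' hb').IsPath := by
    rw [Walk.isPath_copy]; exact h1
  have h3 : (p.map (serreHom X hadj g)).copy ha' hb' = p :=
    congrArg Subtype.val (hT.isAcyclic.path_unique ⟨_, h2⟩ ⟨p, hp⟩)
  have h4 : p.support.map (serreHom X hadj g) = p.support := by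
    have h := congrArg Walk.support h3
    rwa [Walk.support_copy, Walk.support_map] at h
  have h5 := List.map_inj_left.1 (h4.trans (List.map_id _).symm) v hv
  exact h5

private theorem serre_dist_le {G V : Type} [Group G] [MulAction G V] {X : SimpleGraph V}
    (hT : X.IsTree) (hadj : ∀ (g : G) (x y : V), X.Adj x y → X.Adj (g • x) (g • y)) (g : G)
    (a b : V) : X.dist (g • a) (g • b) ≤ X.dist a b := by
  obtain ⟨q, hq⟩ := hT.connected.exists_walk_length_eq_dist a b
  have h := dist_le (q.map (serreHom X hadj g))
  rw [Walk.length_map, hq] at h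
  exact h

private theorem serre_dist {G V : Type} [Group G] [MulAction G V] {X : SimpleGraph V}
    (hT : X.IsTree) (hadj : ∀ (g : G) (x y : V), X.Adj x y → X.Adj (g • x) (g • y)) (g : G)
    (a b : V) : X.dist (g • a) (g • b) = X.dist a b := by
  refine le_antisymm (serre_dist_le hT hadj g a b) ?_
  have h := serre_dist_le hT hadj g⁻¹ (g • a) (g • b)
  rwa [inv_smul_smul, inv_smul_smul] at h

theorem p_serre : S_serre := by
  intro G V _ _ X _ hT hadj _ _ n
  induction n with
  | zero =>
    intro w _ _
    obtain ⟨x⟩ := hT.connected.nonempty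
    exact ⟨x, fun i => i.elim0⟩
  | succ n ih =>
    intro w hw hfix
    classical
    obtain ⟨y0, hy0⟩ := ih (fun i => w i.castSucc) (fun i j => hw _ _) (fun i => hfix _)
    obtain ⟨z, hz⟩ := hfix (Fin.last n)
    -- the nearest common fixed point
    have hex : ∃ k : ℕ, ∃ y : V, (∀ i : Fin n, w i.castSucc • y = y) ∧ X.dist z y = k :=
      ⟨_, y0, hy0, rfl⟩
    obtain ⟨y, hy, hyk⟩ := Nat.find_spec hex
    have hmin : ∀ y' : V, (∀ i : Fin n, w i.castSucc • y' = y') → X.dist z y ≤ X.dist z y' := by
      intro y' hy'
      rw [hyk]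
      exact Nat.find_min' hex ⟨y', hy', rfl⟩
    set y' := w (Fin.last n) • y with hy'def
    have hy' : ∀ i : Fin n, w i.castSucc • y' = y' := by
      intro i
      rw [hy'def, smul_smul, hw, ← smul_smul, hy i]
    have hd : X.dist z y' = X.dist z y := by
      have h := serre_dist hT hadj (w (Fin.last n)) z y
      rwa [hz] at h
    refine ⟨y, fun i => ?_⟩
    refine Fin.lastCases ?_ (fun j => ?_) i
    · -- the last one
      by_contra hne
      have hne' : y ≠ y' := fun h => hne h.symm
      obtain ⟨P, hP⟩ := (hT.existsUnique_path y y').exists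
      obtain ⟨Q, hQ⟩ := (hT.existsUnique_path z y).exists
      have hPQ : (Q.append P).IsPath := by
        rw [Walk.isPath_def, Walk.support_append, List.nodup_append]
        refine ⟨hQ.support_nodup, hP.support_nodup.tail, ?_⟩
        intro a ha b hb hab
        subst hab
        -- a is on Q and on P
        have haP : a ∈ P.support := List.mem_of_mem_tail hb
        have hafix : ∀ i : Fin n, w i.castSucc • a = a := fun i =>
          serre_fix hT hadj _ P hP (hy i) (hy' i) a haP
        have h1 := hmin a hafix
        have h2 : X.dist z a + X.dist a y = X.dist z y := by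
          rw [← serre_len hT (Q.takeUntil a ha) (hQ.takeUntil ha),
            ← serre_len hT (Q.dropUntil a ha) (hQ.dropUntil ha), ← serre_len hT Q hQ,
            ← Walk.length_append, Walk.take_spec]
        have h3 : X.dist a y = 0 := by omega
        have h4 : a = y := (hT.connected.dist_eq_zero_iff).1 h3
        subst h4
        -- y is not in the tail of P.support
        have h5 := hP.support_nodup
        rw [Walk.support_eq_cons] at h5
        exact (List.nodup_cons.1 h5).1 hb
      have h1 := serre_len hT _ hPQ
      rw [Walk.length_append, serre_len hT Q hQ, serre_len hT P hP, hd] at h1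
      have h2 : X.dist y y' = 0 := by omega
      exact hne' ((hT.connected.dist_eq_zero_iff).1 h2)
    · exact hy j

end Pool.Agent.FrR
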