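import Pool.Agent.Lib.MP_305fdd_al.Fr.R.SGeo

/-!
# Semi-good valuations give small actions on the real tree of `SL₂(K)`
-/

set_option autoImplicit false

namespace Pool.Agent.FrR

open Matrix

variable {K : Type} [Field K] {V : RV K}

/-- the trace -/
def tr (g : SpecialLinearGroup (Fin 2) K) : K := g.1 0 0 + g.1 1 1

theorem det_one (g : SpecialLinearGroup (Fin 2) K) :
    g.1 0 0 * g.1 1 1 - g.1 0 1 * g.1 1 0 = 1 := by
  have := g.2
  rwa [Matrix.det_fin_two] at this

theorem inv00 (g : SpecialLinearGroup (Fin 2) K) : (g⁻¹).1 0 0 = g.1 1 1 := by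
  simp [Matrix.SpecialLinearGroup.coe_inv, Matrix.adjugate_fin_two]
theorem inv01 (g : SpecialLinearGroup (Fin 2) K) : (g⁻¹).1 0 1 = - g.1 0 1 := by
  simp [Matrix.SpecialLinearGroup.coe_inv, Matrix.adjugate_fin_two]
theorem inv10 (g : SpecialLinearGroup (Fin 2) K) : (g⁻¹).1 1 0 = - g.1 1 0 := by
  simp [Matrix.SpecialLinearGroup.coe_inv, Matrix.adjugate_fin_two]
theorem inv11 (g : SpecialLinearGroup (Fin 2) K) : (g⁻¹).1 1 1 = g.1 0 0 := by
  simp [Matrix.SpecialLinearGroup.coe_inv, Matrix.adjugate_fin_two]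
theorem mul_app (g h : SpecialLinearGroup (Fin 2) K) (i j : Fin 2) :
    (g * h).1 i j = g.1 i 0 * h.1 0 j + g.1 i 1 * h.1 1 j := by
  simp [Matrix.SpecialLinearGroup.coe_mul, Matrix.mul_apply, Fin.sum_univ_two]

theorem tr_conj (k g : SpecialLinearGroup (Fin 2) K) : tr (k⁻¹ * g * k) = tr g := by
  have h := det_one k
  simp only [tr, mul_app, inv00, inv01, inv10, inv11]
  linear_combination (g.1 0 0 + g.1 1 1) * h

theorem ext2 {g h : SpecialLinearGroup (Fin 2) K} (h00 : g.1 0 0 = h.1 0 0)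
    (h01 : g.1 0 1 = h.1 0 1) (h10 : g.1 1 0 = h.1 1 0) (h11 : g.1 1 1 = h.1 1 1) : g = h := by
  apply Subtype.ext
  ext i j
  fin_cases i <;> fin_cases j <;> assumption

/-- Semi-good position of the traces of `Γ`. -/
structure SG (V : RV K) (Γ : Subgroup (SpecialLinearGroup (Fin 2) K)) : Prop where
  two : ∀ g ∈ Γ, g ≠ 1 → tr g - 2 ≠ 0 ∧ V.v (tr g - 2) ≤ 0
  mtwo : ∀ g ∈ Γ, g ≠ 1 → tr g + 2 ≠ 0 ∧ V.v (tr g + 2) ≤ 0
  zero : ∀ g ∈ Γ, g ≠ 1 → tr g ≠ 0 ∧ V.v (tr g) ≤ 0

section
variable (a b : SpecialLinearGroup (Fin 2) K)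

theorem comm_iff : a * b = b * a ↔ (a.1 0 1 * b.1 1 0 = b.1 0 1 * a.1 1 0 ∧
    b.1 0 1 * (a.1 0 0 - a.1 1 1) = a.1 0 1 * (b.1 0 0 - b.1 1 1) ∧
    a.1 1 0 * (b.1 0 0 - b.1 1 1) = b.1 1 0 * (a.1 0 0 - a.1 1 1)) := by
  constructor
  · intro h
    have h00 := congrArg (fun g : SpecialLinearGroup (Fin 2) K => g.1 0 0) h
    have h01 := congrArg (fun g : SpecialLinearGroup (Fin 2) K => g.1 0 1) h
    have h10 := congrArg (fun g : SpecialLinearGroup (Fin 2) K => g.1 1 0) h
    simp only [mul_app] at h00 h01 h10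
    refine ⟨?_, ?_, ?_⟩
    · linear_combination h00
    · linear_combination h01
    · linear_combination h10
  · rintro ⟨h1, h2, h3⟩
    apply ext2
    · simp only [mul_app]; linear_combination h1
    · simp only [mul_app]; linear_combination h2
    · simp only [mul_app]; linear_combination h3
    · simp only [mul_app]; linear_combination -h1

/-- trace of a commutator -/
theorem tr_comm : tr (a * b * a⁻¹ * b⁻¹) - 2 =
    (a.1 0 1 * b.1 1 0 - b.1 0 1 * a.1 1 0) * (a.1 0 1 * b.1 1 0 - b.1 0 1 * a.1 1 0) +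
    (b.1 0 1 * (a.1 0 0 - a.1 1 1) - a.1 0 1 * (b.1 0 0 - b.1 1 1)) *
    (a.1 1 0 * (b.1 0 0 - b.1 1 1) - b.1 1 0 * (a.1 0 0 - a.1 1 1)) := by
  have ha := det_one a
  have hb := det_one b
  simp only [tr, mul_app, inv00, inv01, inv10, inv11]
  generalize a.1 0 0 = p at *
  generalize a.1 0 1 = q at *
  generalize a.1 1 0 = r at *
  generalize a.1 1 1 = s at *
  generalize b.1 0 0 = x at *
  generalize b.1 0 1 = y at *
  generalize b.1 1 0 = z at *
  generalize b.1 1 1 = w at *
  linear_combination 2 * (x * w - y * z) * ha + 2 * hb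

end

variable {Γ : Subgroup (SpecialLinearGroup (Fin 2) K)}

/-- nontrivial elements are not scalar -/
theorem SG.nonscalar (h : SG V Γ) {a : SpecialLinearGroup (Fin 2) K} (ha : a ∈ Γ) (ha1 : a ≠ 1) :
    ¬ (a.1 0 1 = 0 ∧ a.1 1 0 = 0 ∧ a.1 0 0 = a.1 1 1) := by
  rintro ⟨h1, h2, h3⟩
  have hd := det_one a
  rw [h1, h2, h3] at hd
  have h4 : (a.1 1 1 - 1) * (a.1 1 1 + 1) = 0 := by linear_combination hd
  rcases mul_eq_zero.1 h4 with h5 | h5
  · apply (h.two a ha ha1).1
    unfold tr
    rw [h3]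
    linear_combination 2 * h5
  · apply (h.mtwo a ha ha1).1
    unfold tr
    rw [h3]
    linear_combination 2 * h5

theorem par {q r u y z t y' z' t' : K} (hA : ¬ (q = 0 ∧ r = 0 ∧ u = 0)) (h1 : q * z = y * r)
    (h2 : y * u = q * t) (h3 : r * t = z * u) (h1' : q * z' = y' * r)
    (h2' : y' * u = q * t') (h3' : r * t' = z' * u) :
    y * z' = y' * z ∧ y' * t = y * t' ∧ z * t' = z' * t := by
  by_cases hr : r = 0
  · by_cases hq : q = 0
    · have hu : u ≠ 0 := fun hu => hA ⟨hq, hr, hu⟩
      have e1 : y = 0 := (mul_eq_zero.1 (by rw [h2, hq, zero_mul] : y * u = 0)).resolve_right hu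
      have e2 : z = 0 := (mul_eq_zero.1 (by rw [← h3, hr, zero_mul] : z * u = 0)).resolve_right hu
      have e3 : y' = 0 :=
        (mul_eq_zero.1 (by rw [h2', hq, zero_mul] : y' * u = 0)).resolve_right hu
      have e4 : z' = 0 :=
        (mul_eq_zero.1 (by rw [← h3', hr, zero_mul] : z' * u = 0)).resolve_right hu
      simp [e1, e2, e3, e4]
    · have e1 : z = y * r / q := by rw [← h1, mul_div_cancel_left₀ _ hq]
      have e2 : t = y * u / q := by rw [h2, mul_div_cancel_left₀ _ hq]
      have e3 : z' = y' * r / q := by rw [← h1', mul_div_cancel_left₀ _ hq]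
      have e4 : t' = y' * u / q := by rw [h2', mul_div_cancel_left₀ _ hq]
      rw [e1, e2, e3, e4]
      refine ⟨?_, ?_, ?_⟩ <;> ring
  · have e1 : y = q * z / r := by rw [h1, mul_div_cancel_right₀ _ hr]
    have e2 : t = z * u / r := by rw [← h3, mul_div_cancel_left₀ _ hr]
    have e3 : y' = q * z' / r := by rw [h1', mul_div_cancel_right₀ _ hr]
    have e4 : t' = z' * u / r := by rw [← h3', mul_div_cancel_left₀ _ hr]
    rw [e1, e2, e3, e4]
    refine ⟨?_, ?_, ?_⟩ <;> ring

/-- (S4) -/
theorem SG.ct (h : SG V Γ) {a b c : SpecialLinearGroup (Fin 2) K} (ha : a ∈ Γ) (ha1 : a ≠ 1)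
    (hab : a * b = b * a) (hac : a * c = c * a) : b * c = c * b := by
  rw [comm_iff] at hab hac ⊢
  refine par (q := a.1 0 1) (r := a.1 1 0) (u := a.1 0 0 - a.1 1 1) ?_ hab.1 hab.2.1 hab.2.2
    hac.1 hac.2.1 hac.2.2
  rintro ⟨h1, h2, h3⟩
  exact h.nonscalar ha ha1 ⟨h1, h2, sub_eq_zero.1 h3⟩

theorem tr_conj' (k g : SpecialLinearGroup (Fin 2) K) : tr (k * g * k⁻¹) = tr g := by
  have := tr_conj k⁻¹ g
  rwa [inv_inv] at this

/-- the Cayley-Hamilton identity, polarised, entrywise -/
theorem ch (a g : SpecialLinearGroup (Fin 2) K) (i j : Fin 2) :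
    (a * g).1 i j + (g * a).1 i j = tr a * g.1 i j + tr g * a.1 i j +
      (tr (a * g) - tr a * tr g) * (if i = j then 1 else 0) := by
  fin_cases i <;> fin_cases j <;> simp [tr, mul_app] <;> ring

/-- (S5) -/
theorem SG.csa (h : SG V Γ) {a g : SpecialLinearGroup (Fin 2) K} (ha : a ∈ Γ) (ha1 : a ≠ 1)
    (hg : g ∈ Γ) (hc : a * (g * a * g⁻¹) = g * a * g⁻¹ * a) : a * g = g * a := by
  set x := g * a * g⁻¹ with hx
  have htx : tr x = tr a := tr_conj' g a
  have hns := h.nonscalar ha ha1
  rw [comm_iff] at hc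
  obtain ⟨c1, c2, c3⟩ := hc
  have hdx := det_one x
  have hda := det_one a
  unfold tr at htx
  -- `x = α a + β`
  obtain ⟨α, e1, e2, e3⟩ : ∃ α : K, x.1 0 1 = α * a.1 0 1 ∧ x.1 1 0 = α * a.1 1 0 ∧
      x.1 0 0 - x.1 1 1 = α * (a.1 0 0 - a.1 1 1) := by
    by_cases hr : a.1 1 0 = 0
    · by_cases hq : a.1 0 1 = 0
      · have hu : a.1 0 0 - a.1 1 1 ≠ 0 := fun hu => hns ⟨hq, hr, sub_eq_zero.1 hu⟩
        refine ⟨(x.1 0 0 - x.1 1 1) / (a.1 0 0 - a.1 1 1), ?_, ?_, ?_⟩
        · field_simp; linear_combination c2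
        · field_simp; linear_combination -c3
        · field_simp
      · refine ⟨x.1 0 1 / a.1 0 1, ?_, ?_, ?_⟩
        · field_simp
        · field_simp; linear_combination c1
        · field_simp; linear_combination -c2
    · refine ⟨x.1 1 0 / a.1 1 0, ?_, ?_, ?_⟩
      · field_simp; linear_combination -c1
      · field_simp
      · field_simp; linear_combination c3
  have hD : (tr a * tr a - 4) ≠ 0 := by
    have h1 := (h.two a ha ha1).1
    have h2 := (h.mtwo a ha ha1).1
    have : tr a * tr a - 4 = (tr a - 2) * (tr a + 2) := by ring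
    rw [this]
    exact mul_ne_zero h1 h2
  -- `α = ± 1`
  have hα : (α - 1) * (α + 1) = 0 := by
    have h1 : (α * α - 1) * (tr a * tr a - 4) = 0 := by
      have h2 : (x.1 0 0 - x.1 1 1) * (x.1 0 0 - x.1 1 1) + 4 * (x.1 0 1 * x.1 1 0) =
          (x.1 0 0 + x.1 1 1) * (x.1 0 0 + x.1 1 1) - 4 := by linear_combination -4 * hdx
      have h3 : (a.1 0 0 - a.1 1 1) * (a.1 0 0 - a.1 1 1) + 4 * (a.1 0 1 * a.1 1 0) =
          (a.1 0 0 + a.1 1 1) * (a.1 0 0 + a.1 1 1) - 4 := by linear_combination -4 * hda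
      rw [e1, e2, e3, htx] at h2
      unfold tr
      linear_combination h2 - α * α * h3
    have := (mul_eq_zero.1 h1).resolve_right hD
    linear_combination this
  have key : x = a ∨ x = a⁻¹ := by
    have hs0 : x.1 0 0 + x.1 1 1 = a.1 0 0 + a.1 1 1 := htx
    have case1 : α = 1 → x = a ∨ x = a⁻¹ := by
      intro hα1
      rw [hα1, one_mul] at e1 e2 e3
      have h2 : (x.1 0 0 - a.1 0 0) * ((x.1 0 0 - a.1 0 0) + (a.1 0 0 + a.1 1 1)) = 0 := by
        have h5 : x.1 1 1 = x.1 0 0 - a.1 0 0 + a.1 1 1 := by linear_combination -e3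
        rw [e1, e2, h5] at hdx
        linear_combination hdx - hda
      rcases mul_eq_zero.1 h2 with h3 | h3
      · left
        apply ext2
        · linear_combination h3
        · exact e1
        · exact e2
        · linear_combination h3 - e3
      · right
        have h20 : (2 : K) * (x.1 0 0 - a.1 0 0) = 0 := by linear_combination e3 + hs0
        have h21 : (2 : K) * (a.1 0 0 + a.1 1 1) = 0 := by linear_combination 2 * h3 - h20
        have htr := (h.zero a ha ha1).1
        have h2z : (2 : K) = 0 := (mul_eq_zero.1 h21).resolve_right htr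
        apply ext2
        · rw [inv00]; linear_combination h3 - a.1 1 1 * h2z
        · rw [inv01, e1]; linear_combination a.1 0 1 * h2z
        · rw [inv10, e2]; linear_combination a.1 1 0 * h2z
        · rw [inv11]; linear_combination h3 - e3 - a.1 0 0 * h2z
    rcases mul_eq_zero.1 hα with h1 | h1
    · exact case1 (sub_eq_zero.1 h1)
    · by_cases h2z : (2 : K) = 0
      · apply case1
        linear_combination h1 - h2z
      · right
        have hα1 : α = -1 := by linear_combination h1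
        rw [hα1] at e1 e2 e3
        apply ext2
        · rw [inv00]
          apply mul_left_cancel₀ h2z
          linear_combination e3 + hs0
        · rw [inv01, e1]; ring
        · rw [inv10, e2]; ring
        · rw [inv11]
          apply mul_left_cancel₀ h2z
          linear_combination hs0 - e3
  rcases key with hk | hk
  · have h1 : g * a = a * g := by
      have : g * a = x * g := by rw [hx]; group
      rw [this, hk]
    exact h1.symm
  · exfalso
    -- `g a = a⁻¹ g`
    have h1 : g * a = a⁻¹ * g := by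
      have : g * a = x * g := by rw [hx]; group
      rw [this, hk]
    have hg1 : g ≠ 1 := by
      rintro rfl
      rw [one_mul, mul_one] at h1
      have h2 := hda
      have c00 := congrArg (fun g : SpecialLinearGroup (Fin 2) K => g.1 0 0) h1
      have c01 := congrArg (fun g : SpecialLinearGroup (Fin 2) K => g.1 0 1) h1
      have c10 := congrArg (fun g : SpecialLinearGroup (Fin 2) K => g.1 1 0) h1
      simp only [inv00, inv01, inv10] at c00 c01 c10
      by_cases h2z : (2 : K) = 0
      · apply (h.zero a ha ha1).1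
        unfold tr
        linear_combination c00 + a.1 1 1 * h2z
      · apply hns
        refine ⟨?_, ?_, c00⟩
        · apply (mul_eq_zero.1 (?_ : (2 : K) * a.1 0 1 = 0)).resolve_left h2z
          linear_combination c01
        · apply (mul_eq_zero.1 (?_ : (2 : K) * a.1 1 0 = 0)).resolve_left h2z
          linear_combination c10
    apply (h.zero g hg hg1).1
    have e00 := congrArg (fun g : SpecialLinearGroup (Fin 2) K => g.1 0 0) h1
    have e01 := congrArg (fun g : SpecialLinearGroup (Fin 2) K => g.1 0 1) h1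
    have e10 := congrArg (fun g : SpecialLinearGroup (Fin 2) K => g.1 1 0) h1
    have e11 := congrArg (fun g : SpecialLinearGroup (Fin 2) K => g.1 1 1) h1
    simp only [mul_app, inv00, inv01, inv10, inv11] at e00 e01 e10 e11
    unfold tr
    by_contra hne
    apply hns
    refine ⟨?_, ?_, ?_⟩
    · apply (mul_eq_zero.1 (?_ : (g.1 0 0 + g.1 1 1) * a.1 0 1 = 0)).resolve_left hne
      linear_combination e01
    · apply (mul_eq_zero.1 (?_ : (g.1 0 0 + g.1 1 1) * a.1 1 0 = 0)).resolve_left hne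
      linear_combination e10
    · apply sub_eq_zero.1
      apply (mul_eq_zero.1 (?_ : (g.1 0 0 + g.1 1 1) * (a.1 0 0 - a.1 1 1) = 0)).resolve_left hne
      linear_combination e00 - e11

end Pool.Agent.FrR
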