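import Pool.Agent.Lib.MP_305fdd_al.Fr.R.Loops

/-!
# Words of bands and words of letters, part 2
-/

set_option autoImplicit false

namespace Pool.Agent.FrR

open Pool.Agent.FrZ

section
variable {S Γ T : Type} [Group Γ] [MetricSpace T] [MulAction Γ T]
variable {ρ : FreeGroup S →* Γ} {o : T} {P : Finset (FreeGroup S)} {ℓ₀ lo : FreeGroup S → ℝ}

/-- the letters of one band step -/
def w1 (σ : Jx P ℓ₀ × Bool) : List (S × Bool) :=
  match σ.1.1.1 with
  | none => []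
  | some s => [(s, σ.2)]

/-- the letters of a word of bands -/
def wS : List (Jx P ℓ₀ × Bool) → List (S × Bool)
  | [] => []
  | σ :: γ => w1 σ ++ wS γ

theorem lab_w1 (σ : Jx P ℓ₀ × Bool) : FrT.lab (w1 σ) = labJ P ℓ₀ (sg σ) := by
  obtain ⟨⟨⟨c, u⟩, hj⟩, b⟩ := σ
  have h1 : labJ P ℓ₀ (FreeGroup.of (⟨(c, u), hj⟩ : Jx P ℓ₀)) = el c := labJ_of _
  cases c with
  | none =>
    have h2 : w1 ((⟨(none, u), hj⟩ : Jx P ℓ₀), b) = [] := rfl
    rw [h2]
    cases b
    · show FrT.lab [] = labJ P ℓ₀ (FreeGroup.of _)⁻¹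
      rw [map_inv, h1]
      simp [FrT.lab, el]
    · show FrT.lab [] = labJ P ℓ₀ (FreeGroup.of _)
      rw [h1]
      simp [FrT.lab, el]
  | some s =>
    have h2 : w1 ((⟨(some s, u), hj⟩ : Jx P ℓ₀), b) = [(s, b)] := rfl
    rw [h2]
    cases b
    · show FrT.lab [(s, false)] = labJ P ℓ₀ (FreeGroup.of _)⁻¹
      rw [map_inv, h1]
      simp [FrT.lab, FrT.sg, el]
    · show FrT.lab [(s, true)] = labJ P ℓ₀ (FreeGroup.of _)
      rw [h1]
      simp [FrT.lab, FrT.sg, el]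

theorem lab_wS (γ : List (Jx P ℓ₀ × Bool)) : FrT.lab (wS γ) = labJ P ℓ₀ (lab γ) := by
  induction γ with
  | nil => simp [wS, FrT.lab, lab]
  | cons σ γ ih => rw [wS, FrT.lab_append, ih, lab_w1, lab, map_mul]

theorem path_w1 (σ : Jx P ℓ₀ × Bool) (y y' : VK P ρ o)
    (h : y'.1 = ρ (labJ P ℓ₀ (sg σ)) • y.1) : (hpa P ρ o).Path (w1 σ) y y' := by
  rw [← lab_w1] at h
  obtain ⟨⟨⟨c, u⟩, hj⟩, b⟩ := σ
  cases c with
  | none =>
    have h2 : w1 ((⟨(none, u), hj⟩ : Jx P ℓ₀), b) = [] := rfl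
    rw [h2] at h ⊢
    show y = y'
    apply Subtype.ext
    rw [h]
    simp [FrT.lab]
  | some s =>
    have h2 : w1 ((⟨(some s, u), hj⟩ : Jx P ℓ₀), b) = [(s, b)] := rfl
    rw [h2] at h ⊢
    refine ⟨y', ?_, rfl⟩
    cases b
    · have h3 : y'.1 = ρ (FreeGroup.of s)⁻¹ • y.1 := by simpa [FrT.lab, FrT.sg] using h
      have h4 : ρ (FreeGroup.of s) • y'.1 = y.1 := by
        rw [h3, map_inv, smul_inv_smul]
      have h5 : y' ∈ (hpa P ρ o).dom s := by
        show KV P ρ o (ρ (FreeGroup.of s) • y'.1)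
        rw [h4]; exact y.2
      show y' ∈ (hpa P ρ o).dom s ∧ y = (hpa P ρ o).act s y'
      exact ⟨h5, Subtype.ext (by rw [hpa_act h5, h4])⟩
    · have h3 : y'.1 = ρ (FreeGroup.of s) • y.1 := by simpa [FrT.lab, FrT.sg] using h
      have h5 : y ∈ (hpa P ρ o).dom s := by
        show KV P ρ o (ρ (FreeGroup.of s) • y.1)
        rw [← h3]; exact y'.2
      show y ∈ (hpa P ρ o).dom s ∧ y' = (hpa P ρ o).act s y
      exact ⟨h5, Subtype.ext (by rw [hpa_act h5, h3])⟩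

theorem path_val (γ : List (S × Bool)) (y y' : VK P ρ o) (h : (hpa P ρ o).Path γ y y') :
    y'.1 = ρ (FrT.lab γ) • y.1 := by
  induction γ generalizing y with
  | nil =>
    have : y = y' := h
    simp [FrT.lab, this]
  | cons σ γ ih =>
    obtain ⟨r, h1, h2⟩ := h
    have h3 := ih r h2
    rw [h3, FrT.lab, map_mul, mul_smul]
    congr 1
    obtain ⟨s, b⟩ := σ
    cases b
    · have h4 : r ∈ (hpa P ρ o).dom s ∧ y = (hpa P ρ o).act s r := h1
      have h5 := hpa_act h4.1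
      rw [← h4.2] at h5
      simp [FrT.sg, h5]
    · have h4 : y ∈ (hpa P ρ o).dom s ∧ r = (hpa P ρ o).act s y := h1
      have h5 := hpa_act h4.1
      rw [← h4.2] at h5
      simp [FrT.sg, h5]

variable (hT : IsRT T) (hiso : ∀ (g : Γ) (p q : T), dist (g • p) (g • q) = dist p q)
  (hC : Cp P ℓ₀ (len ρ o)) (hP : HP P (len ρ o)) {X : Sys (Jx P ℓ₀) (Ix P ℓ₀) ℤ}
  (hX : toR X = bsys P ℓ₀ (len ρ o) lo) (hG : X.Good) (hE : Ev X)

include hT hiso hC hP hX hG hE in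
/-- a word of bands at a unit edge -/
theorem Rep.word (γ : List (Jx P ℓ₀ × Bool)) : ∀ {i : Ix P ℓ₀} {x : ℤ} {d : Bool}
    {y z : VK P ρ o}, Rep ρ o lo X i x d y.1 z.1 → X.Valid (X.OK 0) γ (x, d) →
    ∃ (i' : Ix P ℓ₀) (y' z' : VK P ρ o),
      Rep ρ o lo X i' (X.run γ (x, d)).1 (X.run γ (x, d)).2 y'.1 z'.1 ∧
      y'.1 = ρ (labJ P ℓ₀ (lab γ)) • y.1 ∧ z'.1 = ρ (labJ P ℓ₀ (lab γ)) • z.1 ∧
      (hpa P ρ o).Path (wS γ) y y' ∧ (hpa P ρ o).Path (wS γ) z z' := by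
  induction γ with
  | nil =>
    intro i x d y z h _
    exact ⟨i, y, z, h, by simp [lab], by simp [lab], rfl, rfl⟩
  | cons σ γ ih =>
    intro i x d y z h hv
    obtain ⟨hv1, hv2⟩ := hv
    obtain ⟨-, hs⟩ := h.step hT hiso hC hX hG hE σ hv1
    obtain ⟨k1, k2⟩ := hs.kv hT hP hX hE
    obtain ⟨i', y', z', r1, r2, r3, r4, r5⟩ := ih (i := X.dc (inv σ))
      (y := ⟨_, k1⟩) (z := ⟨_, k2⟩) hs hv2
    refine ⟨i', y', z', r1, ?_, ?_, ?_, ?_⟩
    · rw [r2, lab, map_mul, map_mul, mul_smul]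
    · rw [r3, lab, map_mul, map_mul, mul_smul]
    · exact ((hpa P ρ o).path_append _ _ _ _).2 ⟨_, path_w1 σ y ⟨_, k1⟩ rfl, r4⟩
    · exact ((hpa P ρ o).path_append _ _ _ _).2 ⟨_, path_w1 σ z ⟨_, k2⟩ rfl, r5⟩

include hT hiso hC hP hX hE in
/-- every edge of the hull is represented -/
theorem exists_rep (y z : VK P ρ o) (h : (hpa P ρ o).K.Adj y z) :
    ∃ (i : Ix P ℓ₀) (x : ℤ) (d : Bool), Rep ρ o lo X i x d y.1 z.1 := by
  have key : ∀ y z : VK P ρ o, Bt o y.1 z.1 → dist o z.1 = dist o y.1 + 2 →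
      ∃ (i : Ix P ℓ₀) (x : ℤ), X.lo i < x ∧ x < X.hi i ∧ Odd x ∧
        y.1 = rea ρ o lo i (x - 1) ∧ z.1 = rea ρ o lo i (x + 1) := by
    intro y z hb hd
    obtain ⟨⟨u, hu, hzu⟩, -⟩ := z.2
    obtain ⟨m, hm⟩ := y.2.2
    have h1 : dist o z.1 ≤ len ρ o u := hzu.le
    have h2 := dist_nonneg (x := o) (y := y.1)
    have hu0 : 0 < ℓ₀ u := (hC.pos u hu).2 (by linarith)
    set i : Ix P ℓ₀ := ⟨u, hu, hu0⟩ with hi
    have hyu : Bt o y.1 (ρ u • o) := hb.trans hzu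
    have e0 : lo i.1 = (X.lo i : ℝ) := (lo_eq hX i).symm
    have ey := rea_eq hT ρ o lo i hyu
    have ez := rea_eq hT ρ o lo i hzu
    have hx : ((X.lo i + 2 * m + 1 : ℤ) : ℝ) = lo i.1 + dist o y.1 + 1 := by
      rw [e0, hm]; push_cast; ring
    have hhi := hi_eq hX i
    refine ⟨i, X.lo i + 2 * m + 1, ?_, ?_, ?_, ?_, ?_⟩
    · have : (X.lo i : ℝ) < ((X.lo i + 2 * m + 1 : ℤ) : ℝ) := by rw [hx, e0]; linarith
      exact_mod_cast this
    · have : ((X.lo i + 2 * m + 1 : ℤ) : ℝ) < (X.hi i : ℝ) := by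
        rw [hx, hhi]
        show lo i.1 + dist o y.1 + 1 < lo i.1 + len ρ o u
        linarith
      exact_mod_cast this
    · obtain ⟨c, hc⟩ := hE.lo i
      exact ⟨c + m, by rw [hc]; ring⟩
    · have e1 : lo i.1 + dist o y.1 + 1 - 1 = lo i.1 + dist o y.1 := by ring
      rw [hx, e1, ey]
    · have e1 : lo i.1 + dist o y.1 + 1 + 1 = lo i.1 + dist o z.1 := by rw [hd]; ring
      rw [hx, e1, ez]
  rcases KV.adj_bt hT hiso hP y.2 z.2 h with ⟨h1, h2⟩ | ⟨h1, h2⟩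
  · obtain ⟨i, x, a1, a2, a3, a4, a5⟩ := key y z h1 h2
    exact ⟨i, x, true, a1, a2, a3, by simpa [sgn] using a4, by simpa [sgn] using a5⟩
  · obtain ⟨i, x, a1, a2, a3, a4, a5⟩ := key z y h1 h2
    refine ⟨i, x, false, a1, a2, a3, ?_, ?_⟩
    · rw [a5]; simp [sgn]
    · rw [a4]; simp [sgn, sub_eq_add_neg]

include hT hiso hC hX hG hE in
/-- the band of a letter or of `1` at a unit edge -/
theorem exists_band (c : Option S) {i i' : Ix P ℓ₀} {x x' : ℤ} {d d' : Bool} {y z : T}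
    (h : Rep ρ o lo X i x d y z) (h' : Rep ρ o lo X i' x' d' (ρ (el c) • y) (ρ (el c) • z)) :
    ∃ j : Jx P ℓ₀, labJ P ℓ₀ (FreeGroup.of j) = el c ∧ X.OK 0 (j, true) (x, d) ∧
      X.mv (j, true) (x, d) = (x', d') := by
  obtain ⟨a1, a2, a3, a4⟩ := h.spec hT hX hE
  obtain ⟨b1, b2, b3, b4⟩ := h'.spec hT hX hE
  have c1 : Bt (ρ (el c) • o) (ρ (el c) • y) (ρ (el c * i.1) • o) := by
    rw [map_mul, mul_smul]; exact a1.smul hiso _
  have c2 : Bt (ρ (el c) • o) (ρ (el c) • z) (ρ (el c * i.1) • o) := by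
    rw [map_mul, mul_smul]; exact a3.smul hiso _
  have d1 : dist (ρ (el c) • o) (ρ (el c) • y) = x - sgn d - lo i.1 := by rw [hiso, a2]
  have d2 : dist (ρ (el c) • o) (ρ (el c) • z) = x + sgn d - lo i.1 := by rw [hiso, a4]
  have hyz : ρ (el c) • y ≠ ρ (el c) • z := by
    intro he
    rw [he] at d1
    have : sgn d = 0 := by linarith
    cases d <;> simp [sgn] at this
  have hne := overlap_ne hT c1 c2 b1 b3 hyz
  have hne' : al ℓ₀ c i.1 ≠ be ℓ₀ c i.1 i'.1 := by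
    rw [hC.ne c i.2.1 i'.2.1, al_eq hiso, be_eq hiso]
    exact hne
  set j : Jx P ℓ₀ := ⟨(c, i, i'), hne'⟩ with hj
  have e1 := (overlap_iff hT hne c1).1 b1
  have e2 := (overlap_iff hT hne c2).1 b3
  rw [d1] at e1
  rw [d2] at e2
  have hdl : (X.dl (j, true) : ℝ) = lo i.1 + min (al (len ρ o) c i.1)
      (be (len ρ o) c i.1 i'.1) := by
    rw [← toR_dl, hX]; rfl
  have hl : (X.l j : ℝ) = |be (len ρ o) c i.1 i'.1 - al (len ρ o) c i.1| := by
    rw [← toR_l, hX]; rfl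
  have hmm : min (al (len ρ o) c i.1) (be (len ρ o) c i.1 i'.1) +
      |be (len ρ o) c i.1 i'.1 - al (len ρ o) c i.1| =
      max (al (len ρ o) c i.1) (be (len ρ o) c i.1 i'.1) := by
    rcases le_total (al (len ρ o) c i.1) (be (len ρ o) c i.1 i'.1) with h | h
    · rw [min_eq_left h, max_eq_right h, abs_of_nonneg (by linarith)]; ring
    · rw [min_eq_right h, max_eq_left h, abs_of_nonpos (by linarith)]; ring
  rw [← al_eq hiso, ← be_eq hiso] at e1 e2
  have hs := sgn_abs d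
  have hOK : X.OK 0 (j, true) (x, d) := by
    rw [Sys.OK_iff, add_zero, add_zero]
    have g1 : (X.dl (j, true) : ℝ) ≤ x := by
      rw [hdl]
      linarith [e1.1, e2.1]
    have g2 : (x : ℝ) ≤ X.dl (j, true) + X.l j := by
      rw [hdl, hl, add_assoc, hmm]
      linarith [e1.2, e2.2]
    exact ⟨by exact_mod_cast g1, by exact_mod_cast g2⟩
  refine ⟨j, labJ_of j, hOK, ?_⟩
  obtain ⟨-, hs'⟩ := h.step hT hiso hC hX hG hE (j, true) hOK
  have e3 : labJ P ℓ₀ (sg (j, true)) = el c := labJ_of j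
  rw [e3] at hs'
  have e4 : X.dc (inv (j, true)) = i' := by
    have : (toR X).dc (inv (j, true)) = i' := by rw [hX]; rfl
    exact this
  rw [e4] at hs'
  obtain ⟨g1, g2⟩ := hs'.uniq hT hX hE h'
  exact Prod.ext g1 g2

include hT hiso hC hP hX hG hE in
/-- a word of letters at a unit edge comes from a word of bands -/
theorem exists_word (γ : List (S × Bool)) : ∀ {i i' : Ix P ℓ₀} {x x' : ℤ} {d d' : Bool}
    {y z y' z' : VK P ρ o}, Rep ρ o lo X i x d y.1 z.1 → Rep ρ o lo X i' x' d' y'.1 z'.1 →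
    (hpa P ρ o).K.Adj y z →
    (hpa P ρ o).Path γ y y' → (hpa P ρ o).Path γ z z' →
    ∃ δ : List (Jx P ℓ₀ × Bool), X.Valid (X.OK 0) δ (x, d) ∧ X.run δ (x, d) = (x', d') ∧
      labJ P ℓ₀ (lab δ) = FrT.lab γ := by
  induction γ with
  | nil =>
    intro i i' x x' d d' y z y' z' h h' hadj hp1 hp2
    have e1 : y = y' := hp1
    have e2 : z = z' := hp2
    subst e1
    subst e2
    obtain ⟨j, j1, j2, j3⟩ := exists_band hT hiso hC hX hG hE none h (i' := i') (x' := x')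
      (d' := d') (by simpa [el] using h')
    refine ⟨[(j, true)], ⟨j2, trivial⟩, j3, ?_⟩
    show labJ P ℓ₀ (1 * FreeGroup.of j) = _
    rw [one_mul, j1]
    rfl
  | cons σ γ ih =>
    intro i i' x x' d d' y z y' z' h h' hadj hp1 hp2
    obtain ⟨r, a1, a2⟩ := hp1
    obtain ⟨t, b1, b2⟩ := hp2
    obtain ⟨s, b⟩ := σ
    cases b
    · have a3 : r ∈ (hpa P ρ o).dom s ∧ y = (hpa P ρ o).act s r := a1
      have b3 : t ∈ (hpa P ρ o).dom s ∧ z = (hpa P ρ o).act s t := b1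
      have a4 := hpa_act a3.1
      have b4 := hpa_act b3.1
      rw [← a3.2] at a4
      rw [← b3.2] at b4
      have hadj' : (hpa P ρ o).K.Adj r t := by
        have h1 : dist y.1 z.1 = 2 := hadj
        rw [a4, b4, hiso] at h1
        exact h1
      obtain ⟨k, x1, d1, hr⟩ := exists_rep hT hiso hC hP hX hE r t hadj'
      obtain ⟨δ, c1, c2, c3⟩ := ih hr h' hadj' a2 b2
      obtain ⟨j, j1, j2, j3⟩ := exists_band hT hiso hC hX hG hE (some s) hr (i' := i) (x' := x)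
        (d' := d) (by
          show Rep ρ o lo X i x d (ρ (FreeGroup.of s) • r.1) (ρ (FreeGroup.of s) • t.1)
          rw [← a4, ← b4]; exact h)
      have j4 : X.OK 0 (j, false) (x, d) := by
        have := (X.OK_mv 0 (j, true) (x1, d1)).2 j2
        rw [j3] at this
        exact this
      have j5 : X.mv (j, false) (x, d) = (x1, d1) := by
        have := X.mv_inv (j, true) (x1, d1)
        rw [j3] at this
        exact this
      refine ⟨(j, false) :: δ, ⟨j4, by rw [j5]; exact c1⟩, ?_, ?_⟩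
      · show X.run δ (X.mv (j, false) (x, d)) = _
        rw [j5, c2]
      · show labJ P ℓ₀ (lab δ * sg (j, false)) = FrT.lab γ * FrT.sg (s, false)
        rw [map_mul, c3]
        congr 1
        show labJ P ℓ₀ (FreeGroup.of j)⁻¹ = (FreeGroup.of s)⁻¹
        rw [map_inv, j1]
        rfl
    · have a3 : y ∈ (hpa P ρ o).dom s ∧ r = (hpa P ρ o).act s y := a1
      have b3 : z ∈ (hpa P ρ o).dom s ∧ t = (hpa P ρ o).act s z := b1
      have a4 := hpa_act a3.1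
      have b4 := hpa_act b3.1
      rw [← a3.2] at a4
      rw [← b3.2] at b4
      have hadj' : (hpa P ρ o).K.Adj r t := by
        show dist r.1 t.1 = 2
        rw [a4, b4, hiso]
        exact hadj
      obtain ⟨k, x1, d1, hr⟩ := exists_rep hT hiso hC hP hX hE r t hadj'
      obtain ⟨δ, c1, c2, c3⟩ := ih hr h' hadj' a2 b2
      obtain ⟨j, j1, j2, j3⟩ := exists_band hT hiso hC hX hG hE (some s) h (i' := k) (x' := x1)
        (d' := d1) (by
          show Rep ρ o lo X k x1 d1 (ρ (FreeGroup.of s) • y.1) (ρ (FreeGroup.of s) • z.1)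
          rw [← a4, ← b4]; exact hr)
      refine ⟨(j, true) :: δ, ⟨j2, by rw [j3]; exact c1⟩, ?_, ?_⟩
      · show X.run δ (X.mv (j, true) (x, d)) = _
        rw [j3, c2]
      · show labJ P ℓ₀ (lab δ * sg (j, true)) = FrT.lab γ * FrT.sg (s, true)
        rw [map_mul, c3]
        congr 1

end

end Pool.Agent.FrR
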