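import Pool.Agent.Lib.MP_305fdd_al.Fr.Z.Trans

/-!
# MP_305fdd_al, free groups of all ranks, Theorem R: interface between real trees and systems

`IsRT` real trees, `Small` small actions (properties S1 - S5 of MP_305fdd_ripslean_h55.md),
`Rln` a realisation of a system in a real tree, `S_Comb` the combinatorial form of Theorem R.
-/

set_option autoImplicit false

namespace Pool.Agent.FrR

open Pool.Agent.FrZ

/-- real trees: geodesic metric spaces with the four point condition -/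
structure IsRT (T : Type) [MetricSpace T] : Prop where
  hyp : ∀ x y z w : T, dist x y + dist z w ≤ max (dist x z + dist y w) (dist x w + dist y z)
  geo : ∀ (x y : T) (t : ℝ), 0 ≤ t → t ≤ dist x y → ∃ z, dist x z = t ∧ dist z y = dist x y - t

/-- small isometric actions -/
structure Small (Γ T : Type) [Group Γ] [MetricSpace T] [MulAction Γ T] : Prop where
  isom : ∀ (g : Γ) (p q : T), dist (g • p) (g • q) = dist p q
  /-- (S1) arc stabilisers are abelian -/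
  arc : ∀ (g h : Γ) (p q : T), p ≠ q → g • p = p → g • q = q → h • p = p → h • q = q →
    g * h = h * g
  /-- (S2) -/
  fix : ∀ (g h : Γ) (p q : T), g ≠ 1 → g * h = h * g → p ≠ q → g • p = p → g • q = q →
    h • p = p → h • q = q
  /-- (S3) no flips -/
  flip : ∀ (g : Γ) (p q : T), g • p = q → g • q = p → p = q
  /-- (S4) commutation is transitive -/
  ct : ∀ a b c : Γ, a ≠ 1 → a * b = b * a → a * c = c * a → b * c = c * b
  /-- (S5) -/
  csa : ∀ a g : Γ, a ≠ 1 → a * (g * a * g⁻¹) = g * a * g⁻¹ * a → a * g = g * a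

/-- `ι i : [lo i, hi i] → T` is an isometric embedding, and the bands act as the elements `ρ j`. -/
structure Rln {J I Γ T : Type} [Group Γ] [MetricSpace T] [MulAction Γ T] (X : Sys J I ℝ)
    (ρ : FreeGroup J →* Γ) (ι : I → ℝ → T) : Prop where
  iso : ∀ i x y, X.lo i ≤ x → x ≤ X.hi i → X.lo i ≤ y → y ≤ X.hi i →
    dist (ι i x) (ι i y) = |x - y|
  band : ∀ (σ : J × Bool) (x : ℝ), X.dl σ ≤ x → x ≤ X.dl σ + X.l σ.1 →
    ι (X.dc (inv σ)) (X.mvx σ x) = ρ (sg σ) • ι (X.dc σ) x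

/-- The combinatorial form of Theorem R. -/
def S_Comb : Prop :=
  ∀ (J I Γ T : Type) [Fintype J] [Fintype I] [Nonempty I] [Group Γ] [MetricSpace T]
    [MulAction Γ T] (X : Sys J I ℝ) (ρ : FreeGroup J →* Γ) (ι : I → ℝ → T),
    IsRT T → Small Γ T → X.Good → Rln X ρ ι →
    ∃ (F₀ E₀ : Finset ℝ) (W : Finset (FreeGroup J)), (∀ f ∈ F₀, 0 < f) ∧ (∀ w ∈ W, ρ w = 1) ∧
      ∀ (L : ℝ →+ ℚ) (X' : Sys J I ℤ), Tp L X X' → (∀ f ∈ F₀, 0 < L f) →
        (∀ x ∈ E₀, x ∈ Lam L) →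
        X'.Good ∧
        (∃ e i, X'.lo i < e ∧ e < X'.hi i ∧ Odd e ∧
          ∀ γ d γ' d', X'.Valid (X'.OK 0) γ (e, d) → (X'.run γ (e, d)).1 = e →
            X'.Valid (X'.OK 0) γ' (e, d') → (X'.run γ' (e, d')).1 = e →
            ρ (lab γ) * ρ (lab γ') = ρ (lab γ') * ρ (lab γ)) ∧
        (∀ w ∈ W, ∃ γ x d i, X'.lo i < x ∧ x < X'.hi i ∧ Odd x ∧
          X'.Valid (X'.OK 0) γ (x, d) ∧ X'.run γ (x, d) = (x, d) ∧ lab γ = w)

/-- CASE I.  `M i f` is the trace of the member `f` on the component `i`.  Two different members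
share at most a point in every component. -/
def S_CaseI : Prop :=
  ∀ (J I Γ F : Type) [Fintype J] [Fintype I] [Group Γ] [MulAction Γ F] (X : Sys J I ℝ)
    (ρ : FreeGroup J →* Γ) (M : I → F → Set ℝ), X.Good →
    (∀ i f, M i f ⊆ Set.Icc (X.lo i) (X.hi i)) →
    (∀ i f, IsClosed (M i f)) → (∀ i f, (M i f).OrdConnected) →
    (∀ i f f' x y, x ∈ M i f → x ∈ M i f' → y ∈ M i f → y ∈ M i f' → x ≠ y → f = f') →
    (∀ (σ : J × Bool) (x : ℝ) (f : F), X.dl σ ≤ x → x ≤ X.dl σ + X.l σ.1 → x ∈ M (X.dc σ) f →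
      X.mvx σ x ∈ M (X.dc (inv σ)) (ρ (sg σ) • f)) →
    ∀ (i0 : I) (f0 : F) (x0 y0 : ℝ), x0 ∈ M i0 f0 → y0 ∈ M i0 f0 → x0 < y0 →
    ∃ (F₀ E₀ : Finset ℝ), (∀ f ∈ F₀, 0 < f) ∧
      ∀ (L : ℝ →+ ℚ) (X' : Sys J I ℤ), Tp L X X' → (∀ f ∈ F₀, 0 < L f) →
        (∀ x ∈ E₀, x ∈ Lam L) →
        X'.Good ∧
        ∃ e i, X'.lo i < e ∧ e < X'.hi i ∧ Odd e ∧ ∃ g : Γ,
          ∀ γ d, X'.Valid (X'.OK 0) γ (e, d) → (X'.run γ (e, d)).1 = e →
            ρ (lab γ) • (g • f0) = g • f0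

end Pool.Agent.FrR
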