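import Pool.Agent.Lib.MP_305fdd_al.Fr.R.Move

/-!
# The walk along the axis of a letter
-/

set_option autoImplicit false

namespace Pool.Agent.FrR

section
variable {S Γ T : Type} [Finite S] [Group Γ] [MetricSpace T] [MulAction Γ T]
variable {ρ : FreeGroup S →* Γ} {o : T}
variable (hT : IsRT T) (hiso : ∀ (g : Γ) (p q : T), dist (g • p) (g • q) = dist p q) {n : ℕ}

include hT hiso in
theorem axis_walk (hn : 1 ≤ n) (hP : HP (ball S n) (len ρ o)) (σ : S × Bool)
    (hax : len ρ o (FrT.sg σ * FrT.sg σ) = 2 * len ρ o (FrT.sg σ))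
    (y1 z1 : VK (ball S n) ρ o) (h1 : (hpa (ball S n) ρ o).K.Adj y1 z1) (hb : Bt o y1.1 z1.1)
    (hz : Bt o z1.1 (ρ (FrT.sg σ) • o)) :
    ∃ (y0 z0 : VK (ball S n) ρ o) (h0 : (hpa (ball S n) ρ o).K.Adj y0 z0)
      (W : (hpa (ball S n) ρ o).K.Walk z0 y1),
      (hpa (ball S n) ρ o).Stp σ y0 y1 ∧ (hpa (ball S n) ρ o).Stp σ z0 z1 ∧
      (SimpleGraph.Walk.cons h0 (W.concat h1)).IsPath := by
  classical
  set g : Γ := ρ (FrT.sg σ) with hg
  set ℓ := len ρ o (FrT.sg σ) with hℓ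
  have hd : dist y1.1 z1.1 = 2 := h1
  set A : T := g⁻¹ • o with hA
  set B : T := g • o with hB
  have hσ : FrT.sg σ ∈ ball S n := by
    refine ball_mono hn (mem_ball.2 ⟨[σ], by simp, ?_⟩)
    rw [mk_cons]
    have : FreeGroup.mk ([] : List (S × Bool)) = 1 := rfl
    rw [this, mul_one]
  have hgA : g • A = o := by rw [hA, smul_inv_smul]
  have dAo : dist A o = ℓ := by
    rw [← hiso g A o, hgA]; rfl
  have doB : dist o B = ℓ := rfl
  have dAB : dist A B = 2 * ℓ := by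
    rw [← hax, ← hiso g A B, hgA]
    unfold len
    rw [map_mul, mul_smul]
  have bAoB : Bt A o B := by unfold Bt; linarith
  obtain ⟨a, ha⟩ := y1.2.2
  have hzl : dist o z1.1 = dist o y1.1 + 2 := by unfold Bt at hb; linarith
  have hzℓ : dist o z1.1 ≤ ℓ := hz.le
  have hy : Bt o y1.1 B := hb.trans hz
  have kA : KV (ball S n) ρ o A := by
    have := KV.end' hP (inv_mem_ball hσ)
    rw [map_inv] at this
    exact this
  have ko : KV (ball S n) ρ o o := KV.base hP
  have gB : g⁻¹ • B = o := by rw [hB, inv_smul_smul]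
  have by0 : Bt A (g⁻¹ • y1.1) o := by
    have := hy.smul hiso g⁻¹
    rwa [gB] at this
  have bz0 : Bt A (g⁻¹ • z1.1) o := by
    have := Bt.smul hiso g⁻¹ hz
    rwa [gB] at this
  have dy0 : dist A (g⁻¹ • y1.1) = dist o y1.1 := hiso _ _ _
  have dz0 : dist A (g⁻¹ • z1.1) = dist o z1.1 := hiso _ _ _
  have ky0 : KV (ball S n) ρ o (g⁻¹ • y1.1) :=
    KV.between hT hiso hP kA ko by0 (m := a) (by rw [dy0, ha])
  have kz0 : KV (ball S n) ρ o (g⁻¹ • z1.1) :=
    KV.between hT hiso hP kA ko bz0 (m := a + 1) (by rw [dz0, hzl, ha]; push_cast; ring)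
  set y0 : VK (ball S n) ρ o := ⟨_, ky0⟩ with hy0
  set z0 : VK (ball S n) ρ o := ⟨_, kz0⟩ with hz0
  have h0 : (hpa (ball S n) ρ o).K.Adj y0 z0 := by
    show dist (g⁻¹ • y1.1) (g⁻¹ • z1.1) = 2
    rw [hiso, hd]
  -- positions on `[A, B]`
  have cy0 : Bt A y0.1 B := by0.trans bAoB
  have cz0 : Bt A z0.1 B := bz0.trans bAoB
  have cy1 : Bt A y1.1 B := Bt.symm (Bt.trans (Bt.symm hy) (Bt.symm bAoB))
  have cz1 : Bt A z1.1 B := Bt.symm (Bt.trans (Bt.symm hz) (Bt.symm bAoB))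
  have py0 : dist A y0.1 = dist o y1.1 := dy0
  have pz0 : dist A z0.1 = dist o y1.1 + 2 := by rw [← hzl]; exact dz0
  have py1 : dist A y1.1 = ℓ + dist o y1.1 := by
    have h2 := cy1
    have h3 := hy
    unfold Bt at h2 h3
    linarith
  have pz1 : dist A z1.1 = ℓ + dist o y1.1 + 2 := by
    have h2 := cz1
    have h3 := hz
    unfold Bt at h2 h3
    linarith
  have hk0 := dist_nonneg (x := o) (y := y1.1)
  have dz0y1 : dist z0.1 y1.1 = ℓ - 2 := by
    rw [cz0.dist_eq hT cy1, pz0, py1, abs_of_nonpos (by linarith)]; ring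
  have dz0z1 : dist z0.1 z1.1 = ℓ := by
    rw [cz0.dist_eq hT cz1, pz0, pz1, abs_of_nonpos (by linarith)]; ring
  have dy0y1 : dist y0.1 y1.1 = ℓ := by
    rw [cy0.dist_eq hT cy1, py0, py1, abs_of_nonpos (by linarith)]; ring
  have dy0z1 : dist y0.1 z1.1 = ℓ + 2 := by
    rw [cy0.dist_eq hT cz1, py0, pz1, abs_of_nonpos (by linarith)]; ring
  obtain ⟨k, hk⟩ := dist_nat hT hiso hP z0 y1
  obtain ⟨W, hW1, hW2⟩ := geo_walk hT hiso hP k z0 y1 hk
  refine ⟨y0, z0, h0, W, stp_of σ y0 y1 ?_, stp_of σ z0 z1 ?_, ?_⟩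
  · show y1.1 = g • (g⁻¹ • y1.1)
    rw [smul_inv_smul]
  · show z1.1 = g • (g⁻¹ • z1.1)
    rw [smul_inv_smul]
  · have n1 : z1 ∉ W.support := by
      intro h
      have := hW2 z1 h
      unfold Bt at this
      rw [dz0z1, dz0y1, dist_comm z1.1 y1.1, hd] at this
      linarith
    have n2 : y0 ∉ W.support := by
      intro h
      have := hW2 y0 h
      unfold Bt at this
      have h0' : dist y0.1 z0.1 = 2 := h0
      rw [dist_comm z0.1 y0.1, h0', dy0y1, dz0y1] at this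
      linarith
    have n3 : y0 ≠ z1 := by
      intro h
      rw [h, dist_self] at dy0z1
      linarith
    rw [SimpleGraph.Walk.cons_isPath_iff]
    refine ⟨hW1.concat n1 h1, ?_⟩
    rw [SimpleGraph.Walk.support_concat]
    simp only [List.concat_eq_append, List.mem_append, List.mem_singleton]
    rintro (h | h)
    · exact n2 h
    · exact n3 h

end

end Pool.Agent.FrR
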