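import Pool.Agent.Lib.MP_305fdd_al.Fr.R.RT

/-!
# The system of interval isometries of a finite set `P` of words

Components: segments `[o, u o]`, `u ∈ P`.  Bands: overlaps of `c [o, u o]` with `[o, w o]`, `c` a
letter or `1`.  All data are given by the length function `ℓ w = d (o, w o)`.
-/

set_option autoImplicit false

namespace Pool.Agent.FrR

open Pool.Agent.FrZ

section
variable {S : Type}

/-- letter or `1` -/
def el : Option S → FreeGroup S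
  | none => 1
  | some s => FreeGroup.of s

/-- parameter of the beginning of the overlap -/
noncomputable def al (ℓ : FreeGroup S → ℝ) (c : Option S) (u : FreeGroup S) : ℝ :=
  (ℓ (el c) + ℓ u - ℓ (el c * u)) / 2

/-- parameter of the end of the overlap -/
noncomputable def be (ℓ : FreeGroup S → ℝ) (c : Option S) (u w : FreeGroup S) : ℝ :=
  (ℓ ((el c)⁻¹ * w) + ℓ u - ℓ (w⁻¹ * (el c * u))) / 2

/-- components -/
abbrev Ix (P : Finset (FreeGroup S)) (ℓ₀ : FreeGroup S → ℝ) : Type :=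
  {u : FreeGroup S // u ∈ P ∧ 0 < ℓ₀ u}

/-- bands -/
abbrev Jx (P : Finset (FreeGroup S)) (ℓ₀ : FreeGroup S → ℝ) : Type :=
  {j : Option S × Ix P ℓ₀ × Ix P ℓ₀ // al ℓ₀ j.1 j.2.1.1 ≠ be ℓ₀ j.1 j.2.1.1 j.2.2.1}

/-- the system with the index sets given by `ℓ₀`, the values by `ℓ` and the placement `lo` -/
noncomputable def bsys (P : Finset (FreeGroup S)) (ℓ₀ ℓ lo : FreeGroup S → ℝ) :
    Sys (Jx P ℓ₀) (Ix P ℓ₀) ℝ where
  a j := lo j.1.2.1.1 + min (al ℓ j.1.1 j.1.2.1.1) (be ℓ j.1.1 j.1.2.1.1 j.1.2.2.1)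
  b j := lo j.1.2.2.1 + (ℓ (el j.1.1) - al ℓ j.1.1 j.1.2.1.1)
  l j := |be ℓ j.1.1 j.1.2.1.1 j.1.2.2.1 - al ℓ j.1.1 j.1.2.1.1|
  fl j := decide (be ℓ j.1.1 j.1.2.1.1 j.1.2.2.1 < al ℓ j.1.1 j.1.2.1.1)
  lo i := lo i.1
  hi i := lo i.1 + ℓ i.1
  ca j := j.1.2.1
  cb j := j.1.2.2

/-- `ℓ` has the same signs as `ℓ₀` -/
structure Cp (P : Finset (FreeGroup S)) (ℓ₀ ℓ : FreeGroup S → ℝ) : Prop where
  pos : ∀ u ∈ P, 0 < ℓ₀ u ↔ 0 < ℓ u
  lt : ∀ c, ∀ u ∈ P, ∀ w ∈ P, al ℓ₀ c u < be ℓ₀ c u w ↔ al ℓ c u < be ℓ c u w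
  gt : ∀ c, ∀ u ∈ P, ∀ w ∈ P, be ℓ₀ c u w < al ℓ₀ c u ↔ be ℓ c u w < al ℓ c u

theorem Cp.refl (P : Finset (FreeGroup S)) (ℓ : FreeGroup S → ℝ) : Cp P ℓ ℓ :=
  ⟨fun _ _ => Iff.rfl, fun _ _ _ _ _ => Iff.rfl, fun _ _ _ _ _ => Iff.rfl⟩

theorem Cp.ne {P : Finset (FreeGroup S)} {ℓ₀ ℓ : FreeGroup S → ℝ} (h : Cp P ℓ₀ ℓ) (c : Option S)
    {u w : FreeGroup S} (hu : u ∈ P) (hw : w ∈ P) :
    al ℓ₀ c u ≠ be ℓ₀ c u w ↔ al ℓ c u ≠ be ℓ c u w := by
  rw [ne_iff_lt_or_gt, ne_iff_lt_or_gt, h.lt c u hu w hw, h.gt c u hu w hw]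

variable {Γ T : Type} [Group Γ] [MetricSpace T] [MulAction Γ T]

/-- the length function -/
noncomputable def len (ρ : FreeGroup S →* Γ) (o : T) (w : FreeGroup S) : ℝ := dist o (ρ w • o)

variable (hT : IsRT T) (hiso : ∀ (g : Γ) (p q : T), dist (g • p) (g • q) = dist p q)
  (ρ : FreeGroup S →* Γ) (o : T)

include hiso in
theorem dist_word (u w : FreeGroup S) : dist (ρ u • o) (ρ w • o) = len ρ o (u⁻¹ * w) := by
  unfold len
  rw [← hiso (ρ u⁻¹) (ρ u • o) (ρ w • o), smul_smul, smul_smul, ← map_mul, ← map_mul,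
    inv_mul_cancel, map_one, one_smul]

include hiso in
theorem al_eq (c : Option S) (u : FreeGroup S) :
    al (len ρ o) c u = pr (ρ (el c) • o) (ρ (el c * u) • o) o := by
  unfold al
  rw [pr_def, dist_word hiso, dist_comm (ρ (el c) • o) o]
  rw [show (el c)⁻¹ * (el c * u) = u by group]
  rfl

include hiso in
theorem be_eq (c : Option S) (u w : FreeGroup S) :
    be (len ρ o) c u w = pr (ρ (el c) • o) (ρ (el c * u) • o) (ρ w • o) := by
  unfold be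
  rw [pr_def, dist_word hiso, dist_word hiso, dist_word hiso]
  rw [show (el c)⁻¹ * (el c * u) = u by group]

theorem pr_nonneg (p q x : T) : 0 ≤ pr p q x := by
  unfold pr
  have := dist_triangle x p q
  rw [dist_comm x p] at this
  linarith

theorem pr_le (p q x : T) : pr p q x ≤ dist p q := by
  unfold pr
  have := dist_triangle p q x
  rw [dist_comm q x] at this
  linarith

theorem pr_le' (p q x : T) : pr p q x ≤ dist p x := by
  unfold pr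
  have := dist_triangle p x q
  linarith

include hT in
/-- the overlap is inside the other segment -/
theorem overlap_le {p q p' q' : T} (hne : pr p q p' ≠ pr p q q') :
    dist p p' - pr p q p' + |pr p q q' - pr p q p'| ≤ dist p' q' := by
  have h0 := pr_le' p q q'
  rcases lt_or_gt_of_ne hne with hlt | hlt
  · have h3 := overlap_aux hT (p := p) (q := q) (p' := p') (q' := q') (by
      unfold pr at hlt; linarith)
    rw [abs_of_pos (by linarith), h3]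
    unfold pr at *
    linarith
  · have h3 := overlap_aux hT (p := p) (q := q) (p' := q') (q' := p') (by
      unfold pr at hlt; linarith)
    rw [dist_comm q' p'] at h3
    rw [abs_of_neg (by linarith), h3]
    unfold pr at *
    linarith

variable {P : Finset (FreeGroup S)} {ℓ₀ : FreeGroup S → ℝ} (lo : FreeGroup S → ℝ)

/-- the placement is disjoint -/
def Disj (P : Finset (FreeGroup S)) (ℓ₀ ℓ lo : FreeGroup S → ℝ) : Prop :=
  ∀ u ∈ P, ∀ w ∈ P, 0 < ℓ₀ u → 0 < ℓ₀ w → u ≠ w → lo u + ℓ u < lo w ∨ lo w + ℓ w < lo u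

include hT hiso in
theorem bsys_good (hC : Cp P ℓ₀ (len ρ o)) (hlo : Disj P ℓ₀ (len ρ o) lo) :
    (bsys P ℓ₀ (len ρ o) lo).Good where
  l_pos j := by
    show 0 < |be (len ρ o) j.1.1 j.1.2.1.1 j.1.2.2.1 - al (len ρ o) j.1.1 j.1.2.1.1|
    rw [abs_pos, sub_ne_zero]
    exact ((hC.ne j.1.1 j.1.2.1.2.1 j.1.2.2.2.1).1 j.2).symm
  lt i := by
    show lo i.1 < lo i.1 + len ρ o i.1
    have := (hC.pos i.1 i.2.1).1 i.2.2
    linarith
  disj i i' hii := hlo i.1 i.2.1 i'.1 i'.2.1 i.2.2 i'.2.2 (fun h => hii (Subtype.ext h))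
  dom := by
    rintro ⟨j, b⟩
    have hne := (hC.ne j.1.1 j.1.2.1.2.1 j.1.2.2.2.1).1 j.2
    rw [al_eq hiso, be_eq hiso] at hne
    have hd : dist (ρ (el j.1.1) • o) (ρ (el j.1.1 * j.1.2.1.1) • o) =
        len ρ o j.1.2.1.1 := by
      rw [dist_word hiso, show (el j.1.1)⁻¹ * (el j.1.1 * j.1.2.1.1) = j.1.2.1.1 by group]
    cases b
    · show lo j.1.2.2.1 ≤ lo j.1.2.2.1 + (len ρ o (el j.1.1) - al (len ρ o) j.1.1 j.1.2.1.1) ∧
        lo j.1.2.2.1 + (len ρ o (el j.1.1) - al (len ρ o) j.1.1 j.1.2.1.1) +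
        |be (len ρ o) j.1.1 j.1.2.1.1 j.1.2.2.1 - al (len ρ o) j.1.1 j.1.2.1.1| ≤
        lo j.1.2.2.1 + len ρ o j.1.2.2.1
      rw [al_eq hiso, be_eq hiso]
      have h1 := overlap_le hT hne
      have h2 := pr_le' (ρ (el j.1.1) • o) (ρ (el j.1.1 * j.1.2.1.1) • o) o
      rw [dist_comm _ o] at h1 h2
      have h3 : dist o (ρ (el j.1.1) • o) = len ρ o (el j.1.1) := rfl
      have h4 : dist o (ρ j.1.2.2.1 • o) = len ρ o j.1.2.2.1 := rfl
      rw [h3] at h1 h2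
      rw [h4] at h1
      constructor <;> linarith
    · show lo j.1.2.1.1 ≤ lo j.1.2.1.1 + min (al (len ρ o) j.1.1 j.1.2.1.1)
          (be (len ρ o) j.1.1 j.1.2.1.1 j.1.2.2.1) ∧
        lo j.1.2.1.1 + min (al (len ρ o) j.1.1 j.1.2.1.1)
          (be (len ρ o) j.1.1 j.1.2.1.1 j.1.2.2.1) +
        |be (len ρ o) j.1.1 j.1.2.1.1 j.1.2.2.1 - al (len ρ o) j.1.1 j.1.2.1.1| ≤
        lo j.1.2.1.1 + len ρ o j.1.2.1.1
      rw [al_eq hiso, be_eq hiso]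
      have h1 := pr_nonneg (ρ (el j.1.1) • o) (ρ (el j.1.1 * j.1.2.1.1) • o) o
      have h2 := pr_nonneg (ρ (el j.1.1) • o) (ρ (el j.1.1 * j.1.2.1.1) • o) (ρ j.1.2.2.1 • o)
      have h3 := pr_le (ρ (el j.1.1) • o) (ρ (el j.1.1 * j.1.2.1.1) • o) o
      have h4 := pr_le (ρ (el j.1.1) • o) (ρ (el j.1.1 * j.1.2.1.1) • o) (ρ j.1.2.2.1 • o)
      rw [hd] at h3 h4
      rcases lt_or_gt_of_ne hne with hlt | hlt
      · rw [min_eq_left hlt.le, abs_of_pos (by linarith)]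
        constructor <;> linarith
      · rw [min_eq_right hlt.le, abs_of_neg (by linarith)]
        constructor <;> linarith

/-- the realisation -/
noncomputable def rea (i : Ix P ℓ₀) (x : ℝ) : T := sp o (ρ i.1 • o) (x - lo i.1)

/-- the labels of the bands in `FreeGroup S` -/
def labJ (P : Finset (FreeGroup S)) (ℓ₀ : FreeGroup S → ℝ) : FreeGroup (Jx P ℓ₀) →* FreeGroup S :=
  FreeGroup.lift (fun j => el j.1.1)

theorem labJ_of (j : Jx P ℓ₀) : labJ P ℓ₀ (FreeGroup.of j) = el j.1.1 := by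
  simp [labJ]

include hT in
theorem rea_spec (i : Ix P ℓ₀) {x : ℝ} (h0 : lo i.1 ≤ x) (h1 : x ≤ lo i.1 + len ρ o i.1) :
    Bt o (rea ρ o lo i x) (ρ i.1 • o) ∧ dist o (rea ρ o lo i x) = x - lo i.1 :=
  sp_spec hT _ _ (by linarith) (by unfold len at h1; linarith)

include hT in
theorem rea_eq (i : Ix P ℓ₀) {z : T} (h : Bt o z (ρ i.1 • o)) :
    rea ρ o lo i (lo i.1 + dist o z) = z := by
  unfold rea
  rw [add_sub_cancel_left]
  exact sp_eq hT h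

include hT in
theorem rea_iso (i : Ix P ℓ₀) {x y : ℝ} (h0 : lo i.1 ≤ x) (h1 : x ≤ lo i.1 + len ρ o i.1)
    (h2 : lo i.1 ≤ y) (h3 : y ≤ lo i.1 + len ρ o i.1) :
    dist (rea ρ o lo i x) (rea ρ o lo i y) = |x - y| := by
  obtain ⟨a1, a2⟩ := rea_spec hT ρ o lo i h0 h1
  obtain ⟨b1, b2⟩ := rea_spec hT ρ o lo i h2 h3
  rw [a1.dist_eq hT b1, a2, b2]
  congr 1
  ring

include hiso in
theorem Bt.smul (g : Γ) {p z q : T} (h : Bt p z q) : Bt (g • p) (g • z) (g • q) := by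
  unfold Bt at *
  rw [hiso, hiso, hiso, h]

theorem bsys_mvx_true (ℓ : FreeGroup S → ℝ) (j : Jx P ℓ₀) (x : ℝ)
    (hx : (bsys P ℓ₀ ℓ lo).dl (j, true) ≤ x)
    (hx' : x ≤ (bsys P ℓ₀ ℓ lo).dl (j, true) + (bsys P ℓ₀ ℓ lo).l j) :
    (bsys P ℓ₀ ℓ lo).mvx (j, true) x = lo j.1.2.2.1 + (ℓ (el j.1.1) - al ℓ j.1.1 j.1.2.1.1) +
      |x - lo j.1.2.1.1 - al ℓ j.1.1 j.1.2.1.1| ∧
    min (al ℓ j.1.1 j.1.2.1.1) (be ℓ j.1.1 j.1.2.1.1 j.1.2.2.1) ≤ x - lo j.1.2.1.1 ∧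
    x - lo j.1.2.1.1 ≤ max (al ℓ j.1.1 j.1.2.1.1) (be ℓ j.1.1 j.1.2.1.1 j.1.2.2.1) := by
  change lo j.1.2.1.1 + min (al ℓ j.1.1 j.1.2.1.1) (be ℓ j.1.1 j.1.2.1.1 j.1.2.2.1) ≤ x at hx
  change x ≤ lo j.1.2.1.1 + min (al ℓ j.1.1 j.1.2.1.1) (be ℓ j.1.1 j.1.2.1.1 j.1.2.2.1) +
    |be ℓ j.1.1 j.1.2.1.1 j.1.2.2.1 - al ℓ j.1.1 j.1.2.1.1| at hx'
  have e1 : (bsys P ℓ₀ ℓ lo).mvx (j, true) x =
      if decide (be ℓ j.1.1 j.1.2.1.1 j.1.2.2.1 < al ℓ j.1.1 j.1.2.1.1) then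
        lo j.1.2.2.1 + (ℓ (el j.1.1) - al ℓ j.1.1 j.1.2.1.1) +
        (lo j.1.2.1.1 + min (al ℓ j.1.1 j.1.2.1.1) (be ℓ j.1.1 j.1.2.1.1 j.1.2.2.1) +
          |be ℓ j.1.1 j.1.2.1.1 j.1.2.2.1 - al ℓ j.1.1 j.1.2.1.1| - x)
      else lo j.1.2.2.1 + (ℓ (el j.1.1) - al ℓ j.1.1 j.1.2.1.1) +
        (x - (lo j.1.2.1.1 + min (al ℓ j.1.1 j.1.2.1.1) (be ℓ j.1.1 j.1.2.1.1 j.1.2.2.1))) := rfl
  rw [e1]
  generalize al ℓ j.1.1 j.1.2.1.1 = α at *
  generalize be ℓ j.1.1 j.1.2.1.1 j.1.2.2.1 = β at *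
  by_cases h : β < α
  · rw [decide_eq_true h, if_pos rfl]
    rw [min_eq_right h.le, abs_of_neg (by linarith : β - α < 0)] at hx' ⊢
    rw [min_eq_right h.le] at hx
    rw [max_eq_left h.le, abs_of_nonpos (by linarith)]
    refine ⟨by ring, by linarith, by linarith⟩
  · rw [decide_eq_false h]
    push Not at h
    simp only [Bool.false_eq_true, if_false]
    rw [min_eq_left h, abs_of_nonneg (by linarith : 0 ≤ β - α)] at hx'
    rw [min_eq_left h] at hx ⊢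
    rw [max_eq_right h, abs_of_nonneg (by linarith)]
    refine ⟨by ring, by linarith, by linarith⟩

include hT hiso in
theorem bsys_rln (hC : Cp P ℓ₀ (len ρ o)) :
    Rln (bsys P ℓ₀ (len ρ o) lo) (ρ.comp (labJ P ℓ₀)) (rea ρ o lo) where
  iso i x y h1 h2 h3 h4 := rea_iso hT ρ o lo i h1 h2 h3 h4
  band := by
    have key : ∀ (j : Jx P ℓ₀) (x : ℝ), (bsys P ℓ₀ (len ρ o) lo).dl (j, true) ≤ x →
        x ≤ (bsys P ℓ₀ (len ρ o) lo).dl (j, true) + (bsys P ℓ₀ (len ρ o) lo).l j →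
        rea ρ o lo j.1.2.2 ((bsys P ℓ₀ (len ρ o) lo).mvx (j, true) x) =
          ρ (el j.1.1) • rea ρ o lo j.1.2.1 x := by
      intro j x hx hx'
      obtain ⟨h1, h2, h3⟩ := bsys_mvx_true lo (len ρ o) j x hx hx'
      have hne := (hC.ne j.1.1 j.1.2.1.2.1 j.1.2.2.2.1).1 j.2
      rw [al_eq hiso, be_eq hiso] at hne h2 h3
      rw [al_eq hiso] at h1
      have hd : dist (ρ (el j.1.1) • o) (ρ (el j.1.1 * j.1.2.1.1) • o) =
          len ρ o j.1.2.1.1 := by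
        rw [dist_word hiso, show (el j.1.1)⁻¹ * (el j.1.1 * j.1.2.1.1) = j.1.2.1.1 by group]
      have n1 := pr_nonneg (ρ (el j.1.1) • o) (ρ (el j.1.1 * j.1.2.1.1) • o) o
      have n2 := pr_nonneg (ρ (el j.1.1) • o) (ρ (el j.1.1 * j.1.2.1.1) • o) (ρ j.1.2.2.1 • o)
      have n3 := pr_le (ρ (el j.1.1) • o) (ρ (el j.1.1 * j.1.2.1.1) • o) o
      have n4 := pr_le (ρ (el j.1.1) • o) (ρ (el j.1.1 * j.1.2.1.1) • o) (ρ j.1.2.2.1 • o)
      rw [hd] at n3 n4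
      have t0 : 0 ≤ x - lo j.1.2.1.1 := (le_min n1 n2).trans h2
      have t1 : x - lo j.1.2.1.1 ≤ len ρ o j.1.2.1.1 := h3.trans (max_le n3 n4)
      obtain ⟨s1, s2⟩ := rea_spec hT ρ o lo j.1.2.1 (x := x) (by linarith) (by linarith)
      set z := rea ρ o lo j.1.2.1 x with hz
      have b1 : Bt (ρ (el j.1.1) • o) (ρ (el j.1.1) • z) (ρ (el j.1.1 * j.1.2.1.1) • o) := by
        rw [map_mul, mul_smul]
        exact s1.smul hiso _
      have d1 : dist (ρ (el j.1.1) • o) (ρ (el j.1.1) • z) = x - lo j.1.2.1.1 := by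
        rw [hiso, s2]
      have b2 := (overlap_iff hT hne b1).2 (by rw [d1]; exact ⟨h2, h3⟩)
      have d2 := dist_pr hT (p' := o) b1
      rw [d1, dist_comm (ρ (el j.1.1) • o) o] at d2
      have e2 := rea_eq hT ρ o lo j.1.2.2 b2
      rw [h1, ← e2, d2]
      congr 1
      show lo j.1.2.2.1 + (dist o (ρ (el j.1.1) • o) - _) + _ = _
      ring
    rintro ⟨j, b⟩ x hx hx'
    cases b
    · set X := bsys P ℓ₀ (len ρ o) lo with hX
      have hok : X.OK 0 (j, false) (x, true) := by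
        rw [Sys.OK_iff]
        constructor <;> linarith
      have hok' : X.OK 0 (inv (j, false)) (X.mv (j, false) (x, true)) :=
        (X.OK_mv 0 (j, false) (x, true)).2 hok
      have e1 : X.mv (j, false) (x, true) = (X.mvx (j, false) x, xor true (X.fl j)) := rfl
      rw [e1] at hok'
      have e2 : inv (j, false) = (j, true) := rfl
      rw [e2, Sys.OK_iff] at hok'
      have h1 := key j (X.mvx (j, false) x) (by linarith [hok'.1]) (by linarith [hok'.2])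
      have h2 := X.mvx_inv (j, false) x
      rw [e2] at h2
      rw [h2] at h1
      show rea ρ o lo j.1.2.1 (X.mvx (j, false) x) = (ρ (labJ P ℓ₀ (sg (j, false)))) •
        rea ρ o lo j.1.2.2 x
      rw [h1]
      have e3 : sg (j, false) = (FreeGroup.of j)⁻¹ := rfl
      rw [e3, map_inv, labJ_of, map_inv, inv_smul_smul]
    · have h1 := key j x hx hx'
      show rea ρ o lo j.1.2.2 _ = (ρ (labJ P ℓ₀ (sg (j, true)))) • rea ρ o lo j.1.2.1 x
      have e3 : sg (j, true) = FreeGroup.of j := rfl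
      rw [h1, e3, labJ_of]

end

end Pool.Agent.FrR
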