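import Pool.Agent.Lib.MP_305fdd_al.Fr.R.TAxis
import Pool.Agent.Lib.MP_305fdd_al.Fr.R.Axis
import Pool.Agent.Lib.MP_305fdd_al.Fr.T.Edge

/-!
# The tree `T_X`: equivariant map, non-triviality
-/

set_option autoImplicit false

namespace Pool.Agent.FrR

open Pool.Agent.FrT

section
variable {S Γ T : Type} [Finite S] [Group Γ] [MetricSpace T] [MulAction Γ T]
variable {ρ : FreeGroup S →* Γ} {o : T} {n : ℕ}
variable {H : Type} [Group H] (π : FreeGroup S →* H) (ρb : H →* Γ) (hρ : ∀ w, ρb (π w) = ρ w)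

/-- the equivariant map -/
def fT (P : Finset (FreeGroup S)) (hρ : ∀ w, ρb (π w) = ρ w) : (hpa P ρ o).TV π → T :=
  Quot.lift (fun x => ρb x.1 • x.2.1) (by
    rintro x y ⟨s, h1, h2, h3⟩
    show ρb x.1 • x.2.1 = ρb y.1 • y.2.1
    rw [h2, h3, hpa_act h1, map_mul, hρ, mul_smul])

theorem fT_pt (P : Finset (FreeGroup S)) (g : H) (p : VK P ρ o) :
    fT π ρb P hρ ((hpa P ρ o).pt π g p) = ρb g • p.1 := rfl

theorem fT_one (P : Finset (FreeGroup S)) (p : VK P ρ o) :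
    fT π ρb P hρ ((hpa P ρ o).pt π 1 p) = p.1 := by
  rw [fT_pt, map_one, one_smul]

theorem fT_smul (P : Finset (FreeGroup S)) (g : H) (x : (hpa P ρ o).TV π) :
    fT π ρb P hρ (g • x) = ρb g • fT π ρb P hρ x := by
  obtain ⟨h, p, rfl⟩ := (hpa P ρ o).pt_surj π x
  rw [PA.smul_pt, fT_pt, fT_pt, map_mul, mul_smul]

/-- the hull is embedded -/
noncomputable def phi (P : Finset (FreeGroup S)) (hG : (hpa P ρ o).Good) :
    (hpa P ρ o).K →g (hpa P ρ o).TG π hG where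
  toFun x := (hpa P ρ o).pt π 1 x
  map_rel' {x y} h := ⟨1, x, y, h, rfl, rfl⟩

include hρ in
theorem phi_inj (P : Finset (FreeGroup S)) (hG : (hpa P ρ o).Good) :
    Function.Injective (phi π P hG) := by
  intro x y h
  have h1 : (hpa P ρ o).pt π 1 x = (hpa P ρ o).pt π 1 y := h
  have h2 := congrArg (fT π ρb P hρ) h1
  rw [fT_one, fT_one] at h2
  exact Subtype.ext h2

variable (hT : IsRT T) (hiso : ∀ (g : Γ) (p q : T), dist (g • p) (g • q) = dist p q)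

include hT hiso in
theorem out (hwalk : S_walk) (hn : 1 ≤ n) (hP : HP (ball S n) (len ρ o))
    (hG : (hpa (ball S n) ρ o).Good) (htree : ((hpa (ball S n) ρ o).TG π hG).IsTree)
    (hax : ∀ s : S, len ρ o (FreeGroup.of s * FreeGroup.of s) = 2 * len ρ o (FreeGroup.of s))
    (y z : VK (ball S n) ρ o) (hyz : (hpa (ball S n) ρ o).K.Adj y z) (hb : Bt o y.1 z.1) :
    ∃ (δ : List (S × Bool)) (y0 z0 : VK (ball S n) ρ o), (hpa (ball S n) ρ o).Path δ y y0 ∧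
      (hpa (ball S n) ρ o).Path δ z z0 ∧ (hpa (ball S n) ρ o).K.Adj y0 z0 ∧
      Sst (u := (hpa (ball S n) ρ o).pt π 1 y0) (v := (hpa (ball S n) ρ o).pt π 1 z0)
        ((hpa (ball S n) ρ o).acts π hG) ((hpa (ball S n) ρ o).pt π 1 y0) ≠ ⊤ ∧
      Sst (u := (hpa (ball S n) ρ o).pt π 1 y0) (v := (hpa (ball S n) ρ o).pt π 1 z0)
        ((hpa (ball S n) ρ o).acts π hG) ((hpa (ball S n) ρ o).pt π 1 z0) ≠ ⊤ ∧
      ((∀ g : H, ¬ Rch H ((hpa (ball S n) ρ o).TG π hG) ((hpa (ball S n) ρ o).pt π 1 y0)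
          ((hpa (ball S n) ρ o).pt π 1 z0) (g • (hpa (ball S n) ρ o).pt π 1 y0)
          ((hpa (ball S n) ρ o).pt π 1 z0)) →
        (∃ b ∈ Sst (u := (hpa (ball S n) ρ o).pt π 1 y0) (v := (hpa (ball S n) ρ o).pt π 1 z0)
          ((hpa (ball S n) ρ o).acts π hG) ((hpa (ball S n) ρ o).pt π 1 y0),
          fT π ρb (ball S n) hρ (b • (hpa (ball S n) ρ o).pt π 1 z0) ≠
            fT π ρb (ball S n) hρ ((hpa (ball S n) ρ o).pt π 1 z0)) ∧
        (∃ b ∈ Sst (u := (hpa (ball S n) ρ o).pt π 1 y0) (v := (hpa (ball S n) ρ o).pt π 1 z0)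
          ((hpa (ball S n) ρ o).acts π hG) ((hpa (ball S n) ρ o).pt π 1 z0),
          fT π ρb (ball S n) hρ (b • (hpa (ball S n) ρ o).pt π 1 y0) ≠
            fT π ρb (ball S n) hρ ((hpa (ball S n) ρ o).pt π 1 y0))) := by
  classical
  set P := hpa (ball S n) ρ o with hPdef
  obtain ⟨⟨u, hu, hzu⟩, -⟩ := z.2
  obtain ⟨l, hl1, hl2⟩ := mem_ball.1 hu
  rw [← hl2] at hzu
  obtain ⟨γ, σ, y1, z1, p1, p2, p3, p4, p5⟩ := move hT hiso hP l hl1 y z hyz hb hzu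
  have h1 : P.K.Adj y1 z1 := p3
  have hax' : len ρ o (FrT.sg σ * FrT.sg σ) = 2 * len ρ o (FrT.sg σ) := by
    obtain ⟨s, b⟩ := σ
    cases b
    · show len ρ o ((FreeGroup.of s)⁻¹ * (FreeGroup.of s)⁻¹) = 2 * len ρ o (FreeGroup.of s)⁻¹
      rw [← mul_inv_rev, len_inv hiso, len_inv hiso, hax]
    · exact hax s
  obtain ⟨y0, z0, h0, W, s1, s2, hW⟩ := axis_walk hT hiso hn hP σ hax' y1 z1 h1 p4 p5
  set φ := phi π (ball S n) hG with hφ
  have hφi : Function.Injective φ := phi_inj π ρb hρ (ball S n) hG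
  have hf : ∀ x : VK (ball S n) ρ o, fT π ρb (ball S n) hρ (φ x) = x.1 := fun x =>
    fT_one π ρb hρ (ball S n) x
  have ey : φ y1 = π (FrT.sg σ) • φ y0 := by
    have := P.pt_stp π 1 σ y0 y1 s1
    rw [one_mul] at this
    show P.pt π 1 y1 = π (FrT.sg σ) • P.pt π 1 y0
    rw [PA.smul_pt, mul_one, this]
  have ez : φ z1 = π (FrT.sg σ) • φ z0 := by
    have := P.pt_stp π 1 σ z0 z1 s2
    rw [one_mul] at this
    show P.pt π 1 z1 = π (FrT.sg σ) • P.pt π 1 z0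
    rw [PA.smul_pt, mul_one, this]
  have hmap : (SimpleGraph.Walk.cons h0 (W.concat h1)).map φ =
      SimpleGraph.Walk.cons (φ.map_adj h0) ((W.map φ).concat (φ.map_adj h1)) := by
    rw [SimpleGraph.Walk.map_cons, SimpleGraph.Walk.concat_eq_append,
      SimpleGraph.Walk.map_append, SimpleGraph.Walk.concat_eq_append]
    rfl
  have hW' : (SimpleGraph.Walk.cons (φ.map_adj h0) ((W.map φ).concat (φ.map_adj h1))).IsPath := by
    rw [← hmap]
    exact SimpleGraph.Walk.map_isPath_of_injective hφi hW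
  obtain ⟨t1, t2, t3⟩ := tree_axis (P.acts π hG) hwalk htree (φ.map_adj h0) (π (FrT.sg σ)) ey ez
    (φ.map_adj h1) (W.map φ) hW'
  have hsupp : ∀ x ∈ (SimpleGraph.Walk.cons (φ.map_adj h0)
      ((W.map φ).concat (φ.map_adj h1))).support, ∃ q, φ q = x := by
    intro x hx
    rw [← hmap, SimpleGraph.Walk.support_map, List.mem_map] at hx
    obtain ⟨q, -, hq⟩ := hx
    exact ⟨q, hq⟩
  refine ⟨γ ++ [(σ.1, !σ.2)], y0, z0, ?_, ?_, h0, t1, t2, ?_⟩
  · exact (P.path_append _ _ _ _).2 ⟨y1, p1, ⟨y0, (P.stp_inv σ y0 y1).2 s1, rfl⟩⟩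
  · exact (P.path_append _ _ _ _).2 ⟨z1, p2, ⟨z0, (P.stp_inv σ z0 z1).2 s2, rfl⟩⟩
  · intro hno
    obtain ⟨⟨b, b1, b2, b3⟩, ⟨c, c1, c2, c3⟩⟩ := t3 hno
    refine ⟨⟨b, b1, ?_⟩, ⟨c, c1, ?_⟩⟩
    · intro he
      change fT π ρb (ball S n) hρ (b • φ z0) = fT π ρb (ball S n) hρ (φ z0) at he
      obtain ⟨q, hq⟩ := hsupp _ b3
      have h5 : fT π ρb (ball S n) hρ (π (FrT.sg σ) • b • φ z0) =
          fT π ρb (ball S n) hρ (π (FrT.sg σ) • φ z0) := by
        exact (fT_smul π ρb hρ _ (π (FrT.sg σ)) (b • φ z0)).trans ((congrArg _ he).trans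
          (fT_smul π ρb hρ _ (π (FrT.sg σ)) (φ z0)).symm)
      rw [← hq, ← ez, hf, hf] at h5
      have h6 : q = z1 := Subtype.ext h5
      apply b2
      have h7 : π (FrT.sg σ) • b • φ z0 = π (FrT.sg σ) • φ z0 := by rw [← hq, h6, ez]
      exact smul_left_cancel _ h7
    · intro he
      change fT π ρb (ball S n) hρ (c • φ y0) = fT π ρb (ball S n) hρ (φ y0) at he
      obtain ⟨q, hq⟩ := hsupp _ c3
      rw [← hq, hf, hf] at he
      have h6 : q = y0 := Subtype.ext he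
      apply c2
      rw [← hq, h6]

end

end Pool.Agent.FrR
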