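import Pool.Agent.Lib.MP_305fdd_al.Fr.R.Stm

/-!
# MP_305fdd_al, F_r, Theorem R: the labels of the loops of an integral system are finitely generated
-/

set_option autoImplicit false

namespace Pool.Agent.FrR

open Pool.Agent.FrZ

/-- the last point of a nonempty valid word is in the domain of a step -/
private theorem fg_mem {J I : Type} (X : Sys J I ℤ) :
    ∀ (γ : List (J × Bool)) (s : ℤ × Bool), γ ≠ [] → X.Valid (X.OK 0) γ s →
      ∃ σ : J × Bool, X.dl σ ≤ (X.run γ s).1 ∧ (X.run γ s).1 ≤ X.dl σ + X.l σ.1 := by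
  intro γ
  induction γ with
  | nil => intro s h; exact absurd rfl h
  | cons σ γ ih =>
    intro s _ hv
    rcases γ with _ | ⟨τ, γ⟩
    · refine ⟨inv σ, ?_⟩
      have h := (X.OK_mv 0 σ s).2 hv.1
      have h' : X.OK 0 (inv σ) ((X.mv σ s).1, (X.mv σ s).2) := h
      rw [X.OK_iff] at h'
      simp only [Sys.run]
      constructor <;> linarith [h'.1, h'.2]
    · exact ih (X.mv σ s) (by simp) hv.2

theorem p_fg : S_fg := by
  classical
  intro J I _ _ X hX e
  haveI : Fintype J := Fintype.ofFinite J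
  -- reachable points
  set V : Set ℤ := {x | ∃ γ, X.Valid (X.OK 0) γ (e, true) ∧ (X.run γ (e, true)).1 = x} with hV
  have hfin : V.Finite := by
    refine Set.Finite.subset (s := {e} ∪ ⋃ σ : J × Bool, Set.Icc (X.dl σ) (X.dl σ + X.l σ.1))
      (Set.Finite.union (Set.finite_singleton e) (Set.finite_iUnion fun σ => Set.finite_Icc _ _)) ?_
    rintro x ⟨γ, h1, h2⟩
    by_cases hγ : γ = []
    · subst hγ
      left
      simp only [Sys.run] at h2
      exact h2.symm
    · right
      obtain ⟨σ, h3, h4⟩ := fg_mem X γ (e, true) hγ h1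
      rw [h2] at h3 h4
      exact Set.mem_iUnion.2 ⟨σ, h3, h4⟩
  -- chosen words
  have hch : ∀ x : ℤ, ∃ p : List (J × Bool), (x ∈ V → X.Valid (X.OK 0) p (e, true) ∧
      (X.run p (e, true)).1 = x) ∧ (x = e → p = []) := by
    intro x
    by_cases hx : x = e
    · refine ⟨[], fun _ => ⟨trivial, ?_⟩, fun _ => rfl⟩
      rw [hx]; rfl
    · by_cases hxV : x ∈ V
      · obtain ⟨γ, h1, h2⟩ := hxV
        exact ⟨γ, fun _ => ⟨h1, h2⟩, fun h => absurd h hx⟩
      · exact ⟨[], fun h => absurd h hxV, fun _ => rfl⟩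
  choose p hp hpe using hch
  have heV : e ∈ V := ⟨[], trivial, rfl⟩
  -- steps stay in V
  have hstep : ∀ x ∈ V, ∀ (σ : J × Bool) (d : Bool), X.OK 0 σ (x, d) → X.mvx σ x ∈ V := by
    rintro x hx σ d hok
    obtain ⟨h1, h2⟩ := hp x hx
    refine ⟨p x ++ [σ], ?_, ?_⟩
    · rw [X.valid_append]
      refine ⟨h1, ?_, trivial⟩
      have : X.run (p x) (e, true) = (x, (X.run (p x) (e, true)).2) := Prod.ext h2 rfl
      rw [this]
      exact X.OK_dir _ _ _ _ _ hok
    · rw [X.run_append]
      simp only [Sys.run, Sys.mv]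
      rw [h2]
  set g : ℤ × (J × Bool) → FreeGroup J := fun q =>
    (lab (p (X.mvx q.2 q.1)))⁻¹ * sg q.2 * lab (p q.1) with hg
  refine ⟨((hfin.toFinset ×ˢ (Finset.univ : Finset (J × Bool))).filter
    (fun q => X.OK 0 q.2 (q.1, true))).image g, ?_, ?_⟩
  · intro a ha
    rw [Finset.mem_image] at ha
    obtain ⟨⟨x, σ⟩, hq, rfl⟩ := ha
    rw [Finset.mem_filter, Finset.mem_product, Set.Finite.mem_toFinset] at hq
    obtain ⟨⟨hx, -⟩, hok⟩ := hq
    simp only at hx hok
    have hy := hstep x hx σ true hok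
    obtain ⟨h1, h2⟩ := hp x hx
    obtain ⟨h3, h4⟩ := hp _ hy
    have hs : X.run (p x) (e, true) = (x, (X.run (p x) (e, true)).2) := Prod.ext h2 rfl
    have hy' : X.run (p (X.mvx σ x)) (e, true)
        = (X.mvx σ x, (X.run (p (X.mvx σ x)) (e, true)).2) := Prod.ext h4 rfl
    have hrv := X.valid_rev (P := X.OK 0) (fun σ s h => (X.OK_mv 0 σ s).2 h) _ _ h3
    have hrr := X.run_rev (p (X.mvx σ x)) (e, true)
    rw [hy'] at hrv hrr
    refine ⟨p x ++ (σ :: rev (p (X.mvx σ x))), true, ?_, ?_, ?_⟩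
    · rw [X.valid_append]
      refine ⟨h1, ?_⟩
      rw [hs]
      refine ⟨X.OK_dir _ _ _ _ _ hok, ?_⟩
      exact X.valid_OK_dir _ _ _ _ _ hrv
    · rw [X.run_append, hs]
      simp only [Sys.run, Sys.mv]
      rw [X.run_fst _ _ _ ((X.run (p (X.mvx σ x)) (e, true)).2), hrr]
    · rw [lab_append]
      simp only [lab, lab_rev, hg]
  · have key : ∀ (γ : List (J × Bool)) (x : ℤ) (d : Bool), x ∈ V → X.Valid (X.OK 0) γ (x, d) →
        (lab (p (X.run γ (x, d)).1))⁻¹ * lab γ * lab (p x) ∈
          Subgroup.closure ((((hfin.toFinset ×ˢ (Finset.univ : Finset (J × Bool))).filter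
            (fun q => X.OK 0 q.2 (q.1, true))).image g : Finset (FreeGroup J)) :
              Set (FreeGroup J)) := by
      intro γ
      induction γ with
      | nil =>
        intro x d _ _
        simp only [Sys.run, lab, mul_one, inv_mul_cancel]
        exact Subgroup.one_mem _
      | cons σ γ ih =>
        intro x d hx hv
        have hy := hstep x hx σ d hv.1
        have h1 := ih (X.mvx σ x) (xor d (X.fl σ.1)) hy hv.2
        have h2 : g (x, σ) ∈ Subgroup.closure ((((hfin.toFinset ×ˢ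
            (Finset.univ : Finset (J × Bool))).filter
            (fun q => X.OK 0 q.2 (q.1, true))).image g : Finset (FreeGroup J)) :
              Set (FreeGroup J)) := by
          apply Subgroup.subset_closure
          rw [Finset.mem_coe, Finset.mem_image]
          refine ⟨(x, σ), ?_, rfl⟩
          rw [Finset.mem_filter, Finset.mem_product, Set.Finite.mem_toFinset]
          exact ⟨⟨hx, Finset.mem_univ _⟩, X.OK_dir _ _ _ _ _ hv.1⟩
        have h3 := Subgroup.mul_mem _ h1 h2
        have e1 : (lab (p (X.run (σ :: γ) (x, d)).1))⁻¹ * lab (σ :: γ) * lab (p x)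
            = (lab (p (X.run γ (X.mvx σ x, xor d (X.fl σ.1))).1))⁻¹ * lab γ *
              lab (p (X.mvx σ x)) * g (x, σ) := by
          simp only [hg, lab, Sys.run, Sys.mv]
          group
        rw [e1]
        exact h3
    intro γ d hv hr
    have h := key γ e d heV hv
    rw [hr, hpe e rfl] at h
    simpa [lab] using h

end Pool.Agent.FrR
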