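import Pool.Agent.Lib.MP_305fdd_al.Fr.R.Stm2

/-!
# MP_305fdd_al, F_r, Theorem R in Lean: piece `walk`
-/

set_option autoImplicit false

namespace Pool.Agent.FrR

open Pool.Agent.FrT

theorem p_walk : S_walk := by
  intro G V _ _ X hact u v huv hX hno w P _ hP
  have key : ∀ (a w : V) (P : X.Walk a w), Rch G X u v a v → (∃ e ∈ P.edges, e ∈ Orb G u v) →
      ∃ b ∈ Sst (u := u) (v := v) hact v, b • u ∈ P.support ∧ b • v ∈ P.support := by
    intro a w P
    induction P with
    | nil =>
      rintro _ ⟨e, he, _⟩
      simp at he
    | @cons a b c hab P ih =>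
      rintro hav ⟨e, he, heO⟩
      by_cases h : s(a, b) ∈ Orb G u v
      · obtain ⟨g, hg⟩ := h
        rw [Sym2.eq_iff] at hg
        rcases hg with ⟨h1, h2⟩ | ⟨h1, h2⟩
        · exfalso
          rw [h1] at hav
          exact hno g hav
        · refine ⟨g, ?_, ?_, ?_⟩
          · rw [mem_Sst, ← h1]
            exact hav
          · rw [← h2, SimpleGraph.Walk.support_cons]
            exact List.mem_cons_of_mem _ P.start_mem_support
          · rw [← h1]
            exact SimpleGraph.Walk.start_mem_support _
      · have hab' : Rch G X u v a b := Rch.adj hab h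
        rw [SimpleGraph.Walk.edges_cons, List.mem_cons] at he
        rcases he with he | he
        · rw [he] at heO
          exact absurd heO h
        · obtain ⟨g, hg, h1, h2⟩ := ih (hab'.symm.trans hav) ⟨e, he, heO⟩
          refine ⟨g, hg, ?_, ?_⟩
          · rw [SimpleGraph.Walk.support_cons]
            exact List.mem_cons_of_mem _ h1
          · rw [SimpleGraph.Walk.support_cons]
            exact List.mem_cons_of_mem _ h2
  exact key v w P (Rch.refl X u v v) hP

end Pool.Agent.FrR
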