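import Pool.Agent.Lib.MP_305fdd_al.Fr.R.SSmall
import Pool.Agent.Lib.MP_305fdd_al.Fr.T.BS

/-!
# MP_305fdd_al, F_r: the statement of Theorem R (relative version)

Input: a finitely presented group `G`, a field `L` finitely generated over `k`, a real valuation `x`
of `L` trivial on `k`, a representation `ρ : G → SL₂(L)` whose traces are in semi-good position
(`SG`) and unbounded, finitely many finitely generated abelian subgroups `E i` on which the traces
have nonnegative values.

Output: a quotient `G ⧸ N` of `G` by the normal closure of finitely many elements of `ker ρ`, acting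
on a tree `X` without inversions, an edge `(u, v)` whose stabiliser `SC` is finitely generated and has
commutative image under `ρ`, such that the one-edge splitting is nontrivial (`Sst u`, `Sst v` are not
the whole group), all `E i` fix vertices; a real valuation `x'` of `L/k` and an equivariant map `f`
from `X` to the real tree of `x'`, `f u ≠ f v`, and in the amalgam case elements `b` of the two vertex
groups which move `f` of the other end.  (`FrT.amalg`, `FrT.hnn` give the amalgam / HNN extension.)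
-/

set_option autoImplicit false

namespace Pool.Agent.FrR

open Matrix Pool.Agent.FrT

/-- THEOREM R -/
def S_R : Prop :=
  ∀ (k L G ι S₀ : Type) [Field k] [Field L] [Algebra k L] [Group G] [Finite ι] [Finite S₀]
    (π₀ : FreeGroup S₀ →* G) (R₀ : Finset (FreeGroup S₀)), Function.Surjective π₀ →
    π₀.ker = Subgroup.normalClosure (R₀ : Set (FreeGroup S₀)) →
    ∀ (A₀ : Finset L), IntermediateField.adjoin k (A₀ : Set L) = ⊤ →
    ∀ (x : RV L), F2Ch.Triv k x.v → ∀ (ρ : G →* SpecialLinearGroup (Fin 2) L),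
    SG x ρ.range → (∃ g : G, tr (ρ g) ≠ 0 ∧ x.v (tr (ρ g)) < 0) →
    ∀ (E : ι → Subgroup G), (∀ i, (E i).FG) → (∀ i, ∀ a ∈ E i, ∀ b ∈ E i, a * b = b * a) →
    (∀ i, ∀ a ∈ E i, x.Ge 0 (tr (ρ a))) →
    ∃ (N : Subgroup G) (_ : N.Normal) (W : Finset G), N = Subgroup.normalClosure (W : Set G) ∧
      N ≤ ρ.ker ∧
    ∃ (V : Type) (_ : MulAction (G ⧸ N) V) (X : SimpleGraph V)
      (hact : ∀ (g : G ⧸ N) (p q : V), X.Adj p q → X.Adj (g • p) (g • q)) (u v : V),
      X.IsTree ∧ X.Adj u v ∧ (∀ g : G ⧸ N, ¬ (g • u = v ∧ g • v = u)) ∧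
      (SC (G ⧸ N) u v).FG ∧
      (∀ a b : G, (QuotientGroup.mk a : G ⧸ N) ∈ SC (G ⧸ N) u v →
        (QuotientGroup.mk b : G ⧸ N) ∈ SC (G ⧸ N) u v → ρ a * ρ b = ρ b * ρ a) ∧
      Sst (u := u) (v := v) hact u ≠ ⊤ ∧ Sst (u := u) (v := v) hact v ≠ ⊤ ∧
      (∀ i, ∃ p : V, ∀ a ∈ E i, (QuotientGroup.mk a : G ⧸ N) • p = p) ∧
      ∃ (x' : RV L) (f : V → Tr x'), F2Ch.Triv k x'.v ∧
        (∀ (g : G) (p : V), f ((QuotientGroup.mk g : G ⧸ N) • p) = ρ g • f p) ∧ f u ≠ f v ∧
        ((∀ g : G ⧸ N, ¬ Rch (G ⧸ N) X u v (g • u) v) →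
          (∃ b ∈ Sst (u := u) (v := v) hact u, f (b • v) ≠ f v) ∧
          (∃ b ∈ Sst (u := u) (v := v) hact v, f (b • u) ≠ f u))

end Pool.Agent.FrR
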