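import Pool.Agent.Lib.MP_305fdd_al.Fr.R.Defs

/-!
# MP_305fdd_al, F_r, Theorem R in Lean: small independent pieces (statements)
-/

set_option autoImplicit false

namespace Pool.Agent.FrR

open Pool.Agent.FrZ

/-- (ax) the midpoint of `[p, g p]` is on the axis if `d (p, g² p) > d (p, g p)` -/
def S_ax : Prop :=
  ∀ (Γ T : Type) [Group Γ] [MetricSpace T] [MulAction Γ T], IsRT T →
    (∀ (g : Γ) (p q : T), dist (g • p) (g • q) = dist p q) →
    ∀ (g : Γ) (p : T), dist p (g • p) < dist p (g • g • p) →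
      ∃ o : T, 0 < dist o (g • o) ∧ dist o (g • g • o) = 2 * dist o (g • o)

/-- (gens) `g₀ᴺ s g₀ᴺ` has the base point on its axis for large `N`.  Proof: `x_m = g₀⁻ᵐ o` and
`y_n = s g₀ⁿ o` are rays.  If they are not asymptotic then `d (x_m, y_n)` grows by `ℓ` in `m` and in
`n` for large `m, n`, and the claim follows from the local criterion for geodesics.  If they are
asymptotic then `z = g₀ s g₀ s⁻¹` fixes all far points of the ray, so `z` and `g₀ z g₀⁻¹` fix an arc,
so they commute, so `z` commutes with `g₀` (csa; also if `z = 1`), so `s g₀ s⁻¹` commutes with `g₀`,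
so `s` commutes with `g₀` (csa), so `z = g₀²` fixes no point: contradiction. -/
def S_gens : Prop :=
  ∀ (Γ T : Type) [Group Γ] [MetricSpace T] [MulAction Γ T], IsRT T → Small Γ T →
    ∀ (g0 : Γ) (o : T), 0 < dist o (g0 • o) → dist o (g0 • g0 • o) = 2 * dist o (g0 • o) →
      ∀ s : Γ, ∃ N0 : ℕ, ∀ N : ℕ, N0 ≤ N →
        0 < dist o ((g0 ^ N * s * g0 ^ N) • o) ∧
        dist o ((g0 ^ N * s * g0 ^ N) • (g0 ^ N * s * g0 ^ N) • o) =
          2 * dist o ((g0 ^ N * s * g0 ^ N) • o)

/-- (fp) finite presentability does not depend on the generators -/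
def S_fp : Prop :=
  ∀ (G S₀ S : Type) [Group G] [Finite S₀] [Finite S] (π₀ : FreeGroup S₀ →* G)
    (R₀ : Finset (FreeGroup S₀)), Function.Surjective π₀ →
    π₀.ker = Subgroup.normalClosure (R₀ : Set (FreeGroup S₀)) →
    ∀ (π : FreeGroup S →* G), Function.Surjective π →
      ∃ R : Finset (FreeGroup S), π.ker = Subgroup.normalClosure (R : Set (FreeGroup S))

/-- (serre) finitely many commuting elliptic automorphisms of a tree have a common fixed vertex -/
def S_serre : Prop :=
  ∀ (G V : Type) [Group G] [MulAction G V] (X : SimpleGraph V) (col : V → Bool), X.IsTree →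
    (∀ (g : G) (x y : V), X.Adj x y → X.Adj (g • x) (g • y)) →
    (∀ (g : G) (x : V), col (g • x) = col x) → (∀ x y, X.Adj x y → col x ≠ col y) →
    ∀ (n : ℕ) (w : Fin n → G), (∀ i j, w i * w j = w j * w i) →
      (∀ i, ∃ x : V, w i • x = x) → ∃ x : V, ∀ i, w i • x = x

/-- (fg) the labels of the loops at a point of an integral system are finitely generated -/
def S_fg : Prop :=
  ∀ (J I : Type) [Finite J] [Finite I] (X : Sys J I ℤ), X.Good → ∀ e : ℤ,
    ∃ A : Finset (FreeGroup J),
      (∀ a ∈ A, ∃ γ d, X.Valid (X.OK 0) γ (e, d) ∧ (X.run γ (e, d)).1 = e ∧ lab γ = a) ∧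
      ∀ γ d, X.Valid (X.OK 0) γ (e, d) → (X.run γ (e, d)).1 = e →
        lab γ ∈ Subgroup.closure (A : Set (FreeGroup J))

end Pool.Agent.FrR
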