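import Pool.Agent.Lib.MP_305fdd_al.Fr.R.SSmall
import Pool.Agent.Lib.MP_305fdd_al.Fr.R.Ball

/-!
# Length functions: elliptic and hyperbolic elements, transfer to a nearby valuation, balls of words
-/

set_option autoImplicit false

namespace Pool.Agent.FrR

open Matrix Pool.Agent.FrZ

section ball
variable (S : Type) [Finite S]

/-- the words of length at most `n` -/
noncomputable def ball (n : ℕ) : Finset (FreeGroup S) :=
  (((List.finite_length_le (S × Bool) n).image (fun l => FreeGroup.mk l)).toFinset)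

variable {S}

theorem mem_ball {n : ℕ} {w : FreeGroup S} :
    w ∈ ball S n ↔ ∃ l : List (S × Bool), l.length ≤ n ∧ FreeGroup.mk l = w := by
  unfold ball
  rw [Set.Finite.mem_toFinset]
  rfl

theorem ball_mono {m n : ℕ} (h : m ≤ n) {w : FreeGroup S} (hw : w ∈ ball S m) : w ∈ ball S n := by
  rw [mem_ball] at *
  obtain ⟨l, h1, h2⟩ := hw
  exact ⟨l, h1.trans h, h2⟩

theorem one_mem_ball (n : ℕ) : (1 : FreeGroup S) ∈ ball S n :=
  mem_ball.2 ⟨[], by simp, rfl⟩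

theorem mul_mem_ball {m n : ℕ} {u w : FreeGroup S} (hu : u ∈ ball S m) (hw : w ∈ ball S n) :
    u * w ∈ ball S (m + n) := by
  rw [mem_ball] at *
  obtain ⟨l, h1, h2⟩ := hu
  obtain ⟨l', h3, h4⟩ := hw
  refine ⟨l ++ l', by rw [List.length_append]; omega, ?_⟩
  rw [← h2, ← h4, FreeGroup.mul_mk]

theorem inv_mem_ball {n : ℕ} {w : FreeGroup S} (hw : w ∈ ball S n) : w⁻¹ ∈ ball S n := by
  rw [mem_ball] at *
  obtain ⟨l, h1, h2⟩ := hw
  refine ⟨FreeGroup.invRev l, by rw [FreeGroup.invRev_length]; exact h1, ?_⟩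
  rw [← h2, FreeGroup.inv_mk]

theorem of_mem_ball (s : S) : FreeGroup.of s ∈ ball S 1 :=
  mem_ball.2 ⟨[(s, true)], by simp, rfl⟩

theorem el_mem_ball (c : Option S) : el c ∈ ball S 1 := by
  cases c with
  | none => exact one_mem_ball 1
  | some s => exact of_mem_ball s

theorem exists_ball (w : FreeGroup S) : ∃ n, w ∈ ball S n := by
  obtain ⟨l, rfl⟩ := Quot.exists_rep w
  exact ⟨l.length, mem_ball.2 ⟨l, le_rfl, rfl⟩⟩

theorem exists_ball_finset (A : Finset (FreeGroup S)) : ∃ n, ∀ w ∈ A, w ∈ ball S n := by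
  classical
  induction A using Finset.induction_on with
  | empty => exact ⟨0, by simp⟩
  | insert a A _ ih =>
    obtain ⟨n, hn⟩ := ih
    obtain ⟨m, hm⟩ := exists_ball a
    refine ⟨max m n, ?_⟩
    intro w hw
    rcases Finset.mem_insert.1 hw with rfl | hw
    · exact ball_mono (le_max_left _ _) hm
    · exact ball_mono (le_max_right _ _) (hn w hw)

end ball

section quad
variable {K : Type} [Field K] {V : RV K}

/-- Cayley-Hamilton for wedge products -/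
theorem wd_sq (g : SpecialLinearGroup (Fin 2) K) (p : Pre V) (i j : Fin 2) :
    Pre.wd p (g • g • p) i j = tr g * Pre.wd p (g • p) i j - Pre.wd p p i j := by
  have h := det_one g
  unfold Pre.wd tr
  simp only [Pre.smul_g, mul_app]
  linear_combination (-(p.g.1 0 i * p.g.1 1 j - p.g.1 1 i * p.g.1 0 j)) * h

theorem dist_sq_le {g : SpecialLinearGroup (Fin 2) K} (h : V.Ge 0 (tr g)) (o : Tr V) :
    dist o (g • g • o) ≤ dist o (g • o) := by
  obtain ⟨p, rfl⟩ := cls_surj o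
  rw [smul_cls, smul_cls, dist_cls, dist_cls, Pre.dd_le_iff]
  intro i j
  rw [wd_sq]
  have h1 := Pre.ge_wd p (g • p) i j
  have h2 := Pre.ge_wd p p i j
  rw [Pre.dd_self] at h2
  refine RV.Ge.sub ((h.mul h1).mono ?_) (h2.mono ?_)
  · simp only [Pre.smul_t]; linarith
  · simp only [Pre.smul_t]
    have := Pre.dd_nonneg p (g • p)
    linarith

theorem dist_sq_lt {g : SpecialLinearGroup (Fin 2) K} (h0 : tr g ≠ 0) (h : V.v (tr g) < 0)
    (o : Tr V) : dist o (g • o) < dist o (g • g • o) := by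
  obtain ⟨p, rfl⟩ := cls_surj o
  rw [smul_cls, smul_cls, dist_cls, dist_cls]
  obtain ⟨i, j, h1, h2⟩ := Pre.attain p (g • p)
  have h3 := Pre.ge_wd p (g • g • p) i j
  rw [wd_sq] at h3
  have h4 := Pre.ge_wd p p i j
  rw [Pre.dd_self] at h4
  simp only [Pre.smul_t] at h2 h3 h4
  by_contra hcon
  push Not at hcon
  have h5 : V.Ge (min (wt p.t i + wt p.t j - Pre.dd p (g • g • p)) (wt p.t i + wt p.t j - 0))
      (tr g * Pre.wd p (g • p) i j) := by
    have := (h3.mono (min_le_left _ (wt p.t i + wt p.t j - 0))).add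
      (h4.mono (min_le_right (wt p.t i + wt p.t j - Pre.dd p (g • g • p)) _))
    rwa [sub_add_cancel] at this
  rw [V.ge_iff (mul_ne_zero h0 h1), V.v_mul h0 h1] at h5
  have h6 := Pre.dd_nonneg p (g • p)
  rcases min_choice (wt p.t i + wt p.t j - Pre.dd p (g • g • p)) (wt p.t i + wt p.t j - 0)
    with h7 | h7
  · rw [h7] at h5
    linarith
  · rw [h7] at h5
    linarith

end quad

section transfer
variable {K : Type} [Field K]

theorem wt_map (L : ℝ →+ ℚ) (t : ℝ) (i : Fin 2) : wt ((L t : ℚ) : ℝ) i = ((L (wt t i) : ℚ) : ℝ) := by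
  fin_cases i
  · rfl
  · show -((L t : ℚ) : ℝ) = ((L (-t) : ℚ) : ℝ)
    rw [map_neg]; push_cast; rfl

/-- Transfer of distances to a nearby valuation. -/
theorem dd_transfer {V V' : RV K} (L : ℝ →+ ℚ) (g h : SpecialLinearGroup (Fin 2) K) (s t : ℝ)
    (hv : ∀ i j, Pre.wd (⟨g, s⟩ : Pre V) ⟨h, t⟩ i j ≠ 0 →
      V'.v (Pre.wd (⟨g, s⟩ : Pre V) ⟨h, t⟩ i j) =
        ((L (V.v (Pre.wd (⟨g, s⟩ : Pre V) ⟨h, t⟩ i j)) : ℚ) : ℝ))
    (hL : ∀ i j, 0 ≤ L (Pre.dd (⟨g, s⟩ : Pre V) ⟨h, t⟩ -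
      (wt s i + wt t j - V.v (Pre.wd (⟨g, s⟩ : Pre V) ⟨h, t⟩ i j))) ∨
      Pre.wd (⟨g, s⟩ : Pre V) ⟨h, t⟩ i j = 0) :
    Pre.dd (⟨g, ((L s : ℚ) : ℝ)⟩ : Pre V') ⟨h, ((L t : ℚ) : ℝ)⟩ =
      ((L (Pre.dd (⟨g, s⟩ : Pre V) ⟨h, t⟩) : ℚ) : ℝ) := by
  have hwd : ∀ i j, Pre.wd (⟨g, ((L s : ℚ) : ℝ)⟩ : Pre V') ⟨h, ((L t : ℚ) : ℝ)⟩ i j =
      Pre.wd (⟨g, s⟩ : Pre V) ⟨h, t⟩ i j := fun i j => rfl
  apply le_antisymm
  · rw [Pre.dd_le_iff]
    intro i j
    rw [hwd]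
    by_cases h0 : Pre.wd (⟨g, s⟩ : Pre V) ⟨h, t⟩ i j = 0
    · exact Or.inl h0
    · right
      have h1 := (hL i j).resolve_right h0
      rw [hv i j h0, wt_map, wt_map]
      rw [map_sub, map_sub, map_add] at h1
      have h2 : (0 : ℝ) ≤ ((L (Pre.dd (⟨g, s⟩ : Pre V) ⟨h, t⟩) -
        (L (wt s i) + L (wt t j) - L (V.v (Pre.wd (⟨g, s⟩ : Pre V) ⟨h, t⟩ i j))) : ℚ) : ℝ) := by
        exact_mod_cast h1
      push_cast at h2
      linarith
  · obtain ⟨i, j, h0, h1⟩ := Pre.attain (⟨g, s⟩ : Pre V) ⟨h, t⟩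
    have h2 := Pre.ge_wd (⟨g, ((L s : ℚ) : ℝ)⟩ : Pre V') ⟨h, ((L t : ℚ) : ℝ)⟩ i j
    rw [hwd] at h2
    have h3 := h2.resolve_left h0
    rw [hv i j h0, wt_map, wt_map] at h3
    have h4 : L (Pre.dd (⟨g, s⟩ : Pre V) ⟨h, t⟩) = L (wt s i) + L (wt t j) -
        L (V.v (Pre.wd (⟨g, s⟩ : Pre V) ⟨h, t⟩ i j)) := by
      rw [h1, map_sub, map_add]
    rw [h4]
    push_cast
    linarith

end transfer

end Pool.Agent.FrR
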