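import Pool.Agent.Lib.MP_305fdd_al.Fr.R.Loops2
import Pool.Agent.Lib.MP_305fdd_al.Fr.R.Len

/-!
# Visible words: relators, elliptic words, moving an edge into `[o, s o]`
-/

set_option autoImplicit false

namespace Pool.Agent.FrR

section lists
variable {S : Type}

theorem lab_reverse (l : List (S × Bool)) : FrT.lab l.reverse = FreeGroup.mk l := by
  induction l with
  | nil => rfl
  | cons σ l ih =>
    rw [List.reverse_cons, FrT.lab_append, ih]
    obtain ⟨s, b⟩ := σ
    have e1 : FrT.lab [(s, b)] = FreeGroup.mk [(s, b)] := by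
      cases b
      · show 1 * (FreeGroup.of s)⁻¹ = _
        rw [one_mul]; rfl
      · show 1 * FreeGroup.of s = _
        rw [one_mul]; rfl
    rw [e1, FreeGroup.mul_mk]
    rfl

theorem mk_cons (σ : S × Bool) (l : List (S × Bool)) :
    FreeGroup.mk (σ :: l) = FrT.sg σ * FreeGroup.mk l := by
  obtain ⟨s, b⟩ := σ
  have e1 : FrT.sg (s, b) = FreeGroup.mk [(s, b)] := by
    cases b <;> rfl
  rw [e1, FreeGroup.mul_mk]
  rfl

end lists

section
variable {S Γ T : Type} [Finite S] [Group Γ] [MetricSpace T] [MulAction Γ T]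
variable {ρ : FreeGroup S →* Γ} {o : T}

omit [Finite S] in
theorem stp_of {P : Finset (FreeGroup S)} (σ : S × Bool) (y y' : VK P ρ o)
    (h : y'.1 = ρ (FrT.sg σ) • y.1) : (hpa P ρ o).Stp σ y y' := by
  obtain ⟨s, b⟩ := σ
  cases b
  · have h3 : y'.1 = ρ (FreeGroup.of s)⁻¹ • y.1 := h
    have h4 : ρ (FreeGroup.of s) • y'.1 = y.1 := by
      rw [h3, map_inv, smul_inv_smul]
    have h5 : y' ∈ (hpa P ρ o).dom s := by
      show KV P ρ o (ρ (FreeGroup.of s) • y'.1)
      rw [h4]; exact y.2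
    show y' ∈ (hpa P ρ o).dom s ∧ y = (hpa P ρ o).act s y'
    exact ⟨h5, Subtype.ext (by rw [hpa_act h5, h4])⟩
  · have h3 : y'.1 = ρ (FreeGroup.of s) • y.1 := h
    have h5 : y ∈ (hpa P ρ o).dom s := by
      show KV P ρ o (ρ (FreeGroup.of s) • y.1)
      rw [← h3]; exact y'.2
    show y ∈ (hpa P ρ o).dom s ∧ y' = (hpa P ρ o).act s y
    exact ⟨h5, Subtype.ext (by rw [hpa_act h5, h3])⟩

omit [Finite S] in
/-- visible words -/
theorem path_vis {P : Finset (FreeGroup S)} (l : List (S × Bool)) (z : VK P ρ o)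
    (h : ∀ l1 l2, l = l1 ++ l2 → KV P ρ o (ρ (FreeGroup.mk l2) • z.1)) :
    ∃ z' : VK P ρ o, z'.1 = ρ (FreeGroup.mk l) • z.1 ∧ (hpa P ρ o).Path l.reverse z z' := by
  induction l with
  | nil =>
    refine ⟨z, ?_, rfl⟩
    have : FreeGroup.mk ([] : List (S × Bool)) = 1 := rfl
    rw [this, map_one, one_smul]
  | cons σ l ih =>
    obtain ⟨z', h1, h2⟩ := ih (fun l1 l2 hl => h (σ :: l1) l2 (by rw [hl]; rfl))
    have h3 := h [] (σ :: l) rfl
    refine ⟨⟨_, h3⟩, rfl, ?_⟩
    rw [List.reverse_cons]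
    refine ((hpa P ρ o).path_append _ _ _ _).2 ⟨z', h2, ⟨_, ?_, rfl⟩⟩
    apply stp_of
    show ρ (FreeGroup.mk (σ :: l)) • z.1 = _
    rw [mk_cons, map_mul, mul_smul, h1]

variable (hT : IsRT T) (hiso : ∀ (g : Γ) (p q : T), dist (g • p) (g • q) = dist p q) {n : ℕ}

/-- relators are visible -/
theorem rel_vis (hP : HP (ball S n) (len ρ o)) {r : FreeGroup S} (hr : r ∈ ball S n)
    (hr1 : ρ r = 1) : ∃ (γ : List (S × Bool)) (p : VK (ball S n) ρ o),
      (hpa (ball S n) ρ o).Path γ p p ∧ FrT.lab γ = r := by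
  obtain ⟨l, h1, h2⟩ := mem_ball.1 hr
  have hz : KV (ball S n) ρ o o := KV.base hP
  obtain ⟨z', h3, h4⟩ := path_vis (P := ball S n) l ⟨o, hz⟩ (by
    intro l1 l2 hl
    refine KV.end' hP (mem_ball.2 ⟨l2, ?_, rfl⟩)
    have := congrArg List.length hl
    rw [List.length_append] at this
    omega)
  have h5 : z' = ⟨o, hz⟩ := by
    apply Subtype.ext
    rw [h3, h2, hr1, one_smul]
  rw [h5] at h4
  exact ⟨l.reverse, _, h4, by rw [lab_reverse, h2]⟩

include hT hiso in
/-- A word maps a vertex of `[o, w o]` along a visible path. -/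
theorem seg_vis (hP : HP (ball S n) (len ρ o)) {m : ℕ} (hm : 2 * m ≤ n) {w : FreeGroup S}
    (l : List (S × Bool)) (hl : l.length ≤ m) (hw : FreeGroup.mk l = w) (z : VK (ball S n) ρ o)
    (hz : Bt o z.1 (ρ w • o)) :
    ∃ z' : VK (ball S n) ρ o, z'.1 = ρ w • z.1 ∧ (hpa (ball S n) ρ o).Path l.reverse z z' := by
  have h := path_vis (P := ball S n) l z (by
    intro l1 l2 h12
    have hlen := congrArg List.length h12
    rw [List.length_append] at hlen
    have k1 : FreeGroup.mk l2 ∈ ball S m := mem_ball.2 ⟨l2, by omega, rfl⟩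
    have k2 : w ∈ ball S m := mem_ball.2 ⟨l, hl, hw⟩
    have k3 : FreeGroup.mk l2 * w ∈ ball S n := ball_mono (by omega) (mul_mem_ball k1 k2)
    have a1 : KV (ball S n) ρ o (ρ (FreeGroup.mk l2) • o) :=
      KV.end' hP (ball_mono (by omega) k1)
    have a2 : KV (ball S n) ρ o (ρ (FreeGroup.mk l2 * w) • o) := KV.end' hP k3
    obtain ⟨k, hk⟩ := z.2.2
    refine KV.between hT hiso hP a1 a2 (m := k) ?_ ?_
    · rw [map_mul, mul_smul]
      exact hz.smul hiso _
    · rw [hiso, hk])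
  rw [hw] at h
  exact h

include hT hiso in
/-- the midpoint of `[o, w o]` is fixed by an elliptic word -/
theorem mid_fix {g : Γ} (h : dist o (g • g • o) ≤ dist o (g • o)) {z : T}
    (hz : Bt o z (g • o)) (hd : dist o z = dist o (g • o) / 2) : g • z = z := by
  have h1 : Bt (g • o) (g • z) (g • g • o) := hz.smul hiso g
  have h2 : dist (g • o) (g • z) = dist o (g • o) / 2 := by rw [hiso, hd]
  have h3 := proj hT hz (g • z)
  have h4 := proj hT h1 o
  unfold Bt at hz
  have e1 : dist (g • z) (g • g • o) = dist z (g • o) := hiso g _ _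
  rw [e1, h2] at h4
  -- dist o (g z) ≤ D / 2
  have h6 : dist o (g • z) ≤ dist o (g • o) / 2 := by
    rw [h4]
    apply max_le <;> linarith
  have h7 : dist (g • z) z = 0 := by
    apply le_antisymm _ dist_nonneg
    rw [h3, dist_comm (g • z) o, dist_comm (g • z) (g • o), h2]
    apply max_le <;> linarith
  exact dist_eq_zero.1 h7

end

end Pool.Agent.FrR
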