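import Pool.Agent.Lib.MP_305fdd_al.Fr.R.Pkg
import Pool.Agent.Lib.MP_305fdd_al.Fr.R.Vis
import Pool.Agent.Lib.MP_305fdd_al.Fr.R.SSmall2
import Pool.Agent.Lib.MP_305fdd_al.Fr.R.Stm

/-!
# Transfer to a nearby rational valuation: all data at once; elliptic subgroups

The data `A1, F1, E1` are fixed before `L` and `x'`.
-/

set_option autoImplicit false

namespace Pool.Agent.FrR

open Matrix Pool.Agent.FrZ

section defs
variable {S : Type} [Finite S]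

/-- `ℓ'` is a good copy of `ℓ` -/
structure Trn (N n : ℕ) (ℓ ℓ' lo : FreeGroup S → ℝ) (L : ℝ →+ ℚ) : Prop where
  im : ∀ w ∈ ball S N, ℓ' w = ((L (ℓ w) : ℚ) : ℝ)
  le : ∀ u ∈ ball S N, ∀ w ∈ ball S N, ℓ u ≤ ℓ w → ℓ' u ≤ ℓ' w
  lt : ∀ u ∈ ball S N, ∀ w ∈ ball S N, ℓ u < ℓ w → ℓ' u < ℓ' w
  four : ∀ w ∈ ball S N, ∃ m : ℤ, ℓ' w = 4 * m
  cp : Cp (ball S n) ℓ ℓ'
  hp : HP (ball S n) ℓ'
  tp : Tp L (bsys (ball S n) ℓ ℓ lo) ((bsys (ball S n) ℓ ℓ lo).map (Lz L))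
  toR : toR ((bsys (ball S n) ℓ ℓ lo).map (Lz L)) =
    bsys (ball S n) ℓ ℓ' (fun u => ((L (lo u) : ℚ) : ℝ))

end defs

section transfer
variable {K S : Type} [Field K] [Finite S] (V : RV K)
  (ρ : FreeGroup S →* SpecialLinearGroup (Fin 2) K) (k0 : SpecialLinearGroup (Fin 2) K) (τ : ℝ)

/-- TRANSFER -/
theorem transfer {N n : ℕ} (hn : 1 ≤ n) (hN : 2 * n + 1 ≤ N) (lo : FreeGroup S → ℝ) :
    ∃ (A1 : Finset K) (F1 E2 : Finset ℝ), (∀ f ∈ F1, 0 < f) ∧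
      ∀ (L : ℝ →+ ℚ) (V' : RV K), (∀ f ∈ F1, 0 < L f) → (∀ e ∈ E2, e ∈ Lam L) →
        (∀ a ∈ A1, V'.v a = ((L (V.v a) : ℚ) : ℝ)) →
        Trn N n (len ρ (bo V k0 τ)) (len ρ (bo V' k0 ((L τ : ℚ) : ℝ))) lo L := by
  classical
  obtain ⟨A, Q, hAQ⟩ := len_transfer V ρ k0 τ N
  set ℓ := len ρ (bo V k0 τ) with hℓ
  set Q2 : Finset ℝ := (ball S N ×ˢ ball S N).image (fun x => ℓ x.2 - ℓ x.1) with hQ2
  set E3 : Finset ℝ := (ball S N).image (fun x => ℓ x / 2) with hE3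
  refine ⟨A, sgF (Q ∪ Q1 (ball S n) ℓ ∪ Q2), E1 (ball S n) ℓ lo ∪ E3, sgF_pos _, ?_⟩
  intro L V' hF hE hA
  have hSg : ∀ q ∈ Q ∪ Q1 (ball S n) ℓ ∪ Q2, Sg L q := fun q hq => sg_of_sgF hF hq
  have him := hAQ L V' hA (fun q hq => hSg q (by simp [hq]))
  have hQ1 : ∀ q ∈ Q1 (ball S n) ℓ, Sg L q := fun q hq => hSg q (by simp [hq])
  have hE1 : ∀ x ∈ E1 (ball S n) ℓ lo, x ∈ Lam L := fun x hx => hE x (by simp [hx])
  have hI : Im (ball S n) ℓ (len ρ (bo V' k0 ((L τ : ℚ) : ℝ))) L :=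
    im_ball (fun w hw => him w (ball_mono hN hw))
  have hq2 : ∀ u ∈ ball S N, ∀ w ∈ ball S N, Sg L (ℓ w - ℓ u) := fun u hu w hw =>
    hSg _ (Finset.mem_union_right _ (Finset.mem_image.2 ⟨(u, w), by simp [hu, hw], rfl⟩))
  refine ⟨him, ?_, ?_, ?_, pkg_Cp hI hQ1, ?_, pkg_Tp hE1, pkg_toR hI hQ1 hE1⟩
  · intro u hu w hw h
    have h1 := (hq2 u hu w hw).nonneg (by linarith)
    rw [map_sub] at h1
    rw [him u hu, him w hw]
    exact_mod_cast (by linarith : L (ℓ u) ≤ L (ℓ w))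
  · intro u hu w hw h
    have h1 := (hq2 u hu w hw).1.1 (by linarith)
    rw [map_sub] at h1
    rw [him u hu, him w hw]
    exact_mod_cast (by linarith : L (ℓ u) < L (ℓ w))
  · intro w hw
    obtain ⟨m, hm⟩ := hE (ℓ w / 2) (Finset.mem_union_right _ (Finset.mem_image.2 ⟨w, hw, rfl⟩))
    refine ⟨m, ?_⟩
    rw [L_half] at hm
    have h4 : L (ℓ w) = 4 * m := by linarith
    rw [him w hw, h4]
    push_cast
    rfl
  · exact pkg_HP hI hE1 (one_mem_ball n) (fun s => ball_mono hn (of_mem_ball s))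
      (fun s => ball_mono hn (inv_mem_ball (of_mem_ball s)))

theorem bo_bp : bo V 1 0 = bp V := rfl

/-- TRANSFER at the standard base point -/
theorem transfer_bp {N n : ℕ} (hn : 1 ≤ n) (hN : 2 * n + 1 ≤ N) (lo : FreeGroup S → ℝ) :
    ∃ (A1 : Finset K) (F1 E2 : Finset ℝ), (∀ f ∈ F1, 0 < f) ∧
      ∀ (L : ℝ →+ ℚ) (V' : RV K), (∀ f ∈ F1, 0 < L f) → (∀ e ∈ E2, e ∈ Lam L) →
        (∀ a ∈ A1, V'.v a = ((L (V.v a) : ℚ) : ℝ)) →
        Trn N n (len ρ (bp V)) (len ρ (bp V')) lo L := by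
  obtain ⟨A, F, E, hF, h⟩ := transfer V ρ 1 0 hn hN lo
  refine ⟨A, F, E, hF, fun L V' h1 h2 h3 => ?_⟩
  have := h L V' h1 h2 h3
  rw [map_zero, Rat.cast_zero, bo_bp, bo_bp] at this
  exact this

end transfer

section elliptic
variable {K S : Type} [Field K] [Finite S] {V V' : RV K}
  {ρ : FreeGroup S →* SpecialLinearGroup (Fin 2) K} {o : Tr V} {o' : Tr V'}
  {N n : ℕ} {lo : FreeGroup S → ℝ} {L : ℝ →+ ℚ}

/-- an elliptic word fixes a vertex of the hull along a path -/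
theorem Trn.ell (hT : Trn N n (len ρ o) (len ρ o') lo L) {m : ℕ} (hm : 2 * m ≤ n)
    (hN : n ≤ N) {w : FreeGroup S} (hw : w ∈ ball S m) (hw0 : V.Ge 0 (tr (ρ w))) :
    ∃ (γ : List (S × Bool)) (z : VK (ball S n) ρ o'), (hpa (ball S n) ρ o').Path γ z z ∧
      FrT.lab γ = w := by
  have hn : m ≤ n := by omega
  have h1 : len ρ o (w * w) ≤ len ρ o w := by
    unfold len
    rw [map_mul, mul_smul]
    exact dist_sq_le hw0 o
  have hww : w * w ∈ ball S N := ball_mono (by omega) (mul_mem_ball hw hw)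
  have h2 := hT.le _ hww _ (ball_mono (hn.trans hN) hw) h1
  have h2' : dist o' (ρ w • ρ w • o') ≤ dist o' (ρ w • o') := by
    unfold len at h2
    rwa [map_mul, mul_smul] at h2
  obtain ⟨c, hc⟩ := hT.four w (ball_mono (hn.trans hN) hw)
  have hc' : dist o' (ρ w • o') = 4 * c := hc
  have hRT := isRT V'
  have hc0 : (0 : ℝ) ≤ c := by
    have := dist_nonneg (x := o') (y := ρ w • o')
    rw [hc'] at this
    linarith
  obtain ⟨z, hz1, hz2⟩ := hRT.geo o' (ρ w • o') (dist o' (ρ w • o') / 2)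
    (by rw [hc']; linarith) (by rw [hc']; linarith)
  have hzb : Bt o' z (ρ w • o') := by unfold Bt; linarith
  have hfix := mid_fix hRT (fun g p q => dist_smul_eq g p q) h2' hzb hz1
  have hkv : KV (ball S n) ρ o' z :=
    ⟨⟨w, ball_mono hn hw, hzb⟩, c, by rw [hz1, hc']; ring⟩
  obtain ⟨l, hl1, hl2⟩ := mem_ball.1 hw
  obtain ⟨z', e1, e2⟩ := seg_vis hRT (fun g p q => dist_smul_eq g p q) hT.hp hm l hl1 hl2
    ⟨z, hkv⟩ hzb
  have e3 : z' = ⟨z, hkv⟩ := Subtype.ext (by rw [e1, hfix])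
  rw [e3] at e2
  exact ⟨l.reverse, _, e2, by rw [lab_reverse, hl2]⟩

variable {H : Type} [Group H] (π : FreeGroup S →* H)

/-- an elliptic word fixes a vertex of the tree -/
theorem Trn.ell_fix (hT : Trn N n (len ρ o) (len ρ o') lo L) {m : ℕ} (hm : 2 * m ≤ n)
    (hN : n ≤ N) {w : FreeGroup S} (hw : w ∈ ball S m) (hw0 : V.Ge 0 (tr (ρ w))) :
    ∃ p : (hpa (ball S n) ρ o').TV π, π w • p = p := by
  obtain ⟨γ, z, h1, h2⟩ := hT.ell hm hN hw hw0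
  refine ⟨(hpa (ball S n) ρ o').pt π 1 z, ?_⟩
  rw [FrT.PA.smul_pt, mul_one]
  have := (hpa (ball S n) ρ o').pt_path π γ 1 z z h1
  rw [one_mul, h2] at this
  exact this

/-- finitely generated abelian elliptic subgroups fix a vertex of the tree -/
theorem Trn.ell_sub (hserre : S_serre) (hT : Trn N n (len ρ o) (len ρ o') lo L)
    {m : ℕ} (hm : 2 * m ≤ n) (hN : n ≤ N) (hG : (hpa (ball S n) ρ o').Good)
    (htree : ((hpa (ball S n) ρ o').TG π hG).IsTree) (A : Finset (FreeGroup S))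
    (hA : ∀ w ∈ A, w ∈ ball S m) (hA0 : ∀ w ∈ A, V.Ge 0 (tr (ρ w)))
    (hcomm : ∀ w ∈ A, ∀ w' ∈ A, π w * π w' = π w' * π w) :
    ∃ p : (hpa (ball S n) ρ o').TV π, ∀ g ∈ Subgroup.closure (π '' (A : Set (FreeGroup S))),
      g • p = p := by
  classical
  obtain ⟨p, hp⟩ := hserre H ((hpa (ball S n) ρ o').TV π) ((hpa (ball S n) ρ o').TG π hG)
    ((hpa (ball S n) ρ o').tcol π hG) htree ((hpa (ball S n) ρ o').acts π hG)
    ((hpa (ball S n) ρ o').tcol_smul π hG) (by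
      intro x y hxy
      obtain ⟨g, a, b, hab, rfl, rfl⟩ := hxy
      rw [FrT.PA.tcol_pt, FrT.PA.tcol_pt]
      exact hG.colK a b hab) A.card (fun i => π (A.equivFin.symm i).1)
    (fun i j => hcomm _ (A.equivFin.symm i).2 _ (A.equivFin.symm j).2)
    (fun i => hT.ell_fix π hm hN (hA _ (A.equivFin.symm i).2) (hA0 _ (A.equivFin.symm i).2))
  refine ⟨p, ?_⟩
  have hle : Subgroup.closure (π '' (A : Set (FreeGroup S))) ≤ MulAction.stabilizer H p := by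
    rw [Subgroup.closure_le]
    rintro _ ⟨w, hw, rfl⟩
    have := hp (A.equivFin ⟨w, hw⟩)
    rw [Equiv.symm_apply_apply] at this
    exact this
  intro g hg
  exact hle hg

end elliptic

end Pool.Agent.FrR
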