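import Pool.Agent.Lib.MP_305fdd_al.Fr.R.SCg
import Pool.Agent.Lib.MP_305fdd_al.Fr.R.Out
import Pool.Agent.Lib.MP_305fdd_al.Fr.R.Transfer
import Pool.Agent.Lib.MP_305fdd_al.Fr.R.StmR
import Pool.Agent.Lib.MP_305fdd_al.Fr.R.P_walk
import Pool.Agent.Lib.MP_305fdd_al.Fr.R.P_serre
import Pool.Agent.Lib.MP_305fdd_al.Fr.R.P_fg
import Pool.Agent.Lib.MP_305fdd_al.Fr.CI.Comb
import Pool.Agent.Lib.MP_305fdd_al.Fr.A.Main

/-!
# Theorem R for generators with the base point on their axes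
-/

set_option autoImplicit false

namespace Pool.Agent.FrR

open Matrix Pool.Agent.FrZ Pool.Agent.FrT

/-- a rational valuation as a real one -/
def RV.ofRat {K : Type} [Field K] (V : K → ℚ) (hV : F2Ch.IsV V) : RV K where
  v a := (V a : ℝ)
  isV :=
    { zero := by rw [hV.zero]; simp
      mul := fun x y hx hy => by rw [hV.mul x y hx hy]; push_cast; rfl
      add := fun x y hx hy hxy => by
        have h := hV.add x y hx hy hxy
        exact_mod_cast h }

/-- the conclusion of Theorem R -/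
def Concl (k L G ι : Type) [Field k] [Field L] [Algebra k L] [Group G]
    (ρ : G →* SpecialLinearGroup (Fin 2) L) (E : ι → Subgroup G) : Prop :=
    ∃ (N : Subgroup G) (_ : N.Normal) (W : Finset G), N = Subgroup.normalClosure (W : Set G) ∧
      N ≤ ρ.ker ∧
    ∃ (V : Type) (_ : MulAction (G ⧸ N) V) (X : SimpleGraph V)
      (hact : ∀ (g : G ⧸ N) (p q : V), X.Adj p q → X.Adj (g • p) (g • q)) (u v : V),
      X.IsTree ∧ X.Adj u v ∧ (∀ g : G ⧸ N, ¬ (g • u = v ∧ g • v = u)) ∧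
      (SC (G ⧸ N) u v).FG ∧
      (∀ a b : G, (QuotientGroup.mk a : G ⧸ N) ∈ SC (G ⧸ N) u v →
        (QuotientGroup.mk b : G ⧸ N) ∈ SC (G ⧸ N) u v → ρ a * ρ b = ρ b * ρ a) ∧
      Sst (u := u) (v := v) hact u ≠ ⊤ ∧ Sst (u := u) (v := v) hact v ≠ ⊤ ∧
      (∀ i, ∃ p : V, ∀ a ∈ E i, (QuotientGroup.mk a : G ⧸ N) • p = p) ∧
      ∃ (x' : RV L) (f : V → Tr x'), F2Ch.Triv k x'.v ∧
        (∀ (g : G) (p : V), f ((QuotientGroup.mk g : G ⧸ N) • p) = ρ g • f p) ∧ f u ≠ f v ∧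
        ((∀ g : G ⧸ N, ¬ Rch (G ⧸ N) X u v (g • u) v) →
          (∃ b ∈ Sst (u := u) (v := v) hact u, f (b • v) ≠ f v) ∧
          (∃ b ∈ Sst (u := u) (v := v) hact v, f (b • u) ≠ f u))

/-- generating words of a finitely generated subgroup -/
theorem exists_words {S G : Type} [Group G] (π : FreeGroup S →* G) (hπ : Function.Surjective π)
    (E : Subgroup G) (hE : E.FG) : ∃ A : Finset (FreeGroup S),
      Subgroup.closure (π '' (A : Set (FreeGroup S))) = E := by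
  classical
  obtain ⟨B, hB⟩ := hE
  choose f hf using hπ
  refine ⟨B.image f, ?_⟩
  rw [Finset.coe_image, Set.image_image]
  simp only [hf]
  rw [Set.image_id']
  exact hB

theorem core (k L G ι S : Type) [Field k] [Field L] [Algebra k L] [Group G] [Finite ι] [Finite S]
    (π : FreeGroup S →* G) (R : Finset (FreeGroup S)) (hπ : Function.Surjective π)
    (hker : π.ker = Subgroup.normalClosure (R : Set (FreeGroup S)))
    (A₀ : Finset L) (hA₀ : IntermediateField.adjoin k (A₀ : Set L) = ⊤)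
    (x : RV L) (hx : F2Ch.Triv k x.v) (ρ : G →* SpecialLinearGroup (Fin 2) L)
    (hSG : SG x ρ.range) (k0 : SpecialLinearGroup (Fin 2) L) (τ : ℝ)
    (hax : ∀ s : S, dist (bo x k0 τ) (ρ (π (FreeGroup.of s)) • ρ (π (FreeGroup.of s)) • bo x k0 τ) =
      2 * dist (bo x k0 τ) (ρ (π (FreeGroup.of s)) • bo x k0 τ))
    (s0 : S) (hs0 : 0 < dist (bo x k0 τ) (ρ (π (FreeGroup.of s0)) • bo x k0 τ))
    (E : ι → Subgroup G) (hEfg : ∀ i, (E i).FG)
    (hEcomm : ∀ i, ∀ a ∈ E i, ∀ b ∈ E i, a * b = b * a)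
    (hE0 : ∀ i, ∀ a ∈ E i, x.Ge 0 (tr (ρ a))) : Concl k L G ι ρ E := by
  classical
  haveI := Fintype.ofFinite ι
  -- words
  set ρw : FreeGroup S →* SpecialLinearGroup (Fin 2) L := ρ.comp π with hρw
  set ρr : FreeGroup S →* ρ.range := ρ.rangeRestrict.comp π with hρr
  set ℓ : FreeGroup S → ℝ := len ρw (bo x k0 τ) with hℓ
  have hℓr : len ρr (bo x k0 τ) = ℓ := rfl
  choose AE hAE using fun i => exists_words π hπ (E i) (hEfg i)
  obtain ⟨m, hm⟩ := exists_ball_finset (Finset.univ.biUnion AE)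
  obtain ⟨m', hm'⟩ := exists_ball_finset R
  set n : ℕ := 2 * m + m' + 1 with hn
  set N : ℕ := 2 * n + 2 with hN
  have hn1 : 1 ≤ n := by omega
  -- the system
  obtain ⟨lo, hlo⟩ := exists_lo (ball S n) ℓ (fun u => dist_nonneg)
  have hiso : ∀ (g : SpecialLinearGroup (Fin 2) L) (p q : Tr x), dist (g • p) (g • q) = dist p q :=
    fun g p q => dist_smul_eq g p q
  have hRT := isRT x
  have hC0 : Cp (ball S n) ℓ ℓ := Cp.refl _ _
  have hXgood : (bsys (ball S n) ℓ ℓ lo).Good := bsys_good hRT hiso ρw (bo x k0 τ) lo hC0 hlo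
  have hsmall := hSG.small
  have hrln : Rln (bsys (ball S n) ℓ ℓ lo) (ρr.comp (labJ (ball S n) ℓ))
      (rea ρr (bo x k0 τ) lo) := bsys_rln hRT hsmall.isom ρr (bo x k0 τ) lo hC0
  haveI : Fintype (Jx (ball S n) ℓ) := Fintype.ofFinite _
  haveI : Fintype (Ix (ball S n) ℓ) := Fintype.ofFinite _
  haveI : Nonempty (Ix (ball S n) ℓ) := ⟨⟨FreeGroup.of s0, ball_mono hn1 (of_mem_ball s0), hs0⟩⟩
  obtain ⟨F₀, E₀, W, hF₀, hW, hcomb⟩ := s_Comb (Jx (ball S n) ℓ) (Ix (ball S n) ℓ) ρ.range (Tr x)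
    (bsys (ball S n) ℓ ℓ lo) (ρr.comp (labJ (ball S n) ℓ)) (rea ρr (bo x k0 τ) lo)
    hRT hsmall hXgood hrln
  -- transfer
  obtain ⟨A1, F1, E2, hF1, htr⟩ := transfer x ρw k0 τ (N := N) (n := n) hn1 (by omega) lo
  obtain ⟨F3, hF3, happ⟩ := FrA.approx_rat A₀ hA₀ x.isV hx A1
  obtain ⟨L', hL1, hL2⟩ := exists_L (F₀ ∪ F1 ∪ F3) (E₀ ∪ E2) (by
    intro f hf
    rcases Finset.mem_union.1 hf with hf | hf
    · rcases Finset.mem_union.1 hf with hf | hf
      · exact hF₀ f hf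
      · exact hF1 f hf
    · exact hF3 f hf)
  obtain ⟨V, hV, hVt, hVA, -⟩ := happ L' (fun r hr => hL1 r (by simp [hr]))
  set x' : RV L := RV.ofRat V hV with hx'
  have hTrn : Trn N n ℓ (len ρw (bo x' k0 ((L' τ : ℚ) : ℝ))) lo L' :=
    htr L' x' (fun f hf => hL1 f (by simp [hf])) (fun e he => hL2 e (by simp [he]))
      (fun a ha => by
        show ((V a : ℚ) : ℝ) = _
        rw [hVA a ha])
  have hiso' : ∀ (g : SpecialLinearGroup (Fin 2) L) (p q : Tr x'),
    dist (g • p) (g • q) = dist p q := fun g p q => dist_smul_eq g p q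
  have hRT' := isRT x'
  obtain ⟨hG', ⟨e, i0, he1, he2, he3, hloop⟩, hWloop⟩ := hcomb L' _ hTrn.tp
    (fun f hf => hL1 f (by simp [hf])) (fun e he => hL2 e (by simp [he]))
  set X' := (bsys (ball S n) ℓ ℓ lo).map (Lz L') with hX'
  have hEv : Ev X' := Ev_of_Tp hTrn.tp
  set o' : Tr x' := bo x' k0 ((L' τ : ℚ) : ℝ) with ho'
  set lo' : FreeGroup S → ℝ := fun u => ((L' (lo u) : ℚ) : ℝ) with hlo'
  -- the quotient
  set U : Set (FreeGroup S) := labJ (ball S n) ℓ '' (W : Set (FreeGroup (Jx (ball S n) ℓ))) with hU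
  set Nn : Subgroup G := Subgroup.normalClosure (π '' U) with hNn
  have hNn' : Nn.Normal := Subgroup.normalClosure_normal
  have hρU : ∀ w ∈ U, ρ (π w) = 1 := by
    rintro _ ⟨w, hw, rfl⟩
    have h1 := hW w hw
    have h2 := congrArg Subtype.val h1
    exact h2
  have hNk : Nn ≤ ρ.ker := by
    apply Subgroup.normalClosure_le_normal
    rintro _ ⟨w, hw, rfl⟩
    exact hρU w hw
  set q : FreeGroup S →* G ⧸ Nn := (QuotientGroup.mk' Nn).comp π with hq
  have hqs : Function.Surjective q := (QuotientGroup.mk'_surjective Nn).comp hπ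
  set ρb : G ⧸ Nn →* SpecialLinearGroup (Fin 2) L := QuotientGroup.lift Nn ρ hNk with hρb
  have hρq : ∀ w, ρb (q w) = ρw w := fun w => rfl
  have hρm : ∀ g : G, ρb (QuotientGroup.mk g) = ρ g := fun g => rfl
  have hkerq : ∀ w, q w = 1 → w ∈ Subgroup.normalClosure ((R : Set (FreeGroup S)) ∪ U) :=
    fun w hw => ker_comp π hπ hker (N := Nn) rfl w hw
  have hgood := hpa_good hRT' hiso' hTrn.hp
  have hrel : ∀ r ∈ (R : Set (FreeGroup S)) ∪ U, q r = 1 ∧
      ∃ γ p, (hpa (ball S n) ρw o').Path γ p p ∧ FrT.lab γ = r := by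
    rintro r (hr | hr)
    · have h1 : π r = 1 := by
        have : r ∈ π.ker := by rw [hker]; exact Subgroup.subset_normalClosure hr
        exact this
      refine ⟨?_, ?_⟩
      · show (QuotientGroup.mk' Nn) (π r) = 1
        rw [h1, map_one]
      · refine rel_vis hTrn.hp (ball_mono (by omega) (hm' r hr)) ?_
        show ρ (π r) = 1
        rw [h1, map_one]
    · refine ⟨?_, ?_⟩
      · show (QuotientGroup.mk' Nn) (π r) = 1
        exact (QuotientGroup.eq_one_iff (π r)).2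
          (Subgroup.subset_normalClosure (Set.mem_image_of_mem _ hr))
      · obtain ⟨w, hw, rfl⟩ := hr
        obtain ⟨γ, y, d, j, h1, h2, h3, h4, h5, h6⟩ := hWloop w hw
        rw [← h6]
        exact loop_vis hRT' hiso' hTrn.cp hTrn.hp hTrn.toR hG' hEv γ h1 h2 h3 h4 h5
  have htree : ((hpa (ball S n) ρw o').TG q hgood).IsTree :=
    (hpa (ball S n) ρw o').isTree q hgood hqs hkerq hrel
  -- the edge
  obtain ⟨y0, z0, hrep⟩ := rep_exists hRT' hTrn.hp hTrn.toR hEv he1 he2 he3 true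
  have hadj0 : (hpa (ball S n) ρw o').K.Adj y0 z0 := hrep.dist hRT' hTrn.toR hEv
  have hbt0 : Bt o' y0.1 z0.1 := hrep.bt hRT' hTrn.toR hEv
  have hax' : ∀ s : S, len ρw o' (FreeGroup.of s * FreeGroup.of s) =
      2 * len ρw o' (FreeGroup.of s) := by
    intro s
    have h1 : ℓ (FreeGroup.of s * FreeGroup.of s) = 2 * ℓ (FreeGroup.of s) := by
      refine Eq.trans ?_ (hax s)
      show dist (bo x k0 τ) (ρw (FreeGroup.of s * FreeGroup.of s) • bo x k0 τ) = _
      rw [map_mul, mul_smul]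
      rfl
    rw [hTrn.im _ (ball_mono (by omega) (mul_mem_ball (of_mem_ball s) (of_mem_ball s))),
      hTrn.im _ (ball_mono (by omega) (of_mem_ball s)), h1, two_mul, map_add]
    push_cast
    ring
  obtain ⟨δ, y1, z1, p1, p2, p3, p4, p5, p6⟩ := out q ρb hρq hRT' hiso' p_walk hn1 hTrn.hp hgood
    htree hax' y0 z0 hadj0 hbt0
  obtain ⟨A, hA, hA'⟩ := p_fg (Jx (ball S n) ℓ) (Ix (ball S n) ℓ) X' hG' e
  refine ⟨Nn, hNn', W.image (fun w => π (labJ (ball S n) ℓ w)), ?_, hNk,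
    (hpa (ball S n) ρw o').TV q, inferInstance, (hpa (ball S n) ρw o').TG q hgood,
    (hpa (ball S n) ρw o').acts q hgood, (hpa (ball S n) ρw o').pt q 1 y1,
    (hpa (ball S n) ρw o').pt q 1 z1, htree, ⟨1, y1, z1, p3, rfl, rfl⟩, ?_, ?_, ?_, p4, p5, ?_,
    x', fT q ρb (ball S n) hρq, ?_, ?_, ?_, p6⟩
  · rw [Finset.coe_image, hNn, hU, Set.image_image]
  · rintro g ⟨h1, -⟩
    have h2 := congrArg ((hpa (ball S n) ρw o').tcol q hgood) h1
    rw [FrT.PA.tcol_smul, FrT.PA.tcol_pt, FrT.PA.tcol_pt] at h2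
    exact hgood.colK _ _ p3 h2
  · exact sc_fg hRT' hiso' hTrn.cp hTrn.hp hTrn.toR hG' hEv q hrep δ p1 p2 hqs hkerq hrel p3 A hA
      hA'
  · intro a b ha hb
    obtain ⟨γ, a1, a2, a3⟩ := sc_loop hRT' hiso' hTrn.cp hTrn.hp hTrn.toR hG' hEv q hrep δ p1 p2
      hqs hkerq hrel p3 _ ha
    obtain ⟨γ', b1, b2, b3⟩ := sc_loop hRT' hiso' hTrn.cp hTrn.hp hTrn.toR hG' hEv q hrep δ p1 p2
      hqs hkerq hrel p3 _ hb
    have h1 := hloop γ true γ' true a1 (by rw [a2]) b1 (by rw [b2])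
    have h2 : ρw (labJ (ball S n) ℓ (FrZ.lab γ)) * ρw (labJ (ball S n) ℓ (FrZ.lab γ')) =
        ρw (labJ (ball S n) ℓ (FrZ.lab γ')) * ρw (labJ (ball S n) ℓ (FrZ.lab γ)) :=
      congrArg Subtype.val h1
    have h3 := congrArg ρb a3
    have h4 := congrArg ρb b3
    rw [hρm, map_mul, map_mul, map_inv, hρq, hρq] at h3 h4
    rw [h3, h4]
    calc _ = ρw (FrT.lab δ) * (ρw (labJ (ball S n) ℓ (FrZ.lab γ)) *
          ρw (labJ (ball S n) ℓ (FrZ.lab γ'))) * (ρw (FrT.lab δ))⁻¹ := by group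
      _ = ρw (FrT.lab δ) * (ρw (labJ (ball S n) ℓ (FrZ.lab γ')) *
          ρw (labJ (ball S n) ℓ (FrZ.lab γ))) * (ρw (FrT.lab δ))⁻¹ := by rw [h2]
      _ = _ := by group
  · intro i
    obtain ⟨p, hp⟩ := hTrn.ell_sub q p_serre (m := m) (by omega) (by omega) hgood htree (AE i)
      (fun w hw => hm w (Finset.mem_biUnion.2 ⟨i, Finset.mem_univ i, hw⟩))
      (fun w hw => hE0 i _ (by
        rw [← hAE i]
        exact Subgroup.subset_closure (Set.mem_image_of_mem _ hw)))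
      (fun w hw w' hw' => by
        have h1 : π w * π w' = π w' * π w := hEcomm i _ (by
          rw [← hAE i]
          exact Subgroup.subset_closure (Set.mem_image_of_mem _ hw)) _ (by
          rw [← hAE i]
          exact Subgroup.subset_closure (Set.mem_image_of_mem _ hw'))
        show (QuotientGroup.mk' Nn) (π w) * (QuotientGroup.mk' Nn) (π w') = _
        rw [← map_mul, h1, map_mul]
        rfl)
    refine ⟨p, fun a ha => hp _ ?_⟩
    rw [← hAE i] at ha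
    have h1 := Subgroup.mem_map_of_mem (QuotientGroup.mk' Nn) ha
    rw [MonoidHom.map_closure, Set.image_image] at h1
    exact h1
  · intro c
    show ((V (algebraMap k L c) : ℚ) : ℝ) = 0
    rw [hVt c]
    simp
  · intro g p
    rw [fT_smul]
    rfl
  · rw [fT_one, fT_one]
    intro h
    have h1 : dist y1.1 z1.1 = 2 := p3
    rw [h, dist_self] at h1
    norm_num at h1

end Pool.Agent.FrR
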