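import Pool.Agent.Lib.MP_305fdd_al.Fr.R.Ball
import Pool.Agent.Lib.MP_305fdd_al.Fr.T.Tree

/-!
# The simplicial tree of a finite hull in a real tree with integral distances
-/

set_option autoImplicit false

namespace Pool.Agent.FrR

open Pool.Agent.FrT

section
variable {S Γ T : Type} [Group Γ] [MetricSpace T] [MulAction Γ T]

/-- integrality of the finite set of words -/
structure HP (P : Finset (FreeGroup S)) (ℓ : FreeGroup S → ℝ) : Prop where
  one : (1 : FreeGroup S) ∈ P
  of : ∀ s : S, FreeGroup.of s ∈ P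
  inv : ∀ s : S, (FreeGroup.of s)⁻¹ ∈ P
  ev : ∀ u ∈ P, ∃ m : ℤ, ℓ u = 2 * m
  gr : ∀ u ∈ P, ∀ w ∈ P, ∃ m : ℤ, ℓ u + ℓ w - ℓ (w⁻¹ * u) = 4 * m
  four : ∀ s : S, ∃ m : ℤ, ℓ (FreeGroup.of s) = 4 * m

/-- vertices of the hull -/
def KV (P : Finset (FreeGroup S)) (ρ : FreeGroup S →* Γ) (o z : T) : Prop :=
  (∃ u ∈ P, Bt o z (ρ u • o)) ∧ ∃ m : ℤ, dist o z = 2 * m

variable (hT : IsRT T) (hiso : ∀ (g : Γ) (p q : T), dist (g • p) (g • q) = dist p q)
  {ρ : FreeGroup S →* Γ} {o : T} {P : Finset (FreeGroup S)}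

include hT hiso in
theorem KV.dist_eq (hP : HP P (len ρ o)) {y z : T} (hy : KV P ρ o y) (hz : KV P ρ o z) :
    ∃ m : ℤ, dist y z = dist o y + dist o z - 4 * m := by
  obtain ⟨⟨u, hu, hyu⟩, a, ha⟩ := hy
  obtain ⟨⟨w, hw, hzw⟩, b, hb⟩ := hz
  obtain ⟨k, hk⟩ := hP.gr u hu w hw
  have e1 := proj hT hzw y
  have e2 := proj hT hyu (ρ w • o)
  rw [dist_word hiso ρ o w u, dist_comm (ρ w • o) o, dist_comm (ρ w • o) y] at e2
  have f1 : dist o (ρ w • o) = len ρ o w := rfl
  have f2 : dist o (ρ u • o) = len ρ o u := rfl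
  unfold Bt at hyu hzw
  rw [f2] at hyu
  rw [f1] at hzw e2
  rw [dist_comm y o, e2] at e1
  have e3 : dist y (ρ u • o) = len ρ o u - dist o y := by linarith
  have e4 : dist z (ρ w • o) = len ρ o w - dist o z := by linarith
  rw [e3, e4] at e1
  rcases max_choice (dist o y - dist o z) (max (len ρ o w - dist o y)
    (len ρ o (w⁻¹ * u) - (len ρ o u - dist o y)) - (len ρ o w - dist o z)) with h | h
  · refine ⟨b, ?_⟩
    rw [e1, h, hb]
    ring
  · rcases max_choice (len ρ o w - dist o y)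
      (len ρ o (w⁻¹ * u) - (len ρ o u - dist o y)) with h' | h'
    · refine ⟨a, ?_⟩
      rw [e1, h, h', ha]
      ring
    · refine ⟨k, ?_⟩
      rw [e1, h, h']
      linarith

theorem KV.base (hP : HP P (len ρ o)) : KV P ρ o o := by
  refine ⟨⟨1, hP.one, ?_⟩, 0, by simp⟩
  rw [map_one, one_smul]
  exact Bt.left o o

theorem KV.end' (hP : HP P (len ρ o)) {u : FreeGroup S} (hu : u ∈ P) : KV P ρ o (ρ u • o) := by
  obtain ⟨m, hm⟩ := hP.ev u hu
  exact ⟨⟨u, hu, Bt.right _ _⟩, m, hm⟩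

theorem KV.down {y z : T} (hz : KV P ρ o z) (h : Bt o y z) (m : ℤ) (hm : dist o y = 2 * m) :
    KV P ρ o y := by
  obtain ⟨⟨u, hu, hzu⟩, -⟩ := hz
  exact ⟨⟨u, hu, h.trans hzu⟩, m, hm⟩

include hT hiso in
theorem KV.between (hP : HP P (len ρ o)) {p q y : T} (hp : KV P ρ o p) (hq : KV P ρ o q)
    (h : Bt p y q) {m : ℤ} (hm : dist p y = 2 * m) : KV P ρ o y := by
  obtain ⟨k, hk⟩ := KV.dist_eq hT hiso hP hp hq
  obtain ⟨a, ha⟩ := hp.2
  obtain ⟨b, hb⟩ := hq.2
  have e1 := proj hT h o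
  have e2 : dist y q = dist p q - dist p y := by unfold Bt at h; linarith
  rw [e2, hk, hm, ha, hb] at e1
  have hev : ∃ n : ℤ, dist o y = 2 * n := by
    rcases max_choice (2 * (a : ℝ) - 2 * m)
      (2 * (b : ℝ) - (2 * (a : ℝ) + 2 * b - 4 * k - 2 * m)) with h' | h'
    · exact ⟨a - m, by rw [e1, h']; push_cast; ring⟩
    · exact ⟨-a + 2 * k + m, by rw [e1, h']; push_cast; ring⟩
  obtain ⟨n, hn⟩ := hev
  rcases h.tripod hT o with h' | h'
  · exact hp.down h' n hn
  · exact hq.down h' n hn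

include hT hiso in
/-- adjacent vertices are comparable -/
theorem KV.adj_bt (hP : HP P (len ρ o)) {y z : T} (hy : KV P ρ o y) (hz : KV P ρ o z)
    (h : dist y z = 2) : (Bt o y z ∧ dist o z = dist o y + 2) ∨
      (Bt o z y ∧ dist o y = dist o z + 2) := by
  obtain ⟨m, hm⟩ := KV.dist_eq hT hiso hP hy hz
  obtain ⟨a, ha⟩ := hy.2
  obtain ⟨b, hb⟩ := hz.2
  have t1 := dist_triangle o y z
  have t2 := dist_triangle o z y
  rw [dist_comm z y] at t2
  rw [h] at t1 t2 hm
  rw [ha, hb] at hm t1 t2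
  have c1 : b ≤ a + 1 := by
    have : (b : ℝ) ≤ a + 1 := by linarith
    exact_mod_cast this
  have c2 : a ≤ b + 1 := by
    have : (a : ℝ) ≤ b + 1 := by linarith
    exact_mod_cast this
  have c3 : (1 : ℤ) = a + b - 2 * m := by
    have : (1 : ℝ) = a + b - 2 * m := by linarith
    exact_mod_cast this
  have c4 : b = a + 1 ∨ a = b + 1 := by omega
  rcases c4 with c | c
  · left
    have e : dist o z = dist o y + 2 := by rw [ha, hb, c]; push_cast; ring
    exact ⟨by unfold Bt; rw [h, e], e⟩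
  · right
    have e : dist o y = dist o z + 2 := by rw [ha, hb, c]; push_cast; ring
    exact ⟨by unfold Bt; rw [dist_comm z y, h, e], e⟩

/-- the vertex type -/
abbrev VK (P : Finset (FreeGroup S)) (ρ : FreeGroup S →* Γ) (o : T) : Type := {z : T // KV P ρ o z}

/-- the simplicial tree with the partial action of the letters -/
noncomputable def hpa (P : Finset (FreeGroup S)) (ρ : FreeGroup S →* Γ) (o : T) :
    PA S (VK P ρ o) where
  K := { Adj := fun y z => dist y.1 z.1 = 2
         symm := ⟨fun y z h => by rw [dist_comm]; exact h⟩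
         loopless := ⟨fun y h => by rw [dist_self] at h; norm_num at h⟩ }
  dom s := {z | KV P ρ o (ρ (FreeGroup.of s) • z.1)}
  act s z := open Classical in
    if h : KV P ρ o (ρ (FreeGroup.of s) • z.1) then ⟨ρ (FreeGroup.of s) • z.1, h⟩ else z
  col z := open Classical in decide (∃ k : ℤ, dist o z.1 = 4 * k)

theorem hpa_act {s : S} {z : VK P ρ o} (h : z ∈ (hpa P ρ o).dom s) :
    ((hpa P ρ o).act s z).1 = ρ (FreeGroup.of s) • z.1 := by
  change KV P ρ o (ρ (FreeGroup.of s) • z.1) at h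
  simp only [hpa]
  rw [dif_pos h]

theorem hpa_adj (y z : VK P ρ o) : (hpa P ρ o).K.Adj y z ↔ dist y.1 z.1 = 2 := Iff.rfl

include hT in
/-- the parent -/
theorem exists_parent {z : T} (hz : KV P ρ o z) (h0 : z ≠ o) :
    ∃ y, KV P ρ o y ∧ Bt o y z ∧ dist y z = 2 ∧ dist o z = dist o y + 2 := by
  obtain ⟨m, hm⟩ := hz.2
  have hpos : 0 < dist o z := dist_pos.2 (Ne.symm h0)
  have hm1 : 1 ≤ m := by
    have : (0 : ℝ) < m := by linarith
    have : (0 : ℤ) < m := by exact_mod_cast this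
    omega
  have hm2 : (1 : ℝ) ≤ m := by exact_mod_cast hm1
  obtain ⟨y, h1, h2⟩ := hT.geo o z (dist o z - 2) (by linarith) (by linarith)
  have hb : Bt o y z := by unfold Bt; linarith
  exact ⟨y, hz.down hb (m - 1) (by rw [h1, hm]; push_cast; ring), hb, by linarith, by linarith⟩

include hT hiso in
/-- paths inside the common domain of two translates -/
theorem conn_aux (hP : HP P (len ρ o)) (g : Γ) : ∀ (n : ℕ) (p q : VK P ρ o),
    dist p.1 q.1 = 2 * n → KV P ρ o (g • p.1) → KV P ρ o (g • q.1) →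
    Relation.ReflTransGen (fun a b : VK P ρ o => (hpa P ρ o).K.Adj a b ∧ KV P ρ o (g • a.1) ∧
      KV P ρ o (g • b.1)) p q := by
  intro n
  induction n with
  | zero =>
    intro p q h _ _
    have : p = q := Subtype.ext (dist_eq_zero.1 (by rw [h]; simp))
    rw [this]
  | succ n ih =>
    intro p q h hp hq
    obtain ⟨y, h1, h2⟩ := hT.geo p.1 q.1 2 (by norm_num) (by rw [h]; push_cast; nlinarith [n.cast_nonneg (α := ℝ)])
    have hb : Bt p.1 y q.1 := by unfold Bt; linarith
    have hy : KV P ρ o y := KV.between hT hiso hP p.2 q.2 hb (m := 1) (by rw [h1]; norm_num)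
    have hgy : KV P ρ o (g • y) := KV.between hT hiso hP hp hq (hb.smul hiso g) (m := 1)
      (by rw [hiso, h1]; norm_num)
    refine Relation.ReflTransGen.head (b := (⟨y, hy⟩ : VK P ρ o)) ⟨h1, hp, hgy⟩ ?_
    refine ih ⟨y, hy⟩ q ?_ hgy hq
    show dist y q.1 = 2 * n
    rw [h2, h]
    push_cast
    ring

include hT hiso in
theorem dist_nat (hP : HP P (len ρ o)) (p q : VK P ρ o) : ∃ n : ℕ, dist p.1 q.1 = 2 * n := by
  obtain ⟨m, hm⟩ := KV.dist_eq hT hiso hP p.2 q.2
  obtain ⟨a, ha⟩ := p.2.2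
  obtain ⟨b, hb⟩ := q.2.2
  have h0 := dist_nonneg (x := p.1) (y := q.1)
  have h1 : dist p.1 q.1 = 2 * ((a + b - 2 * m : ℤ) : ℝ) := by
    rw [hm, ha, hb]; push_cast; ring
  have h2 : 0 ≤ a + b - 2 * m := by
    rw [h1] at h0
    have : (0 : ℝ) ≤ ((a + b - 2 * m : ℤ) : ℝ) := by linarith
    exact_mod_cast this
  obtain ⟨n, hn⟩ := Int.eq_ofNat_of_zero_le h2
  refine ⟨n, ?_⟩
  rw [h1, hn]
  simp

include hT hiso in
theorem hpa_pot (hP : HP P (len ρ o)) (u v : VK P ρ o) (h : dist u.1 v.1 = 2)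
    (hb : Bt o u.1 v.1) (hd : dist o v.1 = dist o u.1 + 2) :
    ∃ f : VK P ρ o → ℤ, f u ≠ f v ∧ ∀ a b, (hpa P ρ o).K.Adj a b → f a ≠ f b →
      (a = u ∧ b = v) ∨ (a = v ∧ b = u) := by
  classical
  refine ⟨fun x => if Bt o v.1 x.1 then 1 else 0, ?_, ?_⟩
  · have h1 : Bt o v.1 v.1 := Bt.right _ _
    have h2 : ¬ Bt o v.1 u.1 := fun h2 => by
      have := h2.le
      linarith
    simp only [h1, h2, if_true, if_false]
    norm_num
  · have key : ∀ a b : VK P ρ o, dist a.1 b.1 = 2 → Bt o a.1 b.1 → dist o b.1 = dist o a.1 + 2 →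
        (if Bt o v.1 a.1 then (1 : ℤ) else 0) ≠ (if Bt o v.1 b.1 then 1 else 0) →
        a = u ∧ b = v := by
      intro a b hab hba hdab hne
      by_cases c1 : Bt o v.1 a.1
      · have c2 : Bt o v.1 b.1 := c1.trans hba
        simp [c1, c2] at hne
      · by_cases c2 : Bt o v.1 b.1
        · have h3 : dist o a.1 < dist o v.1 := by
            by_contra hcon
            push Not at hcon
            exact c1 (c2.ord hT hba hcon)
          have h4 := c2.le
          obtain ⟨m, hm⟩ := a.2.2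
          obtain ⟨n, hn⟩ := v.2.2
          rw [hdab] at h4
          rw [hm, hn] at h3 h4
          have h5 : m < n := by
            have : (m : ℝ) < n := by linarith
            exact_mod_cast this
          have h6 : n ≤ m + 1 := by
            have : (n : ℝ) ≤ m + 1 := by linarith
            exact_mod_cast this
          have h7 : n = m + 1 := by omega
          have h8 : dist o v.1 = dist o b.1 := by
            rw [hdab, hm, hn, h7]; push_cast; ring
          have h9 : v.1 = b.1 := c2.uniq hT (Bt.right _ _) h8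
          have h10 : a.1 = u.1 := by
            rw [← h9] at hba
            refine hba.uniq hT hb ?_
            linarith
          exact ⟨Subtype.ext h10, Subtype.ext h9.symm⟩
        · simp [c1, c2] at hne
    intro a b hab hne
    rcases KV.adj_bt hT hiso hP a.2 b.2 hab with ⟨h1, h2⟩ | ⟨h1, h2⟩
    · exact Or.inl (key a b hab h1 h2 hne)
    · have hba : dist b.1 a.1 = 2 := by rw [dist_comm]; exact hab
      obtain ⟨h3, h4⟩ := key b a hba h1 h2 (Ne.symm hne)
      exact Or.inr ⟨h4, h3⟩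

include hT hiso in
theorem hpa_tree (hP : HP P (len ρ o)) : (hpa P ρ o).K.IsTree := by
  classical
  refine tree_of_pot ?_ ?_
  · haveI : Nonempty (VK P ρ o) := ⟨⟨o, KV.base hP⟩⟩
    refine SimpleGraph.Connected.mk ?_
    intro p q
    obtain ⟨n, hn⟩ := dist_nat hT hiso hP p q
    have h := conn_aux hT hiso hP 1 n p q hn (by rw [one_smul]; exact p.2)
      (by rw [one_smul]; exact q.2)
    have key : ∀ a b : VK P ρ o, Relation.ReflTransGen (fun a b : VK P ρ o =>
        (hpa P ρ o).K.Adj a b ∧ KV P ρ o ((1 : Γ) • a.1) ∧ KV P ρ o ((1 : Γ) • b.1)) a b →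
        (hpa P ρ o).K.Reachable a b := by
      intro a b hab
      induction hab with
      | refl => exact SimpleGraph.Reachable.refl _
      | tail _ h ih => exact ih.trans h.1.reachable
    exact key p q h
  · intro u v huv
    rcases KV.adj_bt hT hiso hP u.2 v.2 huv with ⟨h1, h2⟩ | ⟨h1, h2⟩
    · exact hpa_pot hT hiso hP u v huv h1 h2
    · have hvu : dist v.1 u.1 = 2 := by rw [dist_comm]; exact huv
      obtain ⟨f, hf1, hf2⟩ := hpa_pot hT hiso hP v u hvu h1 h2
      exact ⟨f, hf1.symm, fun a b hab hne => (hf2 a b hab hne).symm⟩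

include hiso in
theorem len_inv (u : FreeGroup S) : len ρ o u⁻¹ = len ρ o u := by
  unfold len
  rw [← hiso (ρ u) o (ρ u⁻¹ • o), smul_smul, ← map_mul, mul_inv_cancel, map_one, one_smul,
    dist_comm]

include hT hiso in
theorem hpa_good (hP : HP P (len ρ o)) : (hpa P ρ o).Good where
  tree := hpa_tree hT hiso hP
  adj s p q hp hq h := by
    rw [hpa_adj, hpa_act hp, hpa_act hq, hiso]
    exact h
  conn s p q hp hq := by
    obtain ⟨n, hn⟩ := dist_nat hT hiso hP p q
    exact conn_aux hT hiso hP (ρ (FreeGroup.of s)) n p q hn hp hq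
  ne s := ⟨⟨o, KV.base hP⟩, KV.end' hP (hP.of s)⟩
  colK p q h := by
    classical
    have key : ∀ a b : VK P ρ o, dist o b.1 = dist o a.1 + 2 →
        (hpa P ρ o).col a ≠ (hpa P ρ o).col b := by
      intro a b hab hcol
      have h1 : (∃ k : ℤ, dist o a.1 = 4 * k) ↔ (∃ k : ℤ, dist o b.1 = 4 * k) := by
        have := hcol
        simp only [hpa] at this
        exact decide_eq_decide.1 this
      obtain ⟨m, hm⟩ := a.2.2
      rcases Int.even_or_odd' m with ⟨c, hc | hc⟩
      · obtain ⟨k, hk⟩ := h1.1 ⟨c, by rw [hm, hc]; push_cast; ring⟩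
        rw [hab, hm, hc] at hk
        have : (2 * (2 * c) + 2 : ℤ) = 4 * k := by
          have h3 : ((2 * (2 * c) + 2 : ℤ) : ℝ) = ((4 * k : ℤ) : ℝ) := by
            push_cast at hk ⊢; linarith
          exact_mod_cast h3
        omega
      · obtain ⟨k, hk⟩ := h1.2 ⟨c + 1, by rw [hab, hm, hc]; push_cast; ring⟩
        rw [hm, hc] at hk
        have : (2 * (2 * c + 1) : ℤ) = 4 * k := by
          have h3 : ((2 * (2 * c + 1) : ℤ) : ℝ) = ((4 * k : ℤ) : ℝ) := by
            push_cast at hk ⊢; linarith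
          exact_mod_cast h3
        omega
    rcases KV.adj_bt hT hiso hP p.2 q.2 h with ⟨_, h2⟩ | ⟨_, h2⟩
    · exact key p q h2
    · exact (key q p h2).symm
  colact s p hp := by
    classical
    simp only [hpa]
    change decide (∃ k : ℤ, dist o ((hpa P ρ o).act s p).1 = 4 * k) = _
    rw [hpa_act hp]
    apply decide_eq_decide.2
    have h1 : dist o (ρ (FreeGroup.of s) • p.1) = dist (ρ (FreeGroup.of s)⁻¹ • o) p.1 := by
      rw [← hiso (ρ (FreeGroup.of s)⁻¹) o, smul_smul, ← map_mul, inv_mul_cancel, map_one, one_smul]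
    obtain ⟨m, hm⟩ := KV.dist_eq hT hiso hP (KV.end' hP (hP.inv s)) p.2
    obtain ⟨c, hc⟩ := hP.four s
    have h2 : dist o (ρ (FreeGroup.of s)⁻¹ • o) = 4 * c := by
      rw [← hc, ← len_inv hiso]; rfl
    rw [h1, hm, h2]
    constructor
    · rintro ⟨k, hk⟩
      exact ⟨k - c + m, by push_cast; linarith⟩
    · rintro ⟨k, hk⟩
      exact ⟨k + c - m, by push_cast; linarith⟩

end

end Pool.Agent.FrR
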