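import Pool.Agent.Lib.MP_305fdd_al.Fr.R.Hull
import Pool.Agent.Lib.MP_305fdd_al.Fr.Z.Basic

/-!
# Words of bands and words of letters

The integral system `X` of a ball, realised in a tree: words of bands valid at odd points correspond
to words of letters applied to edges of the hull.
-/

set_option autoImplicit false

namespace Pool.Agent.FrR

open Pool.Agent.FrZ

section cast
variable {J I : Type} (X : Sys J I ℤ)

/-- the real system -/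
def toR (X : Sys J I ℤ) : Sys J I ℝ := X.map (fun n : ℤ => (n : ℝ))

theorem toR_dl (σ : J × Bool) : (toR X).dl σ = (X.dl σ : ℝ) := by
  unfold Sys.dl toR
  split_ifs <;> rfl

theorem toR_l (j : J) : (toR X).l j = (X.l j : ℝ) := rfl

theorem toR_mvx (σ : J × Bool) (x : ℤ) : (toR X).mvx σ (x : ℝ) = (X.mvx σ x : ℝ) := by
  unfold Sys.mvx
  rw [toR_dl, toR_dl, toR_l]
  show (if X.fl σ.1 then _ else _) = _
  split_ifs <;> push_cast <;> rfl

theorem toR_mv (σ : J × Bool) (x : ℤ) (d : Bool) :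
    (toR X).mv σ ((x : ℝ), d) = (((X.mv σ (x, d)).1 : ℝ), (X.mv σ (x, d)).2) := by
  unfold Sys.mv
  rw [toR_mvx]
  rfl

theorem toR_OK (σ : J × Bool) (x : ℤ) (d : Bool) :
    (toR X).OK 0 σ ((x : ℝ), d) ↔ X.OK 0 σ (x, d) := by
  rw [Sys.OK_iff, Sys.OK_iff, toR_dl, toR_l, add_zero, add_zero, add_zero, add_zero]
  constructor
  · rintro ⟨h1, h2⟩
    exact ⟨by exact_mod_cast h1, by exact_mod_cast h2⟩
  · rintro ⟨h1, h2⟩
    exact ⟨by exact_mod_cast h1, by exact_mod_cast h2⟩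

end cast

section
variable {S Γ T : Type} [Group Γ] [MetricSpace T] [MulAction Γ T]
variable {ρ : FreeGroup S →* Γ} {o : T} {P : Finset (FreeGroup S)} {ℓ₀ lo : FreeGroup S → ℝ}

/-- all parameters are even -/
structure Ev {J I : Type} (X : Sys J I ℤ) : Prop where
  a : ∀ j, Even (X.a j)
  b : ∀ j, Even (X.b j)
  l : ∀ j, Even (X.l j)
  lo : ∀ i, Even (X.lo i)
  hi : ∀ i, Even (X.hi i)

theorem Ev.dl {J I : Type} {X : Sys J I ℤ} (h : Ev X) (σ : J × Bool) : Even (X.dl σ) := by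
  unfold Sys.dl
  split_ifs
  · exact h.a _
  · exact h.b _

theorem Ev.mvx {J I : Type} {X : Sys J I ℤ} (h : Ev X) (σ : J × Bool) {x : ℤ} (hx : Odd x) :
    Odd (X.mvx σ x) := by
  obtain ⟨a, ha⟩ := h.dl σ
  obtain ⟨b, hb⟩ := h.dl (inv σ)
  obtain ⟨c, hc⟩ := h.l σ.1
  obtain ⟨k, hk⟩ := hx
  unfold Sys.mvx
  split_ifs
  · exact ⟨b + a + c - k - 1, by rw [ha, hb, hc, hk]; ring⟩
  · exact ⟨b + k - a, by rw [ha, hb, hk]; ring⟩

/-- sign of a direction -/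
def sgn (d : Bool) : ℝ := if d then 1 else -1

/-- The pair of vertices `(y, z)` is the unit edge with midpoint `x` in the component `i`,
in direction `d`. -/
def Rep (ρ : FreeGroup S →* Γ) (o : T) (lo : FreeGroup S → ℝ) (X : Sys (Jx P ℓ₀) (Ix P ℓ₀) ℤ)
    (i : Ix P ℓ₀) (x : ℤ) (d : Bool) (y z : T) : Prop :=
  X.lo i < x ∧ x < X.hi i ∧ Odd x ∧ y = rea ρ o lo i (x - sgn d) ∧ z = rea ρ o lo i (x + sgn d)

variable (hT : IsRT T) (hiso : ∀ (g : Γ) (p q : T), dist (g • p) (g • q) = dist p q)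
  (hC : Cp P ℓ₀ (len ρ o)) (hP : HP P (len ρ o)) {X : Sys (Jx P ℓ₀) (Ix P ℓ₀) ℤ}
  (hX : toR X = bsys P ℓ₀ (len ρ o) lo) (hG : X.Good) (hE : Ev X)

include hX in
theorem lo_eq (i : Ix P ℓ₀) : (X.lo i : ℝ) = lo i.1 := by
  have := congrArg (fun Y : Sys (Jx P ℓ₀) (Ix P ℓ₀) ℝ => Y.lo i) hX
  exact this

include hX in
theorem hi_eq (i : Ix P ℓ₀) : (X.hi i : ℝ) = lo i.1 + len ρ o i.1 := by
  have := congrArg (fun Y : Sys (Jx P ℓ₀) (Ix P ℓ₀) ℝ => Y.hi i) hX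
  exact this

theorem odd_between {a b x : ℤ} (ha : Even a) (hb : Even b) (hx : Odd x) (h1 : a ≤ x)
    (h2 : x ≤ b) : a + 1 ≤ x ∧ x + 1 ≤ b := by
  obtain ⟨c, hc⟩ := ha
  obtain ⟨d, hd⟩ := hb
  obtain ⟨k, hk⟩ := hx
  omega

theorem sgn_abs (d : Bool) : -1 ≤ sgn d ∧ sgn d ≤ 1 := by
  cases d <;> simp [sgn]

include hX hE in
/-- the real bounds of a representation -/
theorem Rep.bounds {i : Ix P ℓ₀} {x : ℤ} {d : Bool} {y z : T} (h : Rep ρ o lo X i x d y z) :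
    lo i.1 + 1 ≤ x ∧ (x : ℝ) + 1 ≤ lo i.1 + len ρ o i.1 := by
  obtain ⟨h1, h2, h3, -, -⟩ := h
  obtain ⟨h4, h5⟩ := odd_between (hE.lo i) (hE.hi i) h3 h1.le h2.le
  rw [← hi_eq hX, ← lo_eq hX]
  constructor
  · exact_mod_cast h4
  · exact_mod_cast h5

include hT hX hE in
theorem Rep.spec {i : Ix P ℓ₀} {x : ℤ} {d : Bool} {y z : T} (h : Rep ρ o lo X i x d y z) :
    Bt o y (ρ i.1 • o) ∧ dist o y = x - sgn d - lo i.1 ∧ Bt o z (ρ i.1 • o) ∧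
      dist o z = x + sgn d - lo i.1 := by
  have hb := h.bounds hX hE
  obtain ⟨h1, h2, h3, h4, h5⟩ := h
  have hs := sgn_abs d
  have a1 := rea_spec hT ρ o lo i (x := x - sgn d) (by linarith) (by linarith)
  have a2 := rea_spec hT ρ o lo i (x := x + sgn d) (by linarith) (by linarith)
  rw [h4, h5]
  exact ⟨a1.1, a1.2, a2.1, a2.2⟩

include hT hX hE in
theorem Rep.uniq {i : Ix P ℓ₀} {x x' : ℤ} {d d' : Bool} {y z : T} (h : Rep ρ o lo X i x d y z)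
    (h' : Rep ρ o lo X i x' d' y z) : x = x' ∧ d = d' := by
  obtain ⟨-, a1, -, a2⟩ := h.spec hT hX hE
  obtain ⟨-, b1, -, b2⟩ := h'.spec hT hX hE
  have e1 : (x : ℝ) = x' := by linarith
  have e2 : sgn d = sgn d' := by linarith
  refine ⟨by exact_mod_cast e1, ?_⟩
  cases d <;> cases d' <;> simp [sgn] at e2 ⊢ <;> norm_num at e2

include hT hX hE hP in
theorem Rep.kv {i : Ix P ℓ₀} {x : ℤ} {d : Bool} {y z : T} (h : Rep ρ o lo X i x d y z) :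
    KV P ρ o y ∧ KV P ρ o z := by
  obtain ⟨a1, a2, b1, b2⟩ := h.spec hT hX hE
  obtain ⟨-, -, ⟨k, hk⟩, -, -⟩ := h
  obtain ⟨m, hm⟩ := hE.lo i
  have hlo : lo i.1 = 2 * (m : ℝ) := by
    rw [← lo_eq hX, hm]; push_cast; ring
  have hx : (x : ℝ) = 2 * k + 1 := by rw [hk]; push_cast; ring
  cases d
  · refine ⟨⟨⟨i.1, i.2.1, a1⟩, k + 1 - m, ?_⟩, ⟨⟨i.1, i.2.1, b1⟩, k - m, ?_⟩⟩
    · rw [a2, hlo, hx]; simp [sgn]; ring
    · rw [b2, hlo, hx]; simp [sgn]; ring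
  · refine ⟨⟨⟨i.1, i.2.1, a1⟩, k - m, ?_⟩, ⟨⟨i.1, i.2.1, b1⟩, k + 1 - m, ?_⟩⟩
    · rw [a2, hlo, hx]; simp [sgn]; ring
    · rw [b2, hlo, hx]; simp [sgn]; ring

theorem comp_eq {J I : Type} {X : Sys J I ℤ} (hG : X.Good) {i i' : I} {x : ℤ} (h1 : X.lo i ≤ x)
    (h2 : x ≤ X.hi i) (h3 : X.lo i' ≤ x) (h4 : x ≤ X.hi i') : i = i' := by
  by_contra hne
  rcases hG.disj i i' hne with h | h <;> omega

include hT hiso hC hX hG hE in
/-- one step of a band at a unit edge -/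
theorem Rep.step {i : Ix P ℓ₀} {x : ℤ} {d : Bool} {y z : T} (h : Rep ρ o lo X i x d y z)
    (σ : Jx P ℓ₀ × Bool) (hσ : X.OK 0 σ (x, d)) :
    i = X.dc σ ∧ Rep ρ o lo X (X.dc (inv σ)) (X.mv σ (x, d)).1 (X.mv σ (x, d)).2
      (ρ (labJ P ℓ₀ (sg σ)) • y) (ρ (labJ P ℓ₀ (sg σ)) • z) := by
  obtain ⟨h1, h2, h3, h4, h5⟩ := h
  have hσ' := hσ
  rw [Sys.OK_iff, add_zero, add_zero] at hσ'
  have hdom := hG.dom σ
  have hi : i = X.dc σ := comp_eq hG h1.le h2.le (hdom.1.trans hσ'.1) (hσ'.2.trans hdom.2)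
  refine ⟨hi, ?_⟩
  subst hi
  obtain ⟨g1, g2⟩ := odd_between (hE.dl σ) ((hE.dl σ).add (hE.l σ.1)) h3 hσ'.1 hσ'.2
  have hodd := hE.mvx σ h3
  have hOK' : X.OK 0 (inv σ) (X.mv σ (x, d)) := (X.OK_mv 0 σ (x, d)).2 hσ
  have e1 : X.mv σ (x, d) = (X.mvx σ x, xor d (X.fl σ.1)) := rfl
  rw [e1] at hOK' ⊢
  rw [Sys.OK_iff, add_zero, add_zero] at hOK'
  obtain ⟨g3, g4⟩ := odd_between (hE.dl (inv σ)) ((hE.dl (inv σ)).add (hE.l (inv σ).1)) hodd
    hOK'.1 hOK'.2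
  have hdom' := hG.dom (inv σ)
  have hR := bsys_rln hT hiso ρ o lo hC
  have g1' : ((X.dl σ : ℤ) : ℝ) + 1 ≤ x := by exact_mod_cast g1
  have g2' : (x : ℝ) + 1 ≤ (X.dl σ : ℤ) + (X.l σ.1 : ℤ) := by exact_mod_cast g2
  have hmv : ∀ c : ℝ, -1 ≤ c → c ≤ 1 →
      rea ρ o lo (X.dc (inv σ)) ((X.mvx σ x : ℝ) + (if X.fl σ.1 then -c else c)) =
        ρ (labJ P ℓ₀ (sg σ)) • rea ρ o lo (X.dc σ) (x + c) := by
    intro c hc1 hc2
    have hb := hR.band σ (x + c)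
    rw [← hX] at hb
    rw [toR_dl, toR_l] at hb
    have hb' := hb (by linarith) (by linarith)
    have e2 : (toR X).mvx σ (x + c) = (X.mvx σ x : ℝ) + (if X.fl σ.1 then -c else c) := by
      rw [← toR_mvx]
      unfold Sys.mvx
      show (if X.fl σ.1 then _ else _) = (if X.fl σ.1 then _ else _) + _
      split_ifs <;> ring
    rw [e2] at hb'
    exact hb'
  have hs := sgn_abs d
  have e3 : sgn (xor d (X.fl σ.1)) = if X.fl σ.1 then - sgn d else sgn d := by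
    cases d <;> cases (X.fl σ.1) <;> simp [sgn]
  refine ⟨by show X.lo (X.dc (inv σ)) < X.mvx σ x; omega,
    by show X.mvx σ x < X.hi (X.dc (inv σ)); omega, hodd, ?_, ?_⟩
  · have h6 := hmv (- sgn d) (by linarith) (by linarith)
    rw [h4, sub_eq_add_neg, ← h6]
    congr 1
    rw [e3]
    split_ifs <;> ring
  · have h6 := hmv (sgn d) (by linarith) (by linarith)
    rw [h5, ← h6, e3]

end

end Pool.Agent.FrR
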