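import Pool.Agent.Lib.MP_305fdd_al.Fr.R.RT
import Pool.Agent.Lib.MP_305fdd_al.Fr.R.Stm

/-!
# MP_305fdd_al, F_r, Theorem R in Lean: the midpoint of `[p, g p]` is on the axis
-/

set_option autoImplicit false

namespace Pool.Agent.FrR

open Pool.Agent.FrZ

theorem p_ax : S_ax := by
  intro Γ T _ _ _ hT hiso g p hp
  obtain ⟨m, hm1, hm2⟩ := hT.geo p (g • p) (dist p (g • p) / 2)
    (by have := dist_nonneg (x := p) (y := g • p); linarith)
    (by have := dist_nonneg (x := p) (y := g • p); linarith)
  have hm : Bt p m (g • p) := by unfold Bt; rw [hm1, hm2]; ring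
  have hgm : Bt (g • p) (g • m) (g • g • p) := by
    unfold Bt at hm ⊢
    rw [hiso, hiso, hiso]
    exact hm
  have e1 : dist (g • p) (g • m) = dist p (g • p) / 2 := by rw [hiso, hm1]
  have e2 : dist (g • m) (g • g • p) = dist p (g • p) / 2 := by rw [hiso, hm2]; ring
  have e3 : dist m (g • p) = dist p (g • p) / 2 := by rw [hm2]; ring
  have f1 : dist (g • g • p) (g • g • g • p) = dist p (g • p) := by rw [hiso, hiso]
  have f2 : dist (g • p) (g • g • g • p) = dist p (g • g • p) := by rw [hiso]
  have f3 : dist (g • p) (g • g • p) = dist p (g • p) := by rw [hiso]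
  -- the distance of `p` and `g³ p`
  have d3 : dist p (g • g • g • p) = 2 * dist p (g • g • p) - dist p (g • p) := by
    have h1 := hT.hyp p (g • g • p) (g • p) (g • g • g • p)
    have h2 := hT.hyp p (g • g • g • p) (g • p) (g • g • p)
    rw [f1, f2, dist_comm (g • g • p) (g • p), f3] at h1
    rw [dist_comm (g • g • g • p) (g • g • p), f1, dist_comm (g • g • g • p) (g • p), f2, f3] at h2
    rcases le_max_iff.1 h1 with h | h
    · linarith
    · rcases le_max_iff.1 h2 with h' | h' <;> linarith
  -- distances from `g m`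
  have g1 : dist p (g • m) = dist p (g • g • p) - dist p (g • p) / 2 := by
    rw [proj hT hgm p, e1, e2, max_eq_right]
    linarith
  have g2 : dist m (g • m) = dist p (g • g • p) - dist p (g • p) := by
    rw [dist_comm, proj hT hm (g • m), hm1, e3, dist_comm (g • m) p, g1, dist_comm (g • m) (g • p),
      e1, max_eq_left]
    · ring
    · linarith
  have hggm : Bt (g • g • p) (g • g • m) (g • g • g • p) := by
    unfold Bt at hgm ⊢
    rw [hiso g (g • p) (g • m), hiso g (g • m) (g • g • p), hiso g (g • p) (g • g • p)]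
    exact hgm
  have k1 : dist (g • g • p) (g • g • m) = dist p (g • p) / 2 := by rw [hiso, e1]
  have k2 : dist (g • g • m) (g • g • g • p) = dist p (g • p) / 2 := by rw [hiso, e2]
  have k3 : dist p (g • g • m) = 2 * dist p (g • g • p) - 3 / 2 * dist p (g • p) := by
    rw [proj hT hggm p, k1, k2, d3, max_eq_right]
    · ring
    · linarith
  have k4 : dist (g • p) (g • g • m) = dist p (g • g • p) - dist p (g • p) / 2 := by
    rw [hiso, g1]
  have k5 : dist m (g • g • m) = 2 * (dist p (g • g • p) - dist p (g • p)) := by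
    rw [dist_comm, proj hT hm (g • g • m), hm1, e3, dist_comm (g • g • m) p, k3,
      dist_comm (g • g • m) (g • p), k4, max_eq_left]
    · ring
    · linarith
  refine ⟨m, ?_, ?_⟩
  · rw [g2]; linarith
  · rw [k5, g2]

end Pool.Agent.FrR
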