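import Pool.Agent.Lib.MP_305fdd_al.Fr.R.Stm

/-!
# MP_305fdd_al, F_r, Theorem R: finite presentability does not depend on the generators
-/

set_option autoImplicit false

namespace Pool.Agent.FrR

theorem p_fp : S_fp := by
  intro G S₀ S _ _ _ π₀ R₀ h₀ hk π hπ
  have hα : ∀ s : S, ∃ x, π₀ x = π (FreeGroup.of s) := fun s => h₀ _
  have hβ : ∀ s : S₀, ∃ x, π x = π₀ (FreeGroup.of s) := fun s => hπ _
  choose a ha using hα
  choose b hb using hβ
  let α : FreeGroup S →* FreeGroup S₀ := FreeGroup.lift a
  let β : FreeGroup S₀ →* FreeGroup S := FreeGroup.lift b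
  have h1 : π₀.comp α = π := by
    ext s
    simp [α, ha]
  have h2 : π.comp β = π₀ := by
    ext s
    simp [β, hb]
  let N : Set (FreeGroup S) := β '' (R₀ : Set (FreeGroup S₀)) ∪
    Set.range fun s : S => (FreeGroup.of s)⁻¹ * β (α (FreeGroup.of s))
  have hN : N.Finite := (R₀.finite_toSet.image _).union (Set.finite_range _)
  refine ⟨hN.toFinset, ?_⟩
  rw [Set.Finite.coe_toFinset]
  refine le_antisymm ?_ (Subgroup.normalClosure_le_normal ?_)
  · let q := QuotientGroup.mk' (Subgroup.normalClosure N)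
    have hq : ∀ x, q x = 1 ↔ x ∈ Subgroup.normalClosure N := fun x =>
      QuotientGroup.eq_one_iff x
    have h3 : q = (q.comp β).comp α := by
      ext s
      have h4 := (hq _).mpr (Subgroup.subset_normalClosure
        (Or.inr ⟨s, rfl⟩ : (FreeGroup.of s)⁻¹ * β (α (FreeGroup.of s)) ∈ N))
      rw [map_mul, map_inv, inv_mul_eq_one] at h4
      exact h4
    have h5 : π₀.ker ≤ (q.comp β).ker := by
      rw [hk]
      refine Subgroup.normalClosure_le_normal ?_
      intro r hr
      exact (hq _).mpr (Subgroup.subset_normalClosure (Or.inl ⟨r, hr, rfl⟩))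
    intro w hw
    rw [← hq, h3]
    have h6 : α w ∈ π₀.ker := by
      rw [MonoidHom.mem_ker, ← MonoidHom.comp_apply, h1]
      exact hw
    exact h5 h6
  · rintro _ (⟨r, hr, rfl⟩ | ⟨s, rfl⟩)
    · change π (β r) = 1
      rw [← MonoidHom.comp_apply, h2]
      have : r ∈ π₀.ker := by
        rw [hk]
        exact Subgroup.subset_normalClosure hr
      exact this
    · change π ((FreeGroup.of s)⁻¹ * β (α (FreeGroup.of s))) = 1
      rw [map_mul, map_inv, ← MonoidHom.comp_apply π, h2, ← MonoidHom.comp_apply π₀, h1,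
        inv_mul_cancel]

end Pool.Agent.FrR
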