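import Pool.Agent.Lib.MP_305fdd_al.Fr.R.RT
import Pool.Agent.Lib.MP_305fdd_al.Fr.R.Stm

/-!
# MP_305fdd_al, F_r, Theorem R in Lean: `g₀ᴺ s g₀ᴺ` has the base point on its axis
-/

set_option autoImplicit false

namespace Pool.Agent.FrR

open Pool.Agent.FrZ

section
variable {T : Type} [MetricSpace T] (hT : IsRT T)
include hT

/-- the local criterion for geodesics -/
theorem Bt.loc {a b c d : T} (h : Bt a b c) (h' : Bt b c d) (hne : b ≠ c) :
    dist a d = dist a b + dist b c + dist c d := by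
  have h1 := hT.hyp a c b d
  have h2 := dist_triangle4 a b c d
  have h3 := dist_pos.2 hne
  unfold Bt at h h'
  rw [dist_comm c b] at h1
  rcases le_max_iff.1 h1 with h4 | h4 <;> linarith

theorem Bt.loc_l {a b c d : T} (h : Bt a b c) (h' : Bt b c d) (hne : b ≠ c) : Bt a b d := by
  have h1 := h.loc hT h' hne
  unfold Bt at h h' ⊢
  linarith

theorem Bt.loc_r {a b c d : T} (h : Bt a b c) (h' : Bt b c d) (hne : b ≠ c) : Bt a c d := by
  have h1 := h.loc hT h' hne
  unfold Bt at h h' ⊢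
  linarith

/-- directions at `y` -/
theorem Bt.dir {o x y c : T} (h : Bt o y c) (h' : ¬ Bt x y c) : Bt o y x := by
  have h1 := hT.hyp o c y x
  have h2 := dist_triangle o y x
  have h3 := dist_triangle x y c
  have h4 : dist x c ≠ dist x y + dist y c := fun he => h' he.symm
  have h5 := lt_of_le_of_ne h3 h4
  unfold Bt at h ⊢
  rw [dist_comm y x, dist_comm c x, dist_comm c y] at h1
  rw [dist_comm y x] at h2 ⊢
  rcases le_max_iff.1 h1 with h6 | h6 <;> linarith

end

section ray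
variable {T : Type} [MetricSpace T]

/-- a ray -/
def Ray (u : ℕ → T) (ℓ : ℝ) : Prop := ∀ m n, m ≤ n → dist (u m) (u n) = ((n : ℝ) - m) * ℓ

theorem Ray.bt {u : ℕ → T} {ℓ : ℝ} (h : Ray u ℓ) {a b c : ℕ} (hab : a ≤ b) (hbc : b ≤ c) :
    Bt (u a) (u b) (u c) := by
  unfold Bt
  rw [h a b hab, h b c hbc, h a c (hab.trans hbc)]
  ring

theorem Ray.ne {u : ℕ → T} {ℓ : ℝ} (h : Ray u ℓ) (hl : 0 < ℓ) {a b : ℕ} (hab : a < b) :
    u a ≠ u b := by
  intro he
  have h1 := h a b hab.le
  rw [he, dist_self] at h1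
  have h2 : (0 : ℝ) < (b : ℝ) - a := by
    have : (a : ℝ) < b := by exact_mod_cast hab
    linarith
  have := mul_pos h2 hl
  linarith

/-- far points of a ray point away from a given point -/
theorem Ray.far {u : ℕ → T} {ℓ : ℝ} (hT : IsRT T) (h : Ray u ℓ) (hl : 0 < ℓ) (q : T) :
    ∃ M : ℕ, ∀ m, M ≤ m → Bt q (u m) (u (m + 1)) := by
  obtain ⟨M, hM⟩ := exists_nat_gt (dist (u 0) q / ℓ)
  refine ⟨M, fun m hm => ?_⟩
  by_contra hc
  have h1 := (h.bt (Nat.zero_le m) (Nat.le_succ m)).dir hT hc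
  unfold Bt at h1
  rw [h 0 m (Nat.zero_le _)] at h1
  have h2 := dist_nonneg (x := u m) (y := q)
  have h3 : (M : ℝ) ≤ m := by exact_mod_cast hm
  rw [div_lt_iff₀ hl] at hM
  have h4 := mul_le_mul_of_nonneg_right h3 hl.le
  push_cast at h1
  nlinarith

end ray

theorem Bt.smul {Γ T : Type} [Group Γ] [MetricSpace T] [MulAction Γ T]
    (hiso : ∀ (g : Γ) (p q : T), dist (g • p) (g • q) = dist p q) (g : Γ) {a b c : T}
    (h : Bt a b c) : Bt (g • a) (g • b) (g • c) := by
  unfold Bt at h ⊢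
  rw [hiso, hiso, hiso]
  exact h

section axis
variable {Γ T : Type} [Group Γ] [MetricSpace T] [MulAction Γ T] (hT : IsRT T)
  (hiso : ∀ (g : Γ) (p q : T), dist (g • p) (g • q) = dist p q)
include hT hiso

theorem dist_pow {g : Γ} {o : T} (h0 : 0 < dist o (g • o))
    (h2 : dist o (g • g • o) = 2 * dist o (g • o)) (k : ℕ) :
    dist o (g ^ k • o) = k * dist o (g • o) ∧
      dist o (g ^ (k + 1) • o) = ((k + 1 : ℕ) : ℝ) * dist o (g • o) := by
  induction k with
  | zero => simp
  | succ k ih =>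
    refine ⟨ih.2, ?_⟩
    have e1 : dist (g ^ k • o) (g ^ (k + 1) • o) = dist o (g • o) := by
      rw [pow_succ, mul_smul, hiso]
    have e2 : dist (g ^ (k + 1) • o) (g ^ (k + 1 + 1) • o) = dist o (g • o) := by
      rw [pow_succ g (k + 1), mul_smul, hiso]
    have e3 : dist (g ^ k • o) (g ^ (k + 1 + 1) • o) = 2 * dist o (g • o) := by
      rw [pow_succ, pow_succ, mul_smul, mul_smul, hiso, h2]
    have b1 : Bt o (g ^ k • o) (g ^ (k + 1) • o) := by
      unfold Bt
      rw [ih.1, ih.2, e1]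
      push_cast
      ring
    have b2 : Bt (g ^ k • o) (g ^ (k + 1) • o) (g ^ (k + 1 + 1) • o) := by
      unfold Bt
      rw [e1, e2, e3]
      ring
    have hne : g ^ k • o ≠ g ^ (k + 1) • o := by
      intro he
      rw [he, dist_self] at e1
      linarith
    rw [b1.loc hT b2 hne, ih.1, e1, e2]
    push_cast
    ring

theorem ray_pow {g : Γ} {o : T} (h0 : 0 < dist o (g • o))
    (h2 : dist o (g • g • o) = 2 * dist o (g • o)) (s : Γ) :
    Ray (fun n => s • g ^ n • o) (dist o (g • o)) := by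
  intro m n hmn
  obtain ⟨k, rfl⟩ := Nat.exists_eq_add_of_le hmn
  show dist (s • g ^ m • o) (s • g ^ (m + k) • o) = _
  rw [hiso, pow_add, mul_smul, hiso, (dist_pow hT hiso h0 h2 k).1]
  push_cast
  ring

theorem axis_inv {g : Γ} {o : T} (h0 : 0 < dist o (g • o))
    (h2 : dist o (g • g • o) = 2 * dist o (g • o)) :
    dist o (g⁻¹ • o) = dist o (g • o) ∧ dist o (g⁻¹ • g⁻¹ • o) = 2 * dist o (g⁻¹ • o) := by
  have e1 : dist o (g⁻¹ • o) = dist o (g • o) := by
    rw [← hiso g, smul_inv_smul, dist_comm]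
  refine ⟨e1, ?_⟩
  rw [e1, ← h2, ← hiso g, smul_inv_smul, ← hiso g, smul_inv_smul, dist_comm]

end axis

theorem p_gens : S_gens := by
  intro Γ T _ _ _ hT hS g o h0 h2 s
  have hiso := hS.isom
  obtain ⟨hi1, hi2⟩ := axis_inv hT hiso h0 h2
  set ℓ := dist o (g • o) with hℓ
  -- the rays
  obtain ⟨x, hxd⟩ : ∃ x : ℕ → T, ∀ m, x m = g⁻¹ ^ m • o := ⟨_, fun _ => rfl⟩
  obtain ⟨y, hyd⟩ : ∃ y : ℕ → T, ∀ n, y n = s • g ^ n • o := ⟨_, fun _ => rfl⟩
  have hx : Ray x ℓ := by
    have h := ray_pow hT hiso (g := g⁻¹) (o := o) (by rw [hi1]; exact h0) hi2 1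
    rw [hi1] at h
    have : x = fun n => (1 : Γ) • g⁻¹ ^ n • o := by
      funext n
      rw [hxd, one_smul]
    rw [this]
    exact h
  have hy : Ray y ℓ := by
    have : y = fun n => s • g ^ n • o := funext hyd
    rw [this]
    exact ray_pow hT hiso h0 h2 s
  have hx0 : x 0 = o := by rw [hxd, pow_zero, one_smul]
  have bto : Bt (g⁻¹ • o) o (g • o) := by
    unfold Bt
    rw [dist_comm (g⁻¹ • o) o, hi1, ← hiso g (g⁻¹ • o), smul_inv_smul, h2]
    ring
  by_cases hc : ∃ m n, Bt (x (m + 1)) (x m) (y n) ∧ Bt (x m) (y n) (y (n + 1)) ∧ x m ≠ y n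
  · -- the rays are not asymptotic
    obtain ⟨m, n, c1, c2, c3⟩ := hc
    have d1 : ∀ a, m ≤ a → Bt (x a) (x m) (y n) := by
      intro a ha
      rcases Nat.eq_or_lt_of_le ha with rfl | ha
      · exact Bt.left _ _
      · exact (hx.bt (Nat.le_succ m) ha).symm.loc_r hT c1 (hx.ne h0 (Nat.lt_succ_self m)).symm
    have d2 : ∀ b, n ≤ b → Bt (x m) (y n) (y b) := by
      intro b hb
      rcases Nat.eq_or_lt_of_le hb with rfl | hb
      · exact Bt.right _ _
      · exact c2.loc_l hT (hy.bt (Nat.le_succ n) hb) (hy.ne h0 (Nat.lt_succ_self n))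
    have d3 : ∀ a b, m ≤ a → n ≤ b →
        dist (x a) (y b) = ((a : ℝ) - m) * ℓ + dist (x m) (y n) + ((b : ℝ) - n) * ℓ := by
      intro a b ha hb
      rw [(d1 a ha).loc hT (d2 b hb) c3, dist_comm (x a) (x m), hx m a ha, hy n b hb]
    refine ⟨max m n + 1, fun N hN => ?_⟩
    obtain ⟨K, rfl⟩ : ∃ K, N = K + 1 := ⟨N - 1, by omega⟩
    have hmK : m ≤ K := by omega
    have hnK : n ≤ K := by omega
    have b1 : Bt (x (K + 1)) (x K) (y (K + 1)) := by
      unfold Bt
      rw [d3 K (K + 1) (by omega) (by omega), d3 (K + 1) (K + 1) (by omega) (by omega), dist_comm,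
        hx K (K + 1) (by omega)]
      push_cast
      ring
    have b2 : Bt (x (K + 1)) (y K) (y (K + 1)) := by
      unfold Bt
      rw [d3 (K + 1) K (by omega) (by omega), d3 (K + 1) (K + 1) (by omega) (by omega),
        hy K (K + 1) (by omega)]
      push_cast
      ring
    set h : Γ := g ^ (K + 1) * s * g ^ (K + 1) with hh
    have u1 : g ^ (K + 1) • x (K + 1) = o := by
      rw [hxd, ← mul_smul, inv_pow, mul_inv_cancel, one_smul]
    have u2 : g ^ (K + 1) • x K = g • o := by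
      rw [hxd, ← mul_smul, inv_pow, pow_succ', mul_assoc, mul_inv_cancel, mul_one]
    have u3 : g ^ (K + 1) • y (K + 1) = h • o := by
      rw [hyd, hh, mul_smul, mul_smul]
    have v1 : (s * g ^ (K + 1))⁻¹ • y (K + 1) = o := by
      rw [hyd, ← mul_smul s, inv_smul_smul]
    have v2 : (s * g ^ (K + 1))⁻¹ • y K = g⁻¹ • o := by
      rw [hyd, ← mul_smul s, ← mul_smul]
      congr 1
      rw [pow_succ]
      group
    have v3 : (s * g ^ (K + 1))⁻¹ • x (K + 1) = h⁻¹ • o := by
      rw [hxd, ← mul_smul, hh]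
      congr 1
      group
    have w1 : Bt o (g • o) (h • o) := by
      have := Bt.smul hiso (g ^ (K + 1)) b1
      rwa [u1, u2, u3] at this
    have w2 : Bt (h⁻¹ • o) (g⁻¹ • o) o := by
      have := Bt.smul hiso (s * g ^ (K + 1))⁻¹ b2
      rwa [v1, v2, v3] at this
    have n1 : g⁻¹ • o ≠ o := by
      intro he
      rw [he, dist_self] at hi1
      linarith
    have n2 : o ≠ g • o := dist_pos.1 h0
    have w3 : Bt (h⁻¹ • o) o (g • o) := w2.loc_r hT bto n1
    have w4 : Bt (h⁻¹ • o) o (h • o) := w3.loc_l hT w1 n2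
    have p1 : dist o (h • o) = dist (x (K + 1)) (y (K + 1)) := by
      rw [← u3]
      nth_rewrite 1 [← u1]
      rw [hiso]
    have p2 : dist (h⁻¹ • o) o = dist o (h • o) := by
      rw [← hiso h, smul_inv_smul]
    refine ⟨?_, ?_⟩
    · rw [p1, d3 _ _ (by omega) (by omega)]
      have q1 := dist_pos.2 c3
      have q2 : (0 : ℝ) ≤ (((K + 1 : ℕ) : ℝ) - m) * ℓ := by
        apply mul_nonneg _ h0.le
        have : (m : ℝ) ≤ ((K + 1 : ℕ) : ℝ) := by exact_mod_cast (by omega : m ≤ K + 1)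
        linarith
      have q3 : (0 : ℝ) ≤ (((K + 1 : ℕ) : ℝ) - n) * ℓ := by
        apply mul_nonneg _ h0.le
        have : (n : ℝ) ≤ ((K + 1 : ℕ) : ℝ) := by exact_mod_cast (by omega : n ≤ K + 1)
        linarith
      linarith
    · have : dist o (h • h • o) = dist (h⁻¹ • o) (h • o) := by
        rw [← hiso h (h⁻¹ • o), smul_inv_smul]
      rw [this, ← w4, p2]
      ring
  · -- the rays are asymptotic: contradiction
    exfalso
    have hc' : ∀ m n, x m ≠ y n → Bt (x (m + 1)) (x m) (y n) → ¬ Bt (x m) (y n) (y (n + 1)) :=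
      fun m n a b c => hc ⟨m, n, b, c, a⟩
    obtain ⟨n1, hn1⟩ := hy.far hT h0 o
    have hR : ∀ n, n1 ≤ n → ∃ M : ℕ, ∀ m, M ≤ m → Bt o (y n) (x m) := by
      intro n hn
      obtain ⟨M, hM⟩ := hx.far hT h0 (y n)
      obtain ⟨M', hM'⟩ := exists_nat_gt (dist o (y n) / ℓ)
      refine ⟨max M M', fun m hm => ?_⟩
      have hne : x m ≠ y n := by
        intro he
        have h3 := hx 0 m (Nat.zero_le _)
        rw [hx0, he] at h3
        rw [div_lt_iff₀ h0] at hM'
        have h4 : (M' : ℝ) ≤ m := by exact_mod_cast (le_max_right _ _).trans hm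
        have h5 := mul_le_mul_of_nonneg_right h4 h0.le
        push_cast at h3
        nlinarith
      exact (hn1 n hn).dir hT (hc' m n hne (hM m ((le_max_left _ _).trans hm)).symm)
    -- `g⁻¹ y n = y (n + 1)`
    have hstep : ∀ n, n1 ≤ n → g⁻¹ • y n = y (n + 1) := by
      intro n hn
      obtain ⟨M1, hM1⟩ := hR n hn
      obtain ⟨M2, hM2⟩ := hR (n + 1) (by omega)
      set m := max M1 M2 with hm
      have a1 := hM1 m (le_max_left _ _)
      have a2 := hM2 (m + 1) ((le_max_right _ _).trans (Nat.le_succ _))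
      have e1 : g⁻¹ • o = x 1 := by rw [hxd, pow_one]
      have e2 : g⁻¹ • x m = x (m + 1) := by rw [hxd, hxd, ← mul_smul, pow_succ']
      have a3 : Bt (x 1) (g⁻¹ • y n) (x (m + 1)) := by
        have := Bt.smul hiso g⁻¹ a1
        rwa [e1, e2] at this
      have a4 := hx.bt (Nat.zero_le 1) (show 1 ≤ m + 1 by omega)
      rw [hx0] at a4
      have t1 := dist_triangle o (g⁻¹ • y n) (x (m + 1))
      have t2 := dist_triangle o (x 1) (g⁻¹ • y n)
      have a5 : Bt o (g⁻¹ • y n) (x (m + 1)) := by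
        unfold Bt at a3 a4 ⊢
        linarith
      have l1 : dist o (x 1) = ℓ := by
        rw [← e1, hi1]
      have l2 : dist (x 1) (g⁻¹ • y n) = dist o (y n) := by rw [← e1, hiso]
      have a6 : dist o (g⁻¹ • y n) = ℓ + dist o (y n) := by
        unfold Bt at a3 a4 a5
        linarith
      have a7 : dist o (y (n + 1)) = dist o (y n) + ℓ := by
        have := hn1 n hn
        unfold Bt at this
        rw [← this, hy n (n + 1) (by omega)]
        push_cast
        ring
      exact a5.uniq hT a2 (by rw [a6, a7]; ring)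
    have hsg : ∀ n, (s * g * s⁻¹) • y n = y (n + 1) := by
      intro n
      rw [hyd, hyd, ← mul_smul, ← mul_smul, ← mul_smul, pow_succ']
      congr 1
      group
    set z : Γ := g * (s * g * s⁻¹) with hz
    have hzf : ∀ n, n1 ≤ n → z • y n = y n := by
      intro n hn
      rw [hz, mul_smul, hsg, ← hstep n hn, smul_inv_smul]
    have hz'f : ∀ n, n1 ≤ n → (g⁻¹ * z * g⁻¹⁻¹) • y (n + 1) = y (n + 1) := by
      intro n hn
      rw [← hstep n hn, mul_smul, mul_smul, _root_.inv_inv, smul_inv_smul, hzf n hn]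
    have hcomm := hS.arc z (g⁻¹ * z * g⁻¹⁻¹) (y (n1 + 1)) (y (n1 + 1 + 1))
      (hy.ne h0 (Nat.lt_succ_self _)) (hzf _ (by omega)) (hzf _ (by omega)) (hz'f _ le_rfl)
      (hz'f _ (by omega))
    have hzg : z * g⁻¹ = g⁻¹ * z := by
      by_cases h1 : z = 1
      · rw [h1, one_mul, mul_one]
      · exact hS.csa z g⁻¹ h1 hcomm
    have hzg' : g * z = z * g := by
      have := congrArg (fun u => g * u * g) hzg
      simp only [mul_assoc, inv_mul_cancel, mul_one] at this
      rw [mul_inv_cancel_left] at this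
      exact this
    have g1 : g ≠ 1 := by
      intro he
      rw [hℓ, he, one_smul, dist_self] at h0
      exact lt_irrefl _ h0
    have h3 : g * (s * g * s⁻¹) = s * g * s⁻¹ * g := by
      have := hzg'
      rw [hz, mul_assoc g (s * g * s⁻¹) g] at this
      exact mul_left_cancel this
    have h4 := hS.csa g s g1 h3
    have h5 : s * g * s⁻¹ = g := by
      rw [← h4, mul_inv_cancel_right]
    have h6 := hsg n1
    rw [h5] at h6
    have h7 : y (n1 + 1 + 1) = y n1 := by
      rw [← hsg (n1 + 1), h5, ← hstep n1 le_rfl, smul_inv_smul]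
    exact hy.ne h0 (show n1 < n1 + 1 + 1 by omega) h7.symm

end Pool.Agent.FrR
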