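import Pool.Agent.Lib.MP_305fdd_al.Fr.R.Core
import Pool.Agent.Lib.MP_305fdd_al.Fr.R.P_ax
import Pool.Agent.Lib.MP_305fdd_al.Fr.R.P_gens
import Pool.Agent.Lib.MP_305fdd_al.Fr.R.P_fp

/-!
# Theorem R
-/

set_option autoImplicit false

namespace Pool.Agent.FrR

open Matrix Pool.Agent.FrZ Pool.Agent.FrT

theorem bo_surj {K : Type} [Field K] (V : RV K) (o : Tr V) : ∃ k0 τ, bo V k0 τ = o := by
  obtain ⟨⟨k0, τ⟩, h⟩ := cls_surj o
  exact ⟨k0, τ, h⟩

/-- THEOREM R -/
theorem p_R : S_R := by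
  classical
  intro k L G ι S₀ _ _ _ _ _ _ π₀ R₀ hπ₀ hker₀ A₀ hA₀ x hx ρ hSG hg E hEfg hEcomm hE0
  obtain ⟨g, hg0, hg1⟩ := hg
  have hRT := isRT x
  have hiso : ∀ (g : SpecialLinearGroup (Fin 2) L) (p q : Tr x), dist (g • p) (g • q) = dist p q :=
    fun g p q => dist_smul_eq g p q
  obtain ⟨o, ho1, ho2⟩ := p_ax (SpecialLinearGroup (Fin 2) L) (Tr x) hRT hiso (ρ g) (bp x)
    (dist_sq_lt hg0 hg1 (bp x))
  obtain ⟨k0, τ, rfl⟩ := bo_surj x o
  have hgens := p_gens ρ.range (Tr x) hRT hSG.small (ρ.rangeRestrict g) (bo x k0 τ) ho1 ho2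
  choose N0 hN0 using fun s : S₀ => hgens (ρ.rangeRestrict (π₀ (FreeGroup.of s)))
  obtain ⟨N, hN⟩ := (Set.finite_range N0).bddAbove
  set gen : Option S₀ → G := fun c => match c with
    | none => g
    | some s => g ^ N * π₀ (FreeGroup.of s) * g ^ N with hgen
  set π : FreeGroup (Option S₀) →* G := FreeGroup.lift gen with hπd
  have hpn : π (FreeGroup.of none) = g := by simp [hπd, hgen]
  have hps : ∀ s, π (FreeGroup.of (some s)) = g ^ N * π₀ (FreeGroup.of s) * g ^ N := fun s => by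
    simp [hπd, hgen]
  have hπ : Function.Surjective π := by
    have h1 : ∀ w, π₀ w ∈ π.range := by
      intro w
      have h2 : (π₀.range) ≤ π.range := by
        rw [MonoidHom.range_eq_map, ← FreeGroup.closure_range_of, MonoidHom.map_closure,
          Subgroup.closure_le]
        rintro _ ⟨_, ⟨s, rfl⟩, rfl⟩
        refine ⟨(FreeGroup.of none)⁻¹ ^ N * FreeGroup.of (some s) * (FreeGroup.of none)⁻¹ ^ N, ?_⟩
        rw [map_mul, map_mul, map_pow, map_inv, hpn, hps]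
        group
      exact h2 ⟨w, rfl⟩
    intro a
    obtain ⟨w, rfl⟩ := hπ₀ a
    exact h1 w
  obtain ⟨R, hR⟩ := p_fp G S₀ (Option S₀) π₀ R₀ hπ₀ hker₀ π hπ
  have hax : ∀ c : Option S₀, dist (bo x k0 τ) (ρ (π (FreeGroup.of c)) • ρ (π (FreeGroup.of c)) •
      bo x k0 τ) = 2 * dist (bo x k0 τ) (ρ (π (FreeGroup.of c)) • bo x k0 τ) := by
    intro c
    cases c with
    | none => rw [hpn]; exact ho2
    | some s =>
      have h1 := (hN0 s N (hN ⟨s, rfl⟩)).2
      have h2 : ρ (π (FreeGroup.of (some s))) =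
          (((ρ.rangeRestrict g) ^ N * ρ.rangeRestrict (π₀ (FreeGroup.of s)) *
            (ρ.rangeRestrict g) ^ N : ρ.range) : SpecialLinearGroup (Fin 2) L) := by
        rw [hps, map_mul, map_mul, map_pow]
        rfl
      rw [h2]
      exact h1
  exact core k L G ι (Option S₀) π R hπ hR A₀ hA₀ x hx ρ hSG k0 τ hax none
    (by rw [hpn]; exact ho1) E hEfg hEcomm hE0

end Pool.Agent.FrR
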