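import Pool.Agent.Lib.MP_305fdd_al.Fr.R.Vis

/-!
# Moving an edge of the hull into `[o, s o]`, geodesic walks
-/

set_option autoImplicit false

namespace Pool.Agent.FrR

section
variable {S Γ T : Type} [Finite S] [Group Γ] [MetricSpace T] [MulAction Γ T]
variable {ρ : FreeGroup S →* Γ} {o : T}
variable (hT : IsRT T) (hiso : ∀ (g : Γ) (p q : T), dist (g • p) (g • q) = dist p q) {n : ℕ}

include hT hiso in
/-- moving an edge into `[o, s o]` -/
theorem move (hP : HP (ball S n) (len ρ o)) : ∀ (l : List (S × Bool)), l.length ≤ n →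
    ∀ y z : VK (ball S n) ρ o, dist y.1 z.1 = 2 → Bt o y.1 z.1 →
    Bt o z.1 (ρ (FreeGroup.mk l) • o) →
    ∃ (γ : List (S × Bool)) (σ : S × Bool) (y1 z1 : VK (ball S n) ρ o),
      (hpa (ball S n) ρ o).Path γ y y1 ∧ (hpa (ball S n) ρ o).Path γ z z1 ∧
      dist y1.1 z1.1 = 2 ∧ Bt o y1.1 z1.1 ∧ Bt o z1.1 (ρ (FrT.sg σ) • o) := by
  intro l
  induction l with
  | nil =>
    intro _ y z hyz hb hz
    exfalso
    have h1 : FreeGroup.mk ([] : List (S × Bool)) = 1 := rfl
    rw [h1, map_one, one_smul] at hz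
    have h2 := hz.le
    rw [dist_self] at h2
    unfold Bt at hb
    have h3 := dist_nonneg (x := o) (y := y.1)
    linarith
  | cons σ l ih =>
    intro hlen y z hyz hb hz
    rw [List.length_cons] at hlen
    set u : FreeGroup S := FreeGroup.mk (σ :: l) with hu
    set x : T := ρ (FrT.sg σ) • o with hx
    have hσ : FrT.sg σ ∈ ball S n := by
      refine ball_mono (by omega : 1 ≤ n) (mem_ball.2 ⟨[σ], by simp, ?_⟩)
      rw [mk_cons]
      have : FreeGroup.mk ([] : List (S × Bool)) = 1 := rfl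
      rw [this, mul_one]
    have hub : u ∈ ball S n := mem_ball.2 ⟨σ :: l, by rw [List.length_cons]; omega, rfl⟩
    have kx : KV (ball S n) ρ o x := KV.end' hP hσ
    obtain ⟨m, hm⟩ := KV.dist_eq hT hiso hP kx (KV.end' hP hub)
    have hc : pr o (ρ u • o) x = 2 * m := by
      rw [pr_def, hm]; ring
    have hyu : Bt o y.1 (ρ u • o) := hb.trans hz
    have dy := dist_pr hT (p' := x) hyu
    have dz := dist_pr hT (p' := x) hz
    rw [hc] at dy dz
    obtain ⟨a, ha⟩ := y.2.2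
    obtain ⟨e, he⟩ := kx.2
    have hb' : dist o z.1 = dist o y.1 + 2 := by unfold Bt at hb; linarith
    by_cases hcase : a + 1 ≤ m
    · refine ⟨[], σ, y, z, rfl, rfl, hyz, hb, ?_⟩
      have h1 : (a : ℝ) + 1 ≤ m := by exact_mod_cast hcase
      rw [abs_of_nonpos (by linarith)] at dz
      unfold Bt
      rw [dist_comm z.1 (ρ (FrT.sg σ) • o), ← hx, dz]
      ring
    · have h1 : (m : ℝ) ≤ a := by
        have : m ≤ a := by omega
        exact_mod_cast this
      rw [abs_of_nonneg (by linarith)] at dz dy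
      have hg : ρ (FrT.sg σ)⁻¹ • x = o := by
        rw [hx, map_inv, inv_smul_smul]
      have hgu : ρ (FrT.sg σ)⁻¹ • (ρ u • o) = ρ (FreeGroup.mk l) • o := by
        rw [hu, mk_cons, map_mul, mul_smul, map_inv, inv_smul_smul]
      have hzu := hz
      have hyu' := hyu
      unfold Bt at hzu hyu'
      have bz : Bt x z.1 (ρ u • o) := by
        unfold Bt
        rw [hm, dz]
        linarith
      have by' : Bt x y.1 (ρ u • o) := by
        unfold Bt
        rw [hm, dy]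
        linarith
      have bz' := bz.smul hiso (ρ (FrT.sg σ)⁻¹)
      have by'' := by'.smul hiso (ρ (FrT.sg σ)⁻¹)
      rw [hg, hgu] at bz' by''
      have ez : dist o (ρ (FrT.sg σ)⁻¹ • z.1) = dist x z.1 := by
        rw [← hiso (ρ (FrT.sg σ)⁻¹) x z.1, hg]
      have ey : dist o (ρ (FrT.sg σ)⁻¹ • y.1) = dist x y.1 := by
        rw [← hiso (ρ (FrT.sg σ)⁻¹) x y.1, hg]
      have hlb : FreeGroup.mk l ∈ ball S n := mem_ball.2 ⟨l, by omega, rfl⟩
      have ky : KV (ball S n) ρ o (ρ (FrT.sg σ)⁻¹ • y.1) := by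
        refine ⟨⟨_, hlb, by''⟩, e + a - 2 * m, ?_⟩
        rw [ey, dy, he, ha]; push_cast; ring
      have kz : KV (ball S n) ρ o (ρ (FrT.sg σ)⁻¹ • z.1) := by
        refine ⟨⟨_, hlb, bz'⟩, e + a + 1 - 2 * m, ?_⟩
        rw [ez, dz, he, hb', ha]; push_cast; ring
      have hd' : dist (ρ (FrT.sg σ)⁻¹ • y.1) (ρ (FrT.sg σ)⁻¹ • z.1) = 2 := by rw [hiso, hyz]
      obtain ⟨γ, σ', y1, z1, p1, p2, p3, p4, p5⟩ := ih (by omega)
        ⟨_, ky⟩ ⟨_, kz⟩ hd' (by
          show dist o (ρ (FrT.sg σ)⁻¹ • y.1) + dist (ρ (FrT.sg σ)⁻¹ • y.1) (ρ (FrT.sg σ)⁻¹ • z.1) =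
            dist o (ρ (FrT.sg σ)⁻¹ • z.1)
          rw [hd', ey, ez, dy, dz]
          linarith) bz'
      have hinv : FrT.sg (σ.1, !σ.2) = (FrT.sg σ)⁻¹ := by
        obtain ⟨s, b⟩ := σ
        cases b <;> simp [FrT.sg]
      refine ⟨(σ.1, !σ.2) :: γ, σ', y1, z1, ⟨⟨_, ky⟩, ?_, p1⟩, ⟨⟨_, kz⟩, ?_, p2⟩, p3, p4, p5⟩
      · apply stp_of
        rw [hinv]
      · apply stp_of
        rw [hinv]

include hT hiso in
/-- geodesic walks in the hull -/
theorem geo_walk (hP : HP (ball S n) (len ρ o)) : ∀ (k : ℕ) (p q : VK (ball S n) ρ o),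
    dist p.1 q.1 = 2 * k → ∃ W : (hpa (ball S n) ρ o).K.Walk p q, W.IsPath ∧
      ∀ x ∈ W.support, Bt p.1 x.1 q.1 := by
  intro k
  induction k with
  | zero =>
    intro p q h
    have : p = q := Subtype.ext (dist_eq_zero.1 (by rw [h]; simp))
    subst this
    refine ⟨SimpleGraph.Walk.nil, SimpleGraph.Walk.IsPath.nil, ?_⟩
    intro x hx
    rw [SimpleGraph.Walk.support_nil, List.mem_singleton] at hx
    rw [hx]
    exact Bt.left _ _
  | succ k ih =>
    intro p q h
    obtain ⟨y, h1, h2⟩ := hT.geo p.1 q.1 2 (by norm_num) (by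
      rw [h]; push_cast; nlinarith [k.cast_nonneg (α := ℝ)])
    have hb : Bt p.1 y q.1 := by unfold Bt; linarith
    have hy : KV (ball S n) ρ o y :=
      KV.between hT hiso hP p.2 q.2 hb (m := 1) (by rw [h1]; norm_num)
    obtain ⟨W, hW1, hW2⟩ := ih ⟨y, hy⟩ q (by
      show dist y q.1 = 2 * k
      rw [h2, h]; push_cast; ring)
    have hadj : (hpa (ball S n) ρ o).K.Adj p ⟨y, hy⟩ := h1
    refine ⟨SimpleGraph.Walk.cons hadj W, ?_, ?_⟩
    · rw [SimpleGraph.Walk.cons_isPath_iff]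
      refine ⟨hW1, fun hp => ?_⟩
      have h3 := hW2 p hp
      unfold Bt at h3 hb
      have h4 : dist (⟨y, hy⟩ : VK (ball S n) ρ o).1 p.1 = 2 := by
        show dist y p.1 = 2
        rw [dist_comm, h1]
      rw [h4] at h3
      change 2 + dist p.1 q.1 = dist y q.1 at h3
      linarith
    · intro x hx
      rw [SimpleGraph.Walk.support_cons, List.mem_cons] at hx
      rcases hx with rfl | hx
      · exact Bt.left _ _
      · exact Bt.symm (Bt.trans (Bt.symm (hW2 x hx)) (Bt.symm hb))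

end

end Pool.Agent.FrR
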