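import Pool.Agent.Lib.MP_305fdd_al.Fr.R.Stm2

/-!
# MP_305fdd_al, F_r, Theorem R in Lean: pieces `fgA`, `fgH`

Vertex groups of a finitely generated amalgam (HNN extension) over a finitely generated group are
finitely generated: the two maps of a vertex group to its double along a subgroup.
-/

set_option autoImplicit false

namespace Pool.Agent.FrR

open Pool.Agent.FrT
open Monoid

section dbl

variable {A : Type} [Group A] (A' : Subgroup A)

/-- the double of `A` along `A'` -/
abbrev Dbl : Type := PushoutI (fun _ : Bool => A'.subtype)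

/-- the two embeddings -/
abbrev dof (b : Bool) : A →* Dbl A' := PushoutI.of (φ := fun _ : Bool => A'.subtype) b

theorem dof_inj (b : Bool) : Function.Injective (dof A' b) :=
  PushoutI.of_injective (fun _ => A'.subtype_injective) b

theorem dof_eq {a : A} (ha : a ∈ A') : dof A' true a = dof A' false a := by
  have h1 := PushoutI.of_apply_eq_base (fun _ : Bool => A'.subtype) true ⟨a, ha⟩
  have h2 := PushoutI.of_apply_eq_base (fun _ : Bool => A'.subtype) false ⟨a, ha⟩
  exact h1.trans h2.symm

theorem mem_of_dof {a : A} (h : dof A' true a = dof A' false a) : a ∈ A' := by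
  have h1 : dof A' true a ∈ (PushoutI.base (fun _ : Bool => A'.subtype)).range := by
    rw [← PushoutI.inf_of_range_eq_base_range (φ := fun _ : Bool => A'.subtype)
      (fun _ => A'.subtype_injective) (i := true) (j := false) (by decide)]
    exact ⟨⟨a, rfl⟩, ⟨a, h.symm⟩⟩
  obtain ⟨b, hb⟩ := h1
  rw [← PushoutI.of_apply_eq_base (fun _ : Bool => A'.subtype) true] at hb
  have h2 := dof_inj A' true hb
  rw [← h2]
  exact b.2

end dbl

/-- a family of subgroups of the vertex groups which generates an amalgam consists of the vertex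
groups -/
theorem eq_top_of_gen {ι H : Type} [Group H] {Gi : ι → Type} [∀ i, Group (Gi i)]
    (φ : ∀ i, H →* Gi i) (hφ : ∀ i, Function.Injective (φ i)) (A' : ∀ i, Subgroup (Gi i))
    (hA : ∀ i h, φ i h ∈ A' i)
    (hgen : (⨆ i, (A' i).map (PushoutI.of (φ := φ) i)) = ⊤) (i : ι) : A' i = ⊤ := by
  let φ' : ∀ i, H →* Dbl (A' i) := fun i => (dof (A' i) true).comp (φ i)
  have hφ' : ∀ i, Function.Injective (φ' i) := fun i =>
    (dof_inj (A' i) true).comp (hφ i)
  let F1 : PushoutI φ →* PushoutI φ' := PushoutI.lift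
    (fun i => (PushoutI.of (φ := φ') i).comp (dof (A' i) true)) (PushoutI.base φ') (by
      intro i
      rw [MonoidHom.comp_assoc]
      exact PushoutI.of_comp_eq_base (φ := φ') i)
  let F2 : PushoutI φ →* PushoutI φ' := PushoutI.lift
    (fun i => (PushoutI.of (φ := φ') i).comp (dof (A' i) false)) (PushoutI.base φ') (by
      intro i
      rw [← PushoutI.of_comp_eq_base (φ := φ') i, MonoidHom.comp_assoc]
      congr 1
      ext h
      exact (dof_eq (A' i) (hA i h)).symm)
  have h1 : ∀ i (a : Gi i), F1 (PushoutI.of i a) = PushoutI.of i (dof (A' i) true a) := by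
    intro i a
    exact PushoutI.lift_of _ _ _ a
  have h2 : ∀ i (a : Gi i), F2 (PushoutI.of i a) = PushoutI.of i (dof (A' i) false a) := by
    intro i a
    exact PushoutI.lift_of _ _ _ a
  have h3 : (⨆ i, (A' i).map (PushoutI.of (φ := φ) i)) ≤ F1.eqLocus F2 := by
    refine iSup_le fun j => ?_
    rw [Subgroup.map_le_iff_le_comap]
    intro a ha
    show F1 (PushoutI.of j a) = F2 (PushoutI.of j a)
    rw [h1, h2, dof_eq _ ha]
  rw [hgen] at h3
  rw [eq_top_iff]
  intro a _
  have h4 : F1 (PushoutI.of i a) = F2 (PushoutI.of i a) := h3 (Subgroup.mem_top _)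
  rw [h1, h2] at h4
  exact mem_of_dof _ (PushoutI.of_injective hφ' i h4)

theorem fg_of_pushout {ι H : Type} [Nonempty ι] [Group H] {Gi : ι → Type} [∀ i, Group (Gi i)]
    (φ : ∀ i, H →* Gi i) (hφ : ∀ i, Function.Injective (φ i)) (hH : Group.FG H)
    (hG : Group.FG (PushoutI φ)) (i : ι) : Group.FG (Gi i) := by
  classical
  let A' : Finset (Σ i, Gi i) → ∀ i, Subgroup (Gi i) := fun F i =>
    (φ i).range ⊔ Subgroup.closure {a | (⟨i, a⟩ : Σ i, Gi i) ∈ F}
  have hmono : ∀ F F' : Finset (Σ i, Gi i), F ⊆ F' → ∀ i, A' F i ≤ A' F' i := by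
    intro F F' h i
    refine sup_le_sup_left (Subgroup.closure_mono ?_) _
    intro a ha
    exact h ha
  let K : Finset (Σ i, Gi i) → Subgroup (PushoutI φ) := fun F =>
    ⨆ i, (A' F i).map (PushoutI.of (φ := φ) i)
  have hK : ∀ F F' : Finset (Σ i, Gi i), F ⊆ F' → K F ≤ K F' := fun F F' h =>
    iSup_mono fun i => Subgroup.map_mono (hmono F F' h i)
  have hx : ∀ x : PushoutI φ, ∃ F, x ∈ K F := by
    intro x
    induction x using PushoutI.induction_on with
    | of i g =>
      refine ⟨({⟨i, g⟩} : Finset (Σ i, Gi i)), ?_⟩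
      refine Subgroup.mem_iSup_of_mem i (Subgroup.mem_map_of_mem _ ?_)
      refine Subgroup.mem_sup_right (Subgroup.subset_closure ?_)
      show (⟨i, g⟩ : Σ i, Gi i) ∈ ({⟨i, g⟩} : Finset (Σ i, Gi i))
      exact Finset.mem_singleton_self _
    | base h =>
      obtain ⟨i⟩ := (inferInstance : Nonempty ι)
      refine ⟨∅, ?_⟩
      rw [← PushoutI.of_apply_eq_base φ i]
      refine Subgroup.mem_iSup_of_mem i (Subgroup.mem_map_of_mem _ ?_)
      exact Subgroup.mem_sup_left ⟨h, rfl⟩
    | mul x y hx hy =>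
      obtain ⟨F, hF⟩ := hx
      obtain ⟨F', hF'⟩ := hy
      exact ⟨F ∪ F', mul_mem (hK _ _ Finset.subset_union_left hF)
        (hK _ _ Finset.subset_union_right hF')⟩
  choose Fx hFx using hx
  obtain ⟨S, hS⟩ := hG.out
  have hgen : K (S.biUnion Fx) = ⊤ := by
    rw [eq_top_iff, ← hS, Subgroup.closure_le]
    intro x hx
    exact hK _ _ (Finset.subset_biUnion_of_mem Fx hx) (hFx x)
  have h1 := eq_top_of_gen φ hφ (A' (S.biUnion Fx))
    (fun i h => Subgroup.mem_sup_left ⟨h, rfl⟩) hgen i
  rw [Group.fg_def, ← h1]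
  apply Subgroup.FG.sup
  · haveI := hH
    exact (Group.fg_iff_subgroup_fg _).1 (Group.fg_range (φ i))
  · rw [Subgroup.fg_iff]
    refine ⟨_, rfl, ?_⟩
    exact (S.biUnion Fx).finite_toSet.preimage (sigma_mk_injective.injOn)

theorem p_fgA : S_fgA := by
  intro H _ Gi _ φ hφ hH hG i
  exact fg_of_pushout φ hφ hH hG i

theorem p_fgH : S_fgH := by
  classical
  intro A _ C₁ C₂ φ hC hG
  have hC2 : C₂.FG := by
    haveI : Group.FG C₁ := (Group.fg_iff_subgroup_fg _).2 hC
    haveI : Group.FG C₂ := Group.fg_of_surjective (f := φ.toMonoidHom) φ.surjective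
    exact (Group.fg_iff_subgroup_fg _).1 this
  let A' : Finset A → Subgroup A := fun F => (C₁ ⊔ C₂) ⊔ Subgroup.closure (F : Set A)
  have hmono : ∀ F F' : Finset A, F ⊆ F' → A' F ≤ A' F' := by
    intro F F' h
    refine sup_le_sup_left (Subgroup.closure_mono ?_) _
    intro a ha
    exact h ha
  let K : Finset A → Subgroup (HNNExtension A C₁ C₂ φ) := fun F =>
    (A' F).map HNNExtension.of ⊔ Subgroup.closure {HNNExtension.t}
  have hK : ∀ F F' : Finset A, F ⊆ F' → K F ≤ K F' := fun F F' h =>
    sup_le_sup_right (Subgroup.map_mono (hmono F F' h)) _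
  have hx : ∀ x : HNNExtension A C₁ C₂ φ, ∃ F, x ∈ K F := by
    intro x
    induction x using HNNExtension.induction_on with
    | of g =>
      refine ⟨{g}, Subgroup.mem_sup_left (Subgroup.mem_map_of_mem _ ?_)⟩
      refine Subgroup.mem_sup_right (Subgroup.subset_closure ?_)
      exact Finset.mem_coe.2 (Finset.mem_singleton_self _)
    | t => exact ⟨∅, Subgroup.mem_sup_right (Subgroup.subset_closure rfl)⟩
    | mul x y hx hy =>
      obtain ⟨F, hF⟩ := hx
      obtain ⟨F', hF'⟩ := hy
      exact ⟨F ∪ F', mul_mem (hK _ _ Finset.subset_union_left hF)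
        (hK _ _ Finset.subset_union_right hF')⟩
    | inv x hx =>
      obtain ⟨F, hF⟩ := hx
      exact ⟨F, inv_mem hF⟩
  choose Fx hFx using hx
  obtain ⟨S, hS⟩ := hG.out
  have hgen : K (S.biUnion Fx) = ⊤ := by
    rw [eq_top_iff, ← hS, Subgroup.closure_le]
    intro x hx
    exact hK _ _ (Finset.subset_biUnion_of_mem Fx hx) (hFx x)
  set B := A' (S.biUnion Fx) with hB
  have hB1 : C₁ ≤ B := le_sup_left.trans le_sup_left
  have hB2 : C₂ ≤ B := le_sup_right.trans le_sup_left
  -- the HNN extension of the double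
  let e₁ := C₁.equivMapOfInjective (dof B true) (dof_inj B true)
  let e₂ := C₂.equivMapOfInjective (dof B true) (dof_inj B true)
  let φ' : C₁.map (dof B true) ≃* C₂.map (dof B true) := (e₁.symm.trans φ).trans e₂
  let Q := HNNExtension (Dbl B) _ _ φ'
  have hrel : ∀ a : C₁, (HNNExtension.t : Q) * HNNExtension.of (dof B true (a : A)) =
      HNNExtension.of (dof B true (φ a : A)) * HNNExtension.t := by
    intro a
    have h := HNNExtension.t_mul_of (φ := φ') (e₁ a)
    have h1 : φ' (e₁ a) = e₂ (φ a) := by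
      show e₂ (φ (e₁.symm (e₁ a))) = e₂ (φ a)
      rw [MulEquiv.symm_apply_apply]
    rw [h1] at h
    exact h
  let F1 : HNNExtension A C₁ C₂ φ →* Q :=
    HNNExtension.lift (HNNExtension.of.comp (dof B true)) HNNExtension.t (fun a => hrel a)
  let F2 : HNNExtension A C₁ C₂ φ →* Q :=
    HNNExtension.lift (HNNExtension.of.comp (dof B false)) HNNExtension.t (fun a => by
      have h := hrel a
      rw [dof_eq B (hB1 a.2), dof_eq B (hB2 (φ a).2)] at h
      exact h)
  have h3 : K (S.biUnion Fx) ≤ F1.eqLocus F2 := by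
    refine sup_le ?_ ?_
    · rw [Subgroup.map_le_iff_le_comap]
      intro a ha
      show F1 (HNNExtension.of a) = F2 (HNNExtension.of a)
      rw [HNNExtension.lift_of, HNNExtension.lift_of, MonoidHom.comp_apply, MonoidHom.comp_apply,
        dof_eq B ha]
    · rw [Subgroup.closure_le, Set.singleton_subset_iff]
      show F1 HNNExtension.t = F2 HNNExtension.t
      rw [HNNExtension.lift_t, HNNExtension.lift_t]
  rw [hgen] at h3
  have htop : B = ⊤ := by
    rw [eq_top_iff]
    intro a _
    have h4 : F1 (HNNExtension.of a) = F2 (HNNExtension.of a) := h3 (Subgroup.mem_top _)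
    rw [HNNExtension.lift_of, HNNExtension.lift_of] at h4
    exact mem_of_dof _ (HNNExtension.of_injective φ' h4)
  rw [Group.fg_def, ← htop]
  exact (hC.sup hC2).sup ⟨_, rfl⟩

end Pool.Agent.FrR
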