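import Pool.Agent.Lib.MP_305fdd_al.Fr.R.Len
import Pool.Agent.Lib.MP_305fdd_al.Fr.R.Hull
import Pool.Agent.Lib.MP_305fdd_al.Fr.R.Loops
import Pool.Agent.Lib.MP_305fdd_al.Fr.Z.Exist

/-!
# Transfer of the system of a ball to a nearby rational valuation
-/

set_option autoImplicit false

namespace Pool.Agent.FrR

open Matrix Pool.Agent.FrZ

section sign

/-- `L` keeps the sign of `q` -/
def Sg (L : ℝ →+ ℚ) (q : ℝ) : Prop := (0 < q ↔ 0 < L q) ∧ (q < 0 ↔ L q < 0)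

/-- the positive numbers among `q, -q` -/
noncomputable def sgF (Q : Finset ℝ) : Finset ℝ := by
  classical exact (Q ∪ Q.image (fun q => -q)).filter (fun q => 0 < q)

theorem sgF_pos (Q : Finset ℝ) : ∀ f ∈ sgF Q, 0 < f := by
  classical
  intro f hf
  exact (Finset.mem_filter.1 hf).2

theorem sg_of_sgF {Q : Finset ℝ} {L : ℝ →+ ℚ} (h : ∀ f ∈ sgF Q, 0 < L f) {q : ℝ} (hq : q ∈ Q) :
    Sg L q := by
  classical
  rcases lt_trichotomy q 0 with h0 | h0 | h0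
  · have h1 : 0 < L (-q) := h _ (Finset.mem_filter.2
      ⟨Finset.mem_union_right _ (Finset.mem_image_of_mem _ hq), by linarith⟩)
    rw [map_neg] at h1
    exact ⟨⟨fun h => by linarith, fun h => by linarith⟩, ⟨fun _ => by linarith, fun _ => h0⟩⟩
  · rw [h0]
    simp [Sg]
  · have h1 : 0 < L q := h _ (Finset.mem_filter.2 ⟨Finset.mem_union_left _ hq, h0⟩)
    exact ⟨⟨fun _ => h1, fun _ => h0⟩, ⟨fun h => by linarith, fun h => by linarith⟩⟩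

theorem Sg.nonneg {L : ℝ →+ ℚ} {q : ℝ} (h : Sg L q) (hq : 0 ≤ q) : 0 ≤ L q := by
  by_contra hcon
  push Not at hcon
  have := h.2.2 hcon
  linarith

theorem L_half (L : ℝ →+ ℚ) (x : ℝ) : L (x / 2) = L x / 2 := by
  have h : L x = L (x / 2) + L (x / 2) := by rw [← map_add]; congr 1; ring
  linarith

theorem L_abs {L : ℝ →+ ℚ} {q : ℝ} (h : Sg L q) : L |q| = |L q| := by
  rcases lt_or_ge q 0 with h0 | h0
  · rw [abs_of_neg h0, abs_of_neg (h.2.1 h0), map_neg]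
  · rw [abs_of_nonneg h0, abs_of_nonneg (h.nonneg h0)]

end sign

section transfer
variable {K S : Type} [Field K] [Finite S] (V : RV K)
  (ρ : FreeGroup S →* SpecialLinearGroup (Fin 2) K) (k0 : SpecialLinearGroup (Fin 2) K) (τ : ℝ)

/-- base point -/
noncomputable def bo (V : RV K) (k0 : SpecialLinearGroup (Fin 2) K) (τ : ℝ) : Tr V :=
  cls (⟨k0, τ⟩ : Pre V)

theorem len_bo (w : FreeGroup S) : len ρ (bo V k0 τ) w =
    Pre.dd (⟨k0, τ⟩ : Pre V) ⟨ρ w * k0, τ⟩ := rfl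

/-- Transfer of the lengths of the words of length at most `N`. -/
theorem len_transfer (N : ℕ) : ∃ (A : Finset K) (Q : Finset ℝ), ∀ (L : ℝ →+ ℚ) (V' : RV K),
    (∀ a ∈ A, V'.v a = ((L (V.v a) : ℚ) : ℝ)) → (∀ q ∈ Q, Sg L q) →
    ∀ w ∈ ball S N, len ρ (bo V' k0 ((L τ : ℚ) : ℝ)) w = ((L (len ρ (bo V k0 τ) w) : ℚ) : ℝ) := by
  classical
  set A : Finset K := (ball S N ×ˢ (Finset.univ : Finset (Fin 2 × Fin 2))).image (fun x =>
    Pre.wd (⟨k0, τ⟩ : Pre V) ⟨ρ x.1 * k0, τ⟩ x.2.1 x.2.2) with hA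
  set Q : Finset ℝ := (ball S N ×ˢ (Finset.univ : Finset (Fin 2 × Fin 2))).image (fun x =>
    Pre.dd (⟨k0, τ⟩ : Pre V) ⟨ρ x.1 * k0, τ⟩ - (wt τ x.2.1 + wt τ x.2.2 -
      V.v (Pre.wd (⟨k0, τ⟩ : Pre V) ⟨ρ x.1 * k0, τ⟩ x.2.1 x.2.2))) with hQ
  refine ⟨A, Q, ?_⟩
  intro L V' hA' hQ' w hw
  rw [len_bo, len_bo]
  refine dd_transfer L k0 (ρ w * k0) τ τ ?_ ?_
  · intro i j _
    exact hA' _ (Finset.mem_image.2 ⟨(w, (i, j)), by simp [hw], rfl⟩)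
  · intro i j
    by_cases h0 : Pre.wd (⟨k0, τ⟩ : Pre V) ⟨ρ w * k0, τ⟩ i j = 0
    · exact Or.inr h0
    · left
      refine (hQ' _ (Finset.mem_image.2 ⟨(w, (i, j)), by simp [hw], rfl⟩)).nonneg ?_
      have h1 := (Pre.ge_wd (⟨k0, τ⟩ : Pre V) ⟨ρ w * k0, τ⟩ i j).resolve_left h0
      show 0 ≤ Pre.dd (⟨k0, τ⟩ : Pre V) ⟨ρ w * k0, τ⟩ - (wt τ i + wt τ j -
        V.v (Pre.wd (⟨k0, τ⟩ : Pre V) ⟨ρ w * k0, τ⟩ i j))
      linarith

end transfer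

section place
variable {S : Type}

/-- a disjoint placement -/
theorem exists_lo (P : Finset (FreeGroup S)) (ℓ : FreeGroup S → ℝ) (hℓ : ∀ u, 0 ≤ ℓ u) :
    ∃ lo : FreeGroup S → ℝ, Disj P ℓ ℓ lo := by
  classical
  set M : ℝ := ∑ u ∈ P, ℓ u + 1 with hM
  have hM1 : ∀ u ∈ P, ℓ u + 1 ≤ M := by
    intro u hu
    have := Finset.single_le_sum (fun u _ => hℓ u) hu
    linarith
  refine ⟨fun u => if h : u ∈ P then ((P.equivFin ⟨u, h⟩ : ℕ) : ℝ) * M else 0, ?_⟩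
  intro u hu w hw _ _ hne
  have hidx : (P.equivFin ⟨u, hu⟩ : ℕ) ≠ (P.equivFin ⟨w, hw⟩ : ℕ) := by
    intro h
    have := P.equivFin.injective (Fin.ext h)
    exact hne (congrArg Subtype.val this)
  simp only [hu, hw, dif_pos]
  have hM0 : 0 < M := by
    have := hM1 u hu
    have := hℓ u
    linarith
  have key : ∀ (a b : ℕ) (x : ℝ), x + 1 ≤ M → a < b → (a : ℝ) * M + x < b * M := by
    intro a b x hx hab
    have h1 : ((a : ℝ) + 1) ≤ b := by exact_mod_cast hab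
    have h2 : ((a : ℝ) + 1) * M ≤ b * M := mul_le_mul_of_nonneg_right h1 hM0.le
    linarith
  rcases lt_or_gt_of_ne hidx with h | h
  · left; exact key _ _ _ (hM1 u hu) h
  · right; exact key _ _ _ (hM1 w hw) h

end place

section main

theorem sys_ext {J I R : Type} {X Y : Sys J I R} (ha : X.a = Y.a) (hb : X.b = Y.b)
    (hl : X.l = Y.l) (hfl : X.fl = Y.fl) (hlo : X.lo = Y.lo) (hhi : X.hi = Y.hi)
    (hca : X.ca = Y.ca) (hcb : X.cb = Y.cb) : X = Y := by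
  cases X
  cases Y
  simp only at ha hb hl hfl hlo hhi hca hcb
  subst ha hb hl hfl hlo hhi hca hcb
  rfl

instance finiteIx {S : Type} (P : Finset (FreeGroup S)) (ℓ : FreeGroup S → ℝ) :
    Finite (Ix P ℓ) :=
  (P.finite_toSet.subset (fun (u : FreeGroup S) (h : u ∈ {u | u ∈ P ∧ 0 < ℓ u}) => h.1)).to_subtype

variable {S : Type} [Finite S]

instance finiteJx (P : Finset (FreeGroup S)) (ℓ : FreeGroup S → ℝ) : Finite (Jx P ℓ) :=
  Subtype.finite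

/-- the numbers whose signs are used -/
noncomputable def Q1 (P : Finset (FreeGroup S)) (ℓ : FreeGroup S → ℝ) : Finset ℝ := by
  classical
  haveI := Fintype.ofFinite S
  exact P.image ℓ ∪ ((Finset.univ : Finset (Option S)) ×ˢ (P ×ˢ P)).image
    (fun x => be ℓ x.1 x.2.1 x.2.2 - al ℓ x.1 x.2.1)

theorem mem_Q1_P {P : Finset (FreeGroup S)} {ℓ : FreeGroup S → ℝ} {u : FreeGroup S}
    (hu : u ∈ P) : ℓ u ∈ Q1 P ℓ := by
  classical
  unfold Q1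
  exact Finset.mem_union_left _ (Finset.mem_image_of_mem _ hu)

theorem mem_Q1_J {P : Finset (FreeGroup S)} {ℓ : FreeGroup S → ℝ} (c : Option S)
    {u w : FreeGroup S} (hu : u ∈ P) (hw : w ∈ P) : be ℓ c u w - al ℓ c u ∈ Q1 P ℓ := by
  classical
  unfold Q1
  exact Finset.mem_union_right _ (Finset.mem_image.2 ⟨(c, (u, w)), by simp [hu, hw], rfl⟩)

/-- the numbers which get even integral values -/
noncomputable def E1 (P : Finset (FreeGroup S)) (ℓ lo : FreeGroup S → ℝ) : Finset ℝ := by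
  classical
  haveI := Fintype.ofFinite S
  haveI : Fintype (Ix P ℓ) := Fintype.ofFinite _
  haveI : Fintype (Jx P ℓ) := Fintype.ofFinite _
  exact (P.image ℓ ∪ (P ×ˢ P).image (fun x => (ℓ x.1 + ℓ x.2 - ℓ (x.2⁻¹ * x.1)) / 2) ∪
    (Finset.univ : Finset S).image (fun s => ℓ (FreeGroup.of s) / 2)) ∪
    ((Finset.univ : Finset (Jx P ℓ)).image (bsys P ℓ ℓ lo).a ∪
    (Finset.univ : Finset (Jx P ℓ)).image (bsys P ℓ ℓ lo).b ∪
    (Finset.univ : Finset (Jx P ℓ)).image (bsys P ℓ ℓ lo).l ∪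
    (Finset.univ : Finset (Ix P ℓ)).image (bsys P ℓ ℓ lo).lo ∪
    (Finset.univ : Finset (Ix P ℓ)).image (bsys P ℓ ℓ lo).hi)

variable {P : Finset (FreeGroup S)} {ℓ lo : FreeGroup S → ℝ} {L : ℝ →+ ℚ}

section E
variable (hE : ∀ x ∈ E1 P ℓ lo, x ∈ Lam L)
include hE

theorem E1_P {u : FreeGroup S} (hu : u ∈ P) : ℓ u ∈ Lam L := by
  classical
  apply hE
  unfold E1
  refine Finset.mem_union_left _ (Finset.mem_union_left _ (Finset.mem_union_left _ ?_))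
  exact Finset.mem_image_of_mem _ hu

theorem E1_gr {u w : FreeGroup S} (hu : u ∈ P) (hw : w ∈ P) :
    (ℓ u + ℓ w - ℓ (w⁻¹ * u)) / 2 ∈ Lam L := by
  classical
  apply hE
  unfold E1
  refine Finset.mem_union_left _ (Finset.mem_union_left _ (Finset.mem_union_right _ ?_))
  exact Finset.mem_image.2 ⟨(u, w), by simp [hu, hw], rfl⟩

theorem E1_s (s : S) : ℓ (FreeGroup.of s) / 2 ∈ Lam L := by
  classical
  apply hE
  unfold E1
  refine Finset.mem_union_left _ (Finset.mem_union_right _ ?_)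
  exact Finset.mem_image.2 ⟨s, by simp, rfl⟩

theorem E1_a (j : Jx P ℓ) : (bsys P ℓ ℓ lo).a j ∈ Lam L := by
  classical
  apply hE
  unfold E1
  refine Finset.mem_union_right _ (Finset.mem_union_left _ (Finset.mem_union_left _
    (Finset.mem_union_left _ (Finset.mem_union_left _ ?_))))
  exact Finset.mem_image.2 ⟨j, by simp, rfl⟩

theorem E1_b (j : Jx P ℓ) : (bsys P ℓ ℓ lo).b j ∈ Lam L := by
  classical
  apply hE
  unfold E1
  refine Finset.mem_union_right _ (Finset.mem_union_left _ (Finset.mem_union_left _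
    (Finset.mem_union_left _ (Finset.mem_union_right _ ?_))))
  exact Finset.mem_image.2 ⟨j, by simp, rfl⟩

theorem E1_l (j : Jx P ℓ) : (bsys P ℓ ℓ lo).l j ∈ Lam L := by
  classical
  apply hE
  unfold E1
  refine Finset.mem_union_right _ (Finset.mem_union_left _ (Finset.mem_union_left _
    (Finset.mem_union_right _ ?_)))
  exact Finset.mem_image.2 ⟨j, by simp, rfl⟩

theorem E1_lo (i : Ix P ℓ) : (bsys P ℓ ℓ lo).lo i ∈ Lam L := by
  classical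
  apply hE
  unfold E1
  refine Finset.mem_union_right _ (Finset.mem_union_left _ (Finset.mem_union_right _ ?_))
  exact Finset.mem_image.2 ⟨i, by simp, rfl⟩

theorem E1_hi (i : Ix P ℓ) : (bsys P ℓ ℓ lo).hi i ∈ Lam L := by
  classical
  apply hE
  unfold E1
  refine Finset.mem_union_right _ (Finset.mem_union_right _ ?_)
  exact Finset.mem_image.2 ⟨i, by simp, rfl⟩

theorem pkg_Tp : Tp L (bsys P ℓ ℓ lo) ((bsys P ℓ ℓ lo).map (Lz L)) :=
  exists_Tp L _ (E1_a hE) (E1_b hE) (E1_l hE) (E1_lo hE) (E1_hi hE)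

end E

/-- the integral system has even parameters -/
theorem Ev_of_Tp {J I : Type} {X : Sys J I ℝ} {X' : Sys J I ℤ} (h : Tp L X X') : Ev X' :=
  ⟨h.ea, h.eb, h.el, h.elo, h.ehi⟩

variable {ℓ' : FreeGroup S → ℝ}

/-- `ℓ'` is the image of `ℓ` on the words which are used -/
structure Im (P : Finset (FreeGroup S)) (ℓ ℓ' : FreeGroup S → ℝ) (L : ℝ →+ ℚ) : Prop where
  p : ∀ u ∈ P, ℓ' u = ((L (ℓ u) : ℚ) : ℝ)
  e : ∀ c : Option S, ℓ' (el c) = ((L (ℓ (el c)) : ℚ) : ℝ)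
  eu : ∀ c : Option S, ∀ u ∈ P, ℓ' (el c * u) = ((L (ℓ (el c * u)) : ℚ) : ℝ)
  ew : ∀ c : Option S, ∀ w ∈ P, ℓ' ((el c)⁻¹ * w) = ((L (ℓ ((el c)⁻¹ * w)) : ℚ) : ℝ)
  weu : ∀ c : Option S, ∀ u ∈ P, ∀ w ∈ P,
    ℓ' (w⁻¹ * (el c * u)) = ((L (ℓ (w⁻¹ * (el c * u))) : ℚ) : ℝ)

theorem Im.al (h : Im P ℓ ℓ' L) (c : Option S) {u : FreeGroup S} (hu : u ∈ P) :
    al ℓ' c u = ((L (al ℓ c u) : ℚ) : ℝ) := by
  unfold FrR.al
  rw [h.p u hu, h.e c, h.eu c u hu, L_half, map_sub, map_add]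
  push_cast
  rfl

theorem Im.be (h : Im P ℓ ℓ' L) (c : Option S) {u w : FreeGroup S} (hu : u ∈ P) (hw : w ∈ P) :
    be ℓ' c u w = ((L (be ℓ c u w) : ℚ) : ℝ) := by
  unfold FrR.be
  rw [h.p u hu, h.ew c w hw, h.weu c u hu w hw, L_half, map_sub, map_add]
  push_cast
  rfl

variable (hI : Im P ℓ ℓ' L) (hQ : ∀ q ∈ Q1 P ℓ, Sg L q)
include hI hQ

theorem pkg_Cp : Cp P ℓ ℓ' where
  pos u hu := by
    rw [hI.p u hu]
    have h := hQ _ (mem_Q1_P hu)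
    rw [h.1]
    exact_mod_cast Iff.rfl
  lt c u hu w hw := by
    have h := hQ _ (mem_Q1_J c hu hw)
    rw [hI.al c hu, hI.be c hu hw, ← sub_pos, h.1, map_sub, sub_pos]
    exact_mod_cast Iff.rfl
  gt c u hu w hw := by
    have h := hQ _ (mem_Q1_J c hu hw)
    rw [hI.al c hu, hI.be c hu hw, ← sub_neg, h.2, map_sub, sub_neg]
    exact_mod_cast Iff.rfl

theorem pkg_toR (hE : ∀ x ∈ E1 P ℓ lo, x ∈ Lam L) :
    toR ((bsys P ℓ ℓ lo).map (Lz L)) = bsys P ℓ ℓ' (fun u => ((L (lo u) : ℚ) : ℝ)) := by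
  have hT := pkg_Tp hE
  have hcast : ∀ (n : ℤ) (x : ℝ), (n : ℚ) = L x → (n : ℝ) = ((L x : ℚ) : ℝ) := by
    intro n x h
    rw [← h]
    push_cast
    rfl
  have ha : (toR ((bsys P ℓ ℓ lo).map (Lz L))).a =
      (bsys P ℓ ℓ' (fun u => ((L (lo u) : ℚ) : ℝ))).a := by
    funext j
    have h1 := hcast _ _ (hT.a j)
    show (((bsys P ℓ ℓ lo).map (Lz L)).a j : ℝ) = ((L (lo j.1.2.1.1) : ℚ) : ℝ) +
      min (al ℓ' j.1.1 j.1.2.1.1) (be ℓ' j.1.1 j.1.2.1.1 j.1.2.2.1)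
    rw [h1]
    show ((L (lo j.1.2.1.1 + min (al ℓ j.1.1 j.1.2.1.1)
      (be ℓ j.1.1 j.1.2.1.1 j.1.2.2.1)) : ℚ) : ℝ) = _
    rw [map_add, hI.al _ j.1.2.1.2.1, hI.be _ j.1.2.1.2.1 j.1.2.2.2.1]
    have h2 := hQ _ (mem_Q1_J j.1.1 j.1.2.1.2.1 j.1.2.2.2.1)
    rcases lt_or_ge (be ℓ j.1.1 j.1.2.1.1 j.1.2.2.1) (al ℓ j.1.1 j.1.2.1.1) with h3 | h3
    · have h4 := h2.2.1 (by linarith)
      rw [map_sub] at h4
      rw [min_eq_right h3.le, min_eq_right]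
      · push_cast; rfl
      · exact_mod_cast (by linarith : L (be ℓ j.1.1 j.1.2.1.1 j.1.2.2.1) ≤ L (al ℓ j.1.1 j.1.2.1.1))
    · have h4 := h2.nonneg (by linarith)
      rw [map_sub] at h4
      rw [min_eq_left h3, min_eq_left]
      · push_cast; rfl
      · exact_mod_cast (by linarith : L (al ℓ j.1.1 j.1.2.1.1) ≤ L (be ℓ j.1.1 j.1.2.1.1 j.1.2.2.1))
  have hb : (toR ((bsys P ℓ ℓ lo).map (Lz L))).b =
      (bsys P ℓ ℓ' (fun u => ((L (lo u) : ℚ) : ℝ))).b := by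
    funext j
    have h1 := hcast _ _ (hT.b j)
    show (((bsys P ℓ ℓ lo).map (Lz L)).b j : ℝ) = ((L (lo j.1.2.2.1) : ℚ) : ℝ) +
      (ℓ' (el j.1.1) - al ℓ' j.1.1 j.1.2.1.1)
    rw [h1]
    show ((L (lo j.1.2.2.1 + (ℓ (el j.1.1) - al ℓ j.1.1 j.1.2.1.1)) : ℚ) : ℝ) = _
    rw [map_add, map_sub, hI.al _ j.1.2.1.2.1, hI.e]
    push_cast
    rfl
  have hl : (toR ((bsys P ℓ ℓ lo).map (Lz L))).l =
      (bsys P ℓ ℓ' (fun u => ((L (lo u) : ℚ) : ℝ))).l := by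
    funext j
    have h1 := hcast _ _ (hT.l j)
    show (((bsys P ℓ ℓ lo).map (Lz L)).l j : ℝ) =
      |be ℓ' j.1.1 j.1.2.1.1 j.1.2.2.1 - al ℓ' j.1.1 j.1.2.1.1|
    rw [h1]
    show ((L |be ℓ j.1.1 j.1.2.1.1 j.1.2.2.1 - al ℓ j.1.1 j.1.2.1.1| : ℚ) : ℝ) = _
    rw [L_abs (hQ _ (mem_Q1_J j.1.1 j.1.2.1.2.1 j.1.2.2.2.1)), hI.al _ j.1.2.1.2.1,
      hI.be _ j.1.2.1.2.1 j.1.2.2.2.1, map_sub]
    push_cast
    rfl
  have hfl : (toR ((bsys P ℓ ℓ lo).map (Lz L))).fl =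
      (bsys P ℓ ℓ' (fun u => ((L (lo u) : ℚ) : ℝ))).fl := by
    funext j
    show decide (be ℓ j.1.1 j.1.2.1.1 j.1.2.2.1 < al ℓ j.1.1 j.1.2.1.1) =
      decide (be ℓ' j.1.1 j.1.2.1.1 j.1.2.2.1 < al ℓ' j.1.1 j.1.2.1.1)
    apply decide_eq_decide.2
    exact (pkg_Cp hI hQ).gt _ _ j.1.2.1.2.1 _ j.1.2.2.2.1
  have hlo : (toR ((bsys P ℓ ℓ lo).map (Lz L))).lo =
      (bsys P ℓ ℓ' (fun u => ((L (lo u) : ℚ) : ℝ))).lo := by
    funext i
    exact hcast _ _ (hT.lo i)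
  have hhi : (toR ((bsys P ℓ ℓ lo).map (Lz L))).hi =
      (bsys P ℓ ℓ' (fun u => ((L (lo u) : ℚ) : ℝ))).hi := by
    funext i
    have h1 := hcast _ _ (hT.hi i)
    show (((bsys P ℓ ℓ lo).map (Lz L)).hi i : ℝ) = ((L (lo i.1) : ℚ) : ℝ) + ℓ' i.1
    rw [h1]
    show ((L (lo i.1 + ℓ i.1) : ℚ) : ℝ) = _
    rw [map_add, hI.p _ i.2.1]
    push_cast
    rfl
  exact sys_ext ha hb hl hfl hlo hhi rfl rfl

omit hQ in
theorem pkg_HP (hE : ∀ x ∈ E1 P ℓ lo, x ∈ Lam L) (h1 : (1 : FreeGroup S) ∈ P)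
    (h2 : ∀ s : S, FreeGroup.of s ∈ P) (h3 : ∀ s : S, (FreeGroup.of s)⁻¹ ∈ P) : HP P ℓ' where
  one := h1
  of := h2
  inv := h3
  ev u hu := by
    obtain ⟨m, hm⟩ := E1_P hE hu
    exact ⟨m, by rw [hI.p u hu, hm]; push_cast; rfl⟩
  gr u hu w hw := by
    obtain ⟨m, hm⟩ := E1_gr hE hu hw
    refine ⟨m, ?_⟩
    have e1 : ℓ' (w⁻¹ * u) = ((L (ℓ (w⁻¹ * u)) : ℚ) : ℝ) := by
      have := hI.weu none u hu w hw
      simpa [el] using this
    rw [hI.p u hu, hI.p w hw, e1]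
    rw [L_half, map_sub, map_add] at hm
    have h4 : L (ℓ u) + L (ℓ w) - L (ℓ (w⁻¹ * u)) = 4 * m := by linarith
    have h5 : (((L (ℓ u) + L (ℓ w) - L (ℓ (w⁻¹ * u)) : ℚ)) : ℝ) = ((4 * m : ℚ) : ℝ) := by rw [h4]
    push_cast at h5
    exact h5
  four s := by
    obtain ⟨m, hm⟩ := E1_s hE s
    refine ⟨m, ?_⟩
    rw [hI.p _ (h2 s)]
    rw [L_half] at hm
    have h4 : L (ℓ (FreeGroup.of s)) = 4 * m := by linarith
    rw [h4]
    push_cast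
    rfl

end main

section balls
variable {K S : Type} [Field K] [Finite S]

/-- `Im` for a ball -/
theorem im_ball {n : ℕ} {ℓ ℓ' : FreeGroup S → ℝ} {L : ℝ →+ ℚ}
    (h : ∀ w ∈ ball S (2 * n + 1), ℓ' w = ((L (ℓ w) : ℚ) : ℝ)) : Im (ball S n) ℓ ℓ' L where
  p u hu := h u (ball_mono (by omega) hu)
  e c := h _ (ball_mono (by omega) (el_mem_ball c))
  eu c u hu := h _ (ball_mono (by omega) (mul_mem_ball (el_mem_ball c) hu))
  ew c w hw := h _ (ball_mono (by omega) (mul_mem_ball (inv_mem_ball (el_mem_ball c)) hw))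
  weu c u hu w hw := h _ (ball_mono (by omega)
    (mul_mem_ball (inv_mem_ball hw) (mul_mem_ball (el_mem_ball c) hu)))

end balls

end Pool.Agent.FrR
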