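import Pool.Agent.Lib.MP_305fdd_al.Fr.R.Defs

/-!
# Calculus in real trees: projections, overlaps of segments
-/

set_option autoImplicit false

namespace Pool.Agent.FrR

/-- `z` is between `p` and `q` -/
def Bt {T : Type} [MetricSpace T] (p z q : T) : Prop := dist p z + dist z q = dist p q

section
variable {T : Type} [MetricSpace T]

theorem Bt.symm {p z q : T} (h : Bt p z q) : Bt q z p := by
  unfold Bt at *
  rw [dist_comm q z, dist_comm z p, dist_comm q p]
  linarith

theorem Bt.left (p q : T) : Bt p p q := by simp [Bt]
theorem Bt.right (p q : T) : Bt p q q := by simp [Bt]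

theorem Bt.le {p z q : T} (h : Bt p z q) : dist p z ≤ dist p q := by
  unfold Bt at h
  have := dist_nonneg (x := z) (y := q)
  linarith

theorem Bt.trans {o z x u : T} (h : Bt o z x) (h' : Bt o x u) : Bt o z u := by
  unfold Bt at *
  have h1 := dist_triangle z x u
  have h2 := dist_triangle o z u
  apply le_antisymm _ h2
  linarith

variable (hT : IsRT T)
include hT

/-- the projection formula -/
theorem proj {p z q : T} (h : Bt p z q) (x : T) :
    dist x z = max (dist x p - dist p z) (dist x q - dist z q) := by
  apply le_antisymm
  · have h1 := hT.hyp x z p q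
    unfold Bt at h
    rcases le_max_iff.1 h1 with h2 | h2
    · apply le_max_of_le_left
      linarith
    · apply le_max_of_le_right
      rw [dist_comm z p] at h2
      linarith
  · apply max_le
    · have := dist_triangle x z p
      rw [dist_comm z p] at this
      linarith
    · have := dist_triangle x z q
      linarith

theorem Bt.dist_eq {p z z' q : T} (h : Bt p z q) (h' : Bt p z' q) :
    dist z z' = |dist p z - dist p z'| := by
  have h1 := proj hT h' z
  rw [h1]
  unfold Bt at h h'
  rw [dist_comm z p]
  apply le_antisymm
  · apply max_le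
    · exact le_abs_self _
    · have := neg_abs_le (dist p z - dist p z')
      linarith
  · rcases abs_cases (dist p z - dist p z') with ⟨h2, _⟩ | ⟨h2, _⟩
    · rw [h2]; exact le_max_left _ _
    · rw [h2]
      apply le_max_of_le_right
      linarith

theorem Bt.uniq {p z z' q : T} (h : Bt p z q) (h' : Bt p z' q) (he : dist p z = dist p z') :
    z = z' := by
  rw [← dist_eq_zero, h.dist_eq hT h', he, sub_self, abs_zero]

/-- two points of a segment are ordered -/
theorem Bt.ord {p z z' q : T} (h : Bt p z q) (h' : Bt p z' q) (he : dist p z ≤ dist p z') :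
    Bt p z z' := by
  unfold Bt
  rw [h.dist_eq hT h', abs_of_nonpos (by linarith)]
  ring

/-- a point between `z` and `z'` is on one of the segments to `o` -/
theorem Bt.tripod {z y z' : T} (h : Bt z y z') (o : T) : Bt o y z ∨ Bt o y z' := by
  have h1 := proj hT h o
  rcases max_choice (dist o z - dist z y) (dist o z' - dist y z') with h2 | h2
  · left
    unfold Bt
    rw [dist_comm y z]
    linarith
  · right
    unfold Bt
    linarith

section overlap
variable {p q p' q' : T}

/-- Two segments with parameters `α ≠ β`: position of the common points. -/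
theorem overlap_aux (hlt : dist p p' - dist p' q < dist p q' - dist q' q) :
    dist p' q' = dist p q' + dist p' q - dist p q := by
  have h1 := hT.hyp p q p' q'
  have h2 := hT.hyp p q' p' q
  rw [dist_comm q p'] at h1
  rw [dist_comm q' p', dist_comm q' q] at h2
  rw [dist_comm q' q] at hlt
  apply le_antisymm
  · rcases le_max_iff.1 h1 with h3 | h3 <;> linarith
  · rcases le_max_iff.1 h2 with h3 | h3 <;> linarith

/-- projection parameter of `x` on `[p, q]` -/
noncomputable def pr (p q x : T) : ℝ := (dist p x + dist p q - dist x q) / 2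

omit hT in
theorem pr_def (p q x : T) : pr p q x = (dist p x + dist p q - dist x q) / 2 := rfl

/-- common points -/
theorem overlap_iff (hne : pr p q p' ≠ pr p q q') {z : T} (hz : Bt p z q) :
    Bt p' z q' ↔ min (pr p q p') (pr p q q') ≤ dist p z ∧
      dist p z ≤ max (pr p q p') (pr p q q') := by
  have e1 := proj hT hz p'
  have e2 := proj hT hz q'
  have hz' := hz
  unfold Bt at hz' ⊢
  rw [dist_comm z q']
  rw [dist_comm p' p] at e1
  rw [dist_comm q' p] at e2
  rcases lt_or_gt_of_ne hne with hlt | hlt
  · rw [min_eq_left hlt.le, max_eq_right hlt.le]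
    unfold pr at hlt ⊢
    have h3 := overlap_aux hT (p := p) (q := q) (p' := p') (q' := q') (by linarith)
    rw [h3, e1, e2]
    constructor
    · intro h4
      rcases max_cases (dist p p' - dist p z) (dist p' q - dist z q) with ⟨a1, a2⟩ | ⟨a1, a2⟩ <;>
      rcases max_cases (dist p q' - dist p z) (dist q' q - dist z q) with ⟨b1, b2⟩ | ⟨b1, b2⟩ <;>
      rw [a1, b1] at h4 <;> constructor <;> linarith
    · rintro ⟨h4, h5⟩
      have a1 : max (dist p p' - dist p z) (dist p' q - dist z q) = dist p' q - dist z q :=
        max_eq_right (by linarith)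
      have b1 : max (dist p q' - dist p z) (dist q' q - dist z q) = dist p q' - dist p z :=
        max_eq_left (by linarith)
      rw [a1, b1]
      linarith
  · rw [min_eq_right hlt.le, max_eq_left hlt.le]
    unfold pr at hlt ⊢
    have h3 := overlap_aux hT (p := p) (q := q) (p' := q') (q' := p') (by linarith)
    rw [dist_comm q' p'] at h3
    rw [h3, e1, e2]
    constructor
    · intro h4
      rcases max_cases (dist p p' - dist p z) (dist p' q - dist z q) with ⟨a1, a2⟩ | ⟨a1, a2⟩ <;>
      rcases max_cases (dist p q' - dist p z) (dist q' q - dist z q) with ⟨b1, b2⟩ | ⟨b1, b2⟩ <;>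
      rw [a1, b1] at h4 <;> constructor <;> linarith
    · rintro ⟨h4, h5⟩
      have a1 : max (dist p p' - dist p z) (dist p' q - dist z q) = dist p p' - dist p z :=
        max_eq_left (by linarith)
      have b1 : max (dist p q' - dist p z) (dist q' q - dist z q) = dist q' q - dist z q :=
        max_eq_right (by linarith)
      rw [a1, b1]
      linarith

/-- distance from `p'` to a point of the segment -/
theorem dist_pr {z : T} (hz : Bt p z q) :
    dist p' z = (dist p p' - pr p q p') + |dist p z - pr p q p'| := by
  have e1 := proj hT hz p'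
  rw [dist_comm p' p] at e1
  have hz' := hz
  unfold Bt at hz'
  rw [e1]
  unfold pr
  rcases max_cases (dist p p' - dist p z) (dist p' q - dist z q) with ⟨a1, a2⟩ | ⟨a1, a2⟩
  · rw [a1, abs_of_nonpos (by linarith)]; ring
  · rw [a1, abs_of_nonneg (by linarith)]; linarith

/-- two common points -/
theorem overlap_ne {z z' : T} (hz : Bt p z q) (hz' : Bt p z' q) (h : Bt p' z q')
    (h' : Bt p' z' q') (hne : z ≠ z') : pr p q p' ≠ pr p q q' := by
  intro he
  -- both points are at parameter `α`
  have key : ∀ y : T, Bt p y q → Bt p' y q' →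
      2 * |dist p y - pr p q p'| = dist p' q' - (dist p p' + dist p q') + 2 * pr p q p' := by
    intro y hy hy'
    have e1 := dist_pr hT (p' := p') hy
    have e2 := dist_pr hT (p' := q') hy
    rw [← he] at e2
    unfold Bt at hy'
    rw [dist_comm y q'] at hy'
    linarith
  -- the right hand side is at most zero
  have hr : dist p' q' - (dist p p' + dist p q') + 2 * pr p q p' ≤ 0 := by
    have h1 := hT.hyp p' q' p q
    unfold pr at he ⊢
    have h3 : dist p p' - dist p' q = dist p q' - dist q' q := by linarith
    rw [dist_comm p' p, dist_comm q' p] at h1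
    rcases le_max_iff.1 h1 with h4 | h4 <;> linarith
  have k1 := key z hz h
  have k2 := key z' hz' h'
  have n1 := abs_nonneg (dist p z - pr p q p')
  have n2 := abs_nonneg (dist p z' - pr p q p')
  have z1 : |dist p z - pr p q p'| = 0 := by linarith
  have z2 : |dist p z' - pr p q p'| = 0 := by linarith
  rw [abs_eq_zero, sub_eq_zero] at z1 z2
  exact hne (hz.uniq hT hz' (z1.trans z2.symm))

end overlap

end

/-- a point of the segment `[p, q]` at given distance from `p` (junk outside) -/
noncomputable def sp {T : Type} [MetricSpace T] (p q : T) (t : ℝ) : T :=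
  open Classical in if h : ∃ z, Bt p z q ∧ dist p z = t then h.choose else p

theorem sp_spec {T : Type} [MetricSpace T] (hT : IsRT T) (p q : T) {t : ℝ} (h0 : 0 ≤ t)
    (h1 : t ≤ dist p q) : Bt p (sp p q t) q ∧ dist p (sp p q t) = t := by
  have hex : ∃ z, Bt p z q ∧ dist p z = t := by
    obtain ⟨z, hz1, hz2⟩ := hT.geo p q t h0 h1
    exact ⟨z, by unfold Bt; linarith, hz1⟩
  unfold sp
  rw [dif_pos hex]
  exact hex.choose_spec

theorem sp_eq {T : Type} [MetricSpace T] (hT : IsRT T) {p q z : T} (h : Bt p z q) :
    sp p q (dist p z) = z := by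
  obtain ⟨h1, h2⟩ := sp_spec hT p q dist_nonneg h.le
  exact h1.uniq hT h h2

end Pool.Agent.FrR
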