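import Pool.Agent.Lib.MP_305fdd_al.Fr.R.State
import Pool.Agent.Lib.MP_305fdd_al.Fr.T.BS

/-!
# The edge group: loops of the integral system
-/

set_option autoImplicit false

namespace Pool.Agent.FrR

open Pool.Agent.FrZ

/-- kernel of the composition with a quotient map -/
theorem ker_comp {F G : Type} [Group F] [Group G] (π : F →* G) (hπ : Function.Surjective π)
    {R U : Set F} (hker : π.ker = Subgroup.normalClosure R) {N : Subgroup G} [N.Normal]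
    (hN : N = Subgroup.normalClosure (π '' U)) (w : F)
    (hw : (QuotientGroup.mk' N) (π w) = 1) : w ∈ Subgroup.normalClosure (R ∪ U) := by
  have h1 : π w ∈ N := (QuotientGroup.eq_one_iff (π w)).1 hw
  rw [hN, ← Subgroup.map_normalClosure U π hπ] at h1
  obtain ⟨v, hv, hvw⟩ := h1
  have h2 : w * v⁻¹ ∈ π.ker := by
    rw [MonoidHom.mem_ker, map_mul, map_inv, hvw, mul_inv_cancel]
  rw [hker] at h2
  have h3 := Subgroup.normalClosure_mono (Set.subset_union_left (s := R) (t := U)) h2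
  have h4 := Subgroup.normalClosure_mono (Set.subset_union_right (s := R) (t := U)) hv
  have := mul_mem h3 h4
  rwa [inv_mul_cancel_right] at this

section
variable {S Γ T : Type} [Group Γ] [MetricSpace T] [MulAction Γ T]
variable {ρ : FreeGroup S →* Γ} {o : T} {P : Finset (FreeGroup S)} {ℓ₀ lo : FreeGroup S → ℝ}
variable (hT : IsRT T) (hiso : ∀ (g : Γ) (p q : T), dist (g • p) (g • q) = dist p q)
  (hC : Cp P ℓ₀ (len ρ o)) (hP : HP P (len ρ o)) {X : Sys (Jx P ℓ₀) (Ix P ℓ₀) ℤ}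
  (hX : toR X = bsys P ℓ₀ (len ρ o) lo) (hG : X.Good) (hE : Ev X)
  {H : Type} [Group H] (π : FreeGroup S →* H)
  {y0 z0 y1 z1 : VK P ρ o} {i : Ix P ℓ₀} {e : ℤ} (hrep : Rep ρ o lo X i e true y0.1 z0.1)
  (δ : List (S × Bool)) (hδy : (hpa P ρ o).Path δ y0 y1) (hδz : (hpa P ρ o).Path δ z0 z1)

include hT hiso hC hP hX hG hE hrep hδy hδz in
/-- labels of loops are in the edge group -/
theorem sc_mem (γ : List (Jx P ℓ₀ × Bool)) (d : Bool) (hv : X.Valid (X.OK 0) γ (e, d))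
    (hr : (X.run γ (e, d)).1 = e) :
    π (FrT.lab δ) * π (labJ P ℓ₀ (lab γ)) * (π (FrT.lab δ))⁻¹ ∈
      FrT.SC H ((hpa P ρ o).pt π 1 y1) ((hpa P ρ o).pt π 1 z1) := by
  have hpath : (hpa P ρ o).Path (wS γ) y0 y0 ∧ (hpa P ρ o).Path (wS γ) z0 z0 := by
    cases d
    · have h := rep_closed' hT hiso hC hP hX hG hE (y := z0) (z := y0) hrep.flip γ hv hr
      exact ⟨h.2.2, h.2.1⟩
    · have h := rep_closed' hT hiso hC hP hX hG hE hrep γ hv hr
      exact h.2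
  have key : ∀ (a0 a1 : VK P ρ o), (hpa P ρ o).Path δ a0 a1 → (hpa P ρ o).Path (wS γ) a0 a0 →
      (π (FrT.lab δ) * π (labJ P ℓ₀ (lab γ)) * (π (FrT.lab δ))⁻¹) • (hpa P ρ o).pt π 1 a1 =
        (hpa P ρ o).pt π 1 a1 := by
    intro a0 a1 h1 h2
    rw [FrT.PA.stab_iff]
    refine ⟨FrT.PA.rev δ ++ (wS γ ++ δ), ?_, ?_⟩
    · exact ((hpa P ρ o).path_append _ _ _ _).2 ⟨a0, (hpa P ρ o).path_rev δ _ _ h1,
        ((hpa P ρ o).path_append _ _ _ _).2 ⟨a0, h2, h1⟩⟩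
    · rw [FrT.lab_append, FrT.lab_append, FrT.PA.lab_rev, lab_wS, map_mul, map_mul, map_inv]
  exact ⟨key y0 y1 hδy hpath.1, key z0 z1 hδz hpath.2⟩

variable (hπ : Function.Surjective π) {R : Set (FreeGroup S)}
  (hker : ∀ w, π w = 1 → w ∈ Subgroup.normalClosure R)
  (hR : ∀ r ∈ R, π r = 1 ∧ ∃ γ p, (hpa P ρ o).Path γ p p ∧ FrT.lab γ = r)

include hT hiso hC hP hX hG hE hrep hδy hδz hπ hker hR in
/-- elements of the edge group are labels of loops -/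
theorem sc_loop (hadj : (hpa P ρ o).K.Adj y1 z1) (g : H)
    (hg : g ∈ FrT.SC H ((hpa P ρ o).pt π 1 y1) ((hpa P ρ o).pt π 1 z1)) :
    ∃ γ : List (Jx P ℓ₀ × Bool), X.Valid (X.OK 0) γ (e, true) ∧ X.run γ (e, true) = (e, true) ∧
      g = π (FrT.lab δ) * π (labJ P ℓ₀ (lab γ)) * (π (FrT.lab δ))⁻¹ := by
  have hgood := hpa_good hT hiso hP
  obtain ⟨γ', h1, h2, h3⟩ := ((hpa P ρ o).edge_stab π hgood hπ hker hR hadj g).1 hg
  obtain ⟨γ, a1, a2, a3⟩ := exists_word hT hiso hC hP hX hG hE (δ ++ (γ' ++ FrT.PA.rev δ))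
    hrep hrep (hrep.dist hT hX hE)
    (((hpa P ρ o).path_append _ _ _ _).2 ⟨y1, hδy, ((hpa P ρ o).path_append _ _ _ _).2
      ⟨y1, h1, (hpa P ρ o).path_rev δ _ _ hδy⟩⟩)
    (((hpa P ρ o).path_append _ _ _ _).2 ⟨z1, hδz, ((hpa P ρ o).path_append _ _ _ _).2
      ⟨z1, h2, (hpa P ρ o).path_rev δ _ _ hδz⟩⟩)
  refine ⟨γ, a1, a2, ?_⟩
  rw [a3, FrT.lab_append, FrT.lab_append, FrT.PA.lab_rev, map_mul, map_mul, map_inv, h3]
  group

include hT hiso hC hP hX hG hE hrep hδy hδz hπ hker hR in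
/-- the edge group is finitely generated -/
theorem sc_fg (hadj : (hpa P ρ o).K.Adj y1 z1) (A : Finset (FreeGroup (Jx P ℓ₀)))
    (hA : ∀ a ∈ A, ∃ γ d, X.Valid (X.OK 0) γ (e, d) ∧ (X.run γ (e, d)).1 = e ∧ lab γ = a)
    (hA' : ∀ γ d, X.Valid (X.OK 0) γ (e, d) → (X.run γ (e, d)).1 = e →
        lab γ ∈ Subgroup.closure (A : Set (FreeGroup (Jx P ℓ₀)))) :
    (FrT.SC H ((hpa P ρ o).pt π 1 y1) ((hpa P ρ o).pt π 1 z1)).FG := by
  classical
  set φ : FreeGroup (Jx P ℓ₀) →* H :=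
    (MulAut.conj (π (FrT.lab δ))).toMonoidHom.comp (π.comp (labJ P ℓ₀)) with hφ
  have hφa : ∀ a, φ a = π (FrT.lab δ) * π (labJ P ℓ₀ a) * (π (FrT.lab δ))⁻¹ := fun a => rfl
  refine ⟨A.image φ, ?_⟩
  apply le_antisymm
  · rw [Subgroup.closure_le]
    intro g hg
    obtain ⟨a, ha, rfl⟩ := Finset.mem_image.1 hg
    obtain ⟨γ, d, h1, h2, h3⟩ := hA a ha
    have := sc_mem hT hiso hC hP hX hG hE π hrep δ hδy hδz γ d h1 h2
    rw [h3] at this
    exact this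
  · intro g hg
    obtain ⟨γ, h1, h2, h3⟩ := sc_loop hT hiso hC hP hX hG hE π hrep δ hδy hδz hπ hker hR hadj g hg
    have h4 := hA' γ true h1 (by rw [h2])
    have h5 : φ (lab γ) ∈ (Subgroup.closure (A : Set (FreeGroup (Jx P ℓ₀)))).map φ :=
      Subgroup.mem_map_of_mem φ h4
    rw [MonoidHom.map_closure] at h5
    rw [h3, ← hφa, Finset.coe_image]
    exact h5

include hT hiso hC hP hX hG hE in
/-- relators which are labels of loops are visible -/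
theorem loop_vis (γ : List (Jx P ℓ₀ × Bool)) {x : ℤ} {d : Bool} {j : Ix P ℓ₀}
    (h1 : X.lo j < x) (h2 : x < X.hi j) (h3 : Odd x) (hv : X.Valid (X.OK 0) γ (x, d))
    (hr : X.run γ (x, d) = (x, d)) :
    ∃ (δ : List (S × Bool)) (p : VK P ρ o), (hpa P ρ o).Path δ p p ∧
      FrT.lab δ = labJ P ℓ₀ (lab γ) := by
  obtain ⟨y, z, h⟩ := rep_exists hT hP hX hE h1 h2 h3 d
  have h4 := rep_closed' hT hiso hC hP hX hG hE h γ hv (by rw [hr])
  exact ⟨wS γ, y, h4.2.1, lab_wS γ⟩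

end

end Pool.Agent.FrR
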