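import Pool.Agent.Lib.MP_305fdd_al.Fr.R.STree

/-!
# The real tree of `SL₂(K)`: geodesics, coordinates, small actions
-/

set_option autoImplicit false

namespace Pool.Agent.FrR

open Matrix

variable {K : Type} [Field K] {V : RV K}

/-- matrix from two columns -/
def mat (a b c d : K) (h : a * d - b * c = 1) : SpecialLinearGroup (Fin 2) K :=
  ⟨!![a, b; c, d], by rw [Matrix.det_fin_two_of]; exact h⟩

/-- any two points are in the apartment of one matrix -/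
theorem Pre.split (p q : Pre V) : ∃ (k : SpecialLinearGroup (Fin 2) K) (τ : ℝ),
    cls p = cls (⟨k, τ⟩ : Pre V) ∧ cls q = cls (⟨k, τ + Pre.dd p q⟩ : Pre V) := by
  obtain ⟨i, j, h0, h1⟩ := Pre.attain p q
  set D := Pre.dd p q with hD
  set ω := Pre.wd p q i j with hω
  have hdet : q.g.1 0 j * (-(p.g.1 1 i) / ω) - (-(p.g.1 0 i) / ω) * q.g.1 1 j = 1 := by
    field_simp
    rw [hω]
    unfold Pre.wd
    ring
  set k := mat _ _ _ _ hdet with hk
  have k00 : k.1 0 0 = q.g.1 0 j := rfl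
  have k10 : k.1 1 0 = q.g.1 1 j := rfl
  have k01 : k.1 0 1 = -(p.g.1 0 i) / ω := rfl
  have k11 : k.1 1 1 = -(p.g.1 1 i) / ω := rfl
  have hvω : V.v ω⁻¹ = D - wt p.t i - wt q.t j := by
    rw [V.v_inv h0]; linarith
  have gω : V.Ge (D - wt p.t i - wt q.t j) ω⁻¹ := Or.inr hvω.ge
  refine ⟨k, wt q.t j - D, ?_, ?_⟩
  · rw [cls_eq_iff]
    refine le_antisymm ?_ (Pre.dd_nonneg _ _)
    rw [Pre.dd_le_iff]
    intro a b
    fin_cases b
    · have h2 : Pre.wd p (⟨k, wt q.t j - D⟩ : Pre V) a 0 = Pre.wd p q a j := by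
        unfold Pre.wd
        simp only [k00, k10]
      show V.Ge _ (Pre.wd p (⟨k, wt q.t j - D⟩ : Pre V) a 0)
      rw [h2]
      refine (Pre.ge_wd p q a j).mono (le_of_eq ?_)
      show wt p.t a + wt (wt q.t j - D) 0 - 0 = _
      simp only [wt_zero]
      ring
    · have h2 : Pre.wd p (⟨k, wt q.t j - D⟩ : Pre V) a 1 = -(Pre.wd p p a i * ω⁻¹) := by
        unfold Pre.wd
        simp only [k01, k11]
        field_simp
        ring
      show V.Ge _ (Pre.wd p (⟨k, wt q.t j - D⟩ : Pre V) a 1)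
      rw [h2, Pre.wd_self]
      by_cases hai : a = i
      · rw [if_pos hai]
        left; simp
      · rw [if_neg hai]
        have h3 : wt p.t a = - wt p.t i := by
          fin_cases a <;> fin_cases i <;> simp at hai ⊢
        have h4 : V.Ge (wt p.t a + wt (wt q.t j - D) 1 - 0) ω⁻¹ := by
          refine gω.mono (le_of_eq ?_)
          simp only [wt_one]
          rw [h3]; ring
        split_ifs
        · rw [one_mul]; exact h4.neg
        · rw [neg_one_mul, neg_neg]; exact h4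
  · rw [cls_eq_iff]
    refine le_antisymm ?_ (Pre.dd_nonneg _ _)
    rw [Pre.dd_le_iff, sub_add_cancel]
    intro a b
    fin_cases b
    · have h2 : Pre.wd q (⟨k, wt q.t j⟩ : Pre V) a 0 = Pre.wd q q a j := by
        unfold Pre.wd
        simp only [k00, k10]
      show V.Ge _ (Pre.wd q (⟨k, wt q.t j⟩ : Pre V) a 0)
      rw [h2, Pre.wd_self]
      by_cases haj : a = j
      · rw [if_pos haj]; left; rfl
      · rw [if_neg haj]
        have h3 : wt q.t a = - wt q.t j := by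
          fin_cases a <;> fin_cases j <;> simp at haj ⊢
        have h4 : wt q.t a + wt (wt q.t j) 0 - 0 = 0 := by
          simp only [wt_zero]; rw [h3]; ring
        show V.Ge (wt q.t a + wt (wt q.t j) 0 - 0) _
        rw [h4]
        split_ifs
        · exact V.ge_one
        · exact V.ge_one.neg
    · have h2 : Pre.wd q (⟨k, wt q.t j⟩ : Pre V) a 1 = Pre.wd p q i a * ω⁻¹ := by
        unfold Pre.wd
        simp only [k01, k11]
        field_simp
        ring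
      show V.Ge _ (Pre.wd q (⟨k, wt q.t j⟩ : Pre V) a 1)
      rw [h2]
      refine ((Pre.ge_wd p q i a).mul gω).mono (le_of_eq ?_)
      show wt q.t a + wt (wt q.t j) 1 - 0 = _
      simp only [wt_one]
      ring

theorem wd_same (k : SpecialLinearGroup (Fin 2) K) (s t : ℝ) (i j : Fin 2) :
    Pre.wd (⟨k, s⟩ : Pre V) (⟨k, t⟩ : Pre V) i j =
      if i = j then 0 else if i = 0 then 1 else -1 :=
  Pre.wd_self (⟨k, s⟩ : Pre V) i j

/-- distance in an apartment -/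
theorem dd_same (k : SpecialLinearGroup (Fin 2) K) (s t : ℝ) :
    Pre.dd (⟨k, s⟩ : Pre V) (⟨k, t⟩ : Pre V) = |s - t| := by
  apply le_antisymm
  · rw [Pre.dd_le_iff]
    intro i j
    rw [wd_same]
    have h1 := le_abs_self (s - t)
    have h2 := neg_abs_le (s - t)
    fin_cases i <;> fin_cases j
    · left; simp
    · show V.Ge (wt s 0 + wt t 1 - |s - t|) _
      simp only [wt_zero, wt_one]
      refine V.ge_one.mono ?_
      linarith
    · show V.Ge (wt s 1 + wt t 0 - |s - t|) _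
      simp only [wt_zero, wt_one]
      refine V.ge_one.neg.mono ?_
      linarith
    · left; simp
  · have h3 := Pre.ge_wd (⟨k, s⟩ : Pre V) (⟨k, t⟩ : Pre V) 0 1
    have h4 := Pre.ge_wd (⟨k, s⟩ : Pre V) (⟨k, t⟩ : Pre V) 1 0
    rw [wd_same] at h3 h4
    simp only [wt_zero, wt_one, zero_ne_one, one_ne_zero, if_false, if_true] at h3 h4
    have h5 := h4.neg
    rw [neg_neg] at h5
    rw [V.ge_one_iff] at h3 h5
    rw [abs_le]
    constructor <;> linarith

theorem dist_same (k : SpecialLinearGroup (Fin 2) K) (s t : ℝ) :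
    dist (cls (⟨k, s⟩ : Pre V)) (cls (⟨k, t⟩ : Pre V)) = |s - t| := dd_same k s t

/-- any two points are in the apartment of one matrix -/
theorem split (x y : Tr V) : ∃ (k : SpecialLinearGroup (Fin 2) K) (τ : ℝ),
    x = cls (⟨k, τ⟩ : Pre V) ∧ y = cls (⟨k, τ + dist x y⟩ : Pre V) := by
  obtain ⟨p, rfl⟩ := cls_surj x
  obtain ⟨q, rfl⟩ := cls_surj y
  exact Pre.split p q

theorem isRT (V : RV K) : IsRT (Tr V) where
  hyp x y z w := by
    obtain ⟨p, rfl⟩ := cls_surj x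
    obtain ⟨q, rfl⟩ := cls_surj y
    obtain ⟨r, rfl⟩ := cls_surj z
    obtain ⟨s, rfl⟩ := cls_surj w
    exact Pre.dd_hyp p q r s
  geo x y t h0 h1 := by
    obtain ⟨k, τ, hx, hy⟩ := split x y
    set D := dist x y with hD
    refine ⟨cls (⟨k, τ + t⟩ : Pre V), ?_, ?_⟩
    · rw [hx, dist_same]
      rw [show τ - (τ + t) = -t by ring, abs_neg, abs_of_nonneg h0]
    · rw [hy, dist_same]
      rw [show τ + t - (τ + D) = -(D - t) by ring, abs_neg, abs_of_nonneg (by linarith)]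

/-- the action in coordinates -/
theorem smul_coord (k g a : SpecialLinearGroup (Fin 2) K) (ha : a = k⁻¹ * g * k) (s t : ℝ) :
    g • cls (⟨k, s⟩ : Pre V) = cls (⟨k, t⟩ : Pre V) ↔
      V.Ge (s + t) (a.1 1 0) ∧ V.Ge (t - s) (a.1 1 1) ∧ V.Ge (s - t) (a.1 0 0) ∧
        V.Ge (-(s + t)) (a.1 0 1) := by
  have hg : g * k = k * a := by rw [ha]; group
  have h1 : g • cls (⟨k, s⟩ : Pre V) = k • cls (⟨a, s⟩ : Pre V) := by
    rw [smul_cls, smul_cls]
    show cls (⟨g * k, s⟩ : Pre V) = cls (⟨k * a, s⟩ : Pre V)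
    rw [hg]
  have h2 : cls (⟨k, t⟩ : Pre V) = k • cls (⟨1, t⟩ : Pre V) := by
    rw [smul_cls]
    show cls (⟨k, t⟩ : Pre V) = cls (⟨k * 1, t⟩ : Pre V)
    rw [mul_one]
  rw [h1, h2, smul_left_cancel_iff, eq_comm, cls_eq_iff]
  have w00 : Pre.wd (⟨1, t⟩ : Pre V) (⟨a, s⟩ : Pre V) 0 0 = a.1 1 0 := by simp [Pre.wd]
  have w01 : Pre.wd (⟨1, t⟩ : Pre V) (⟨a, s⟩ : Pre V) 0 1 = a.1 1 1 := by simp [Pre.wd]
  have w10 : Pre.wd (⟨1, t⟩ : Pre V) (⟨a, s⟩ : Pre V) 1 0 = - a.1 0 0 := by simp [Pre.wd]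
  have w11 : Pre.wd (⟨1, t⟩ : Pre V) (⟨a, s⟩ : Pre V) 1 1 = - a.1 0 1 := by simp [Pre.wd]
  have h3 : Pre.dd (⟨1, t⟩ : Pre V) (⟨a, s⟩ : Pre V) = 0 ↔
      Pre.dd (⟨1, t⟩ : Pre V) (⟨a, s⟩ : Pre V) ≤ 0 :=
    ⟨fun h => h.le, fun h => le_antisymm h (Pre.dd_nonneg _ _)⟩
  rw [h3, Pre.dd_le_iff, Fin.forall_fin_two, Fin.forall_fin_two, Fin.forall_fin_two]
  simp only [w00, w01, w10, w11, wt_zero, wt_one, sub_zero]
  constructor
  · rintro ⟨⟨b1, b2⟩, b3, b4⟩
    refine ⟨?_, ?_, ?_, ?_⟩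
    · rwa [add_comm]
    · rwa [sub_eq_add_neg]
    · have := b3.neg
      rw [neg_neg] at this
      rwa [sub_eq_neg_add]
    · have := b4.neg
      rw [neg_neg] at this
      rwa [neg_add_rev]
  · rintro ⟨b1, b2, b3, b4⟩
    refine ⟨⟨?_, ?_⟩, ?_, ?_⟩
    · rwa [add_comm]
    · rwa [← sub_eq_add_neg]
    · rw [← sub_eq_neg_add]
      exact b3.neg
    · rw [neg_add_rev] at b4
      exact b4.neg

/-- the length function -/
theorem dist_bp_le (g : SpecialLinearGroup (Fin 2) K) (c : ℝ) :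
    dist (bp V) (g • bp V) ≤ c ↔ ∀ i j, V.Ge (-c) (g.1 i j) := by
  have h : g • bp V = cls (⟨g * 1, 0⟩ : Pre V) := rfl
  rw [h, bp, dist_cls, mul_one, Pre.dd_le_iff]
  have w00 : Pre.wd (⟨1, 0⟩ : Pre V) (⟨g, 0⟩ : Pre V) 0 0 = g.1 1 0 := by simp [Pre.wd]
  have w01 : Pre.wd (⟨1, 0⟩ : Pre V) (⟨g, 0⟩ : Pre V) 0 1 = g.1 1 1 := by simp [Pre.wd]
  have w10 : Pre.wd (⟨1, 0⟩ : Pre V) (⟨g, 0⟩ : Pre V) 1 0 = - g.1 0 0 := by simp [Pre.wd]
  have w11 : Pre.wd (⟨1, 0⟩ : Pre V) (⟨g, 0⟩ : Pre V) 1 1 = - g.1 0 1 := by simp [Pre.wd]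
  rw [Fin.forall_fin_two, Fin.forall_fin_two, Fin.forall_fin_two, Fin.forall_fin_two,
    Fin.forall_fin_two, Fin.forall_fin_two]
  simp only [w00, w01, w10, w11, wt_zero, wt_one, zero_sub, neg_zero, add_zero]
  constructor
  · rintro ⟨⟨b1, b2⟩, b3, b4⟩
    exact ⟨⟨by simpa using b3.neg, by simpa using b4.neg⟩, b1, b2⟩
  · rintro ⟨⟨b3, b4⟩, b1, b2⟩
    exact ⟨⟨b1, b2⟩, b3.neg, b4.neg⟩

end Pool.Agent.FrR
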