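import Pool.Agent.Lib.MP_305fdd_al.Fr.R.Defs
import Pool.Agent.Lib.MP_305fdd_al.F2.ChDefs

/-!
# The real tree of `SL₂(K)` for a real valuation of `K`

Pre-points are pairs `(g, t)`, `g ∈ SL₂(K)`, `t ∈ ℝ`: the norm with splitting basis the columns of
`g` and weights `t, -t`.
-/

set_option autoImplicit false

namespace Pool.Agent.FrR

open Matrix

/-- real valuations -/
structure RV (K : Type) [Field K] where
  v : K → ℝ
  isV : F2Ch.IsV v

namespace RV

variable {K : Type} [Field K] (V : RV K)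

theorem v_one : V.v 1 = 0 := by
  have := V.isV.mul 1 1 one_ne_zero one_ne_zero
  rw [one_mul] at this
  linarith

theorem v_mul {x y : K} (hx : x ≠ 0) (hy : y ≠ 0) : V.v (x * y) = V.v x + V.v y :=
  V.isV.mul x y hx hy

theorem v_neg (x : K) : V.v (-x) = V.v x := by
  by_cases hx : x = 0
  · rw [hx, neg_zero]
  · have h1 : V.v (-1 : K) = 0 := by
      have := V.isV.mul (-1) (-1) (by simp) (by simp)
      rw [neg_mul_neg, one_mul, V.v_one] at this
      linarith
    have h2 := V.v_mul (x := -1) (y := x) (by simp) hx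
    rw [neg_one_mul, h1, zero_add] at h2
    exact h2

theorem v_inv {x : K} (hx : x ≠ 0) : V.v x⁻¹ = - V.v x := by
  have h := V.v_mul hx (inv_ne_zero hx)
  rw [mul_inv_cancel₀ hx, V.v_one] at h
  linarith

/-- zero or value at least `c` -/
def Ge (c : ℝ) (x : K) : Prop := x = 0 ∨ c ≤ V.v x

variable {V}

theorem Ge.mul {a b : ℝ} {x y : K} (hx : V.Ge a x) (hy : V.Ge b y) : V.Ge (a + b) (x * y) := by
  rcases hx with hx | hx
  · left; rw [hx, zero_mul]
  rcases hy with hy | hy
  · left; rw [hy, mul_zero]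
  by_cases h1 : x = 0
  · left; rw [h1, zero_mul]
  by_cases h2 : y = 0
  · left; rw [h2, mul_zero]
  right
  rw [V.v_mul h1 h2]
  linarith

theorem Ge.mono {a b : ℝ} {x : K} (hx : V.Ge a x) (h : b ≤ a) : V.Ge b x :=
  hx.imp_right fun h' => h.trans h'

theorem Ge.neg {a : ℝ} {x : K} (hx : V.Ge a x) : V.Ge a (-x) := by
  rcases hx with hx | hx
  · left; rw [hx, neg_zero]
  · right; rwa [V.v_neg]

theorem Ge.add {a : ℝ} {x y : K} (hx : V.Ge a x) (hy : V.Ge a y) : V.Ge a (x + y) := by
  by_cases h1 : x = 0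
  · rw [h1, zero_add]; exact hy
  by_cases h2 : y = 0
  · rw [h2, add_zero]; exact hx
  by_cases h3 : x + y = 0
  · left; exact h3
  rcases hx with hx | hx
  · exact absurd hx h1
  rcases hy with hy | hy
  · exact absurd hy h2
  right
  exact (le_min hx hy).trans (V.isV.add x y h1 h2 h3)

theorem Ge.sub {a : ℝ} {x y : K} (hx : V.Ge a x) (hy : V.Ge a y) : V.Ge a (x - y) := by
  rw [sub_eq_add_neg]
  exact hx.add hy.neg

variable (V)

theorem ge_zero (a : ℝ) : V.Ge a 0 := Or.inl rfl

theorem ge_one : V.Ge 0 1 := Or.inr V.v_one.ge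

theorem ge_self (x : K) : V.Ge (V.v x) x := Or.inr le_rfl

theorem ge_iff {a : ℝ} {x : K} (hx : x ≠ 0) : V.Ge a x ↔ a ≤ V.v x :=
  ⟨fun h => h.resolve_left hx, Or.inr⟩

theorem ge_one_iff {a : ℝ} : V.Ge a 1 ↔ a ≤ 0 := by
  rw [V.ge_iff one_ne_zero, V.v_one]

end RV

/-- the weights -/
def wt (t : ℝ) (i : Fin 2) : ℝ := if i = 0 then t else -t

@[simp] theorem wt_zero (t : ℝ) : wt t 0 = t := rfl
@[simp] theorem wt_one (t : ℝ) : wt t 1 = -t := rfl

section
variable {K : Type} [Field K]

/-- pre-points -/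
structure Pre (V : RV K) where
  g : SpecialLinearGroup (Fin 2) K
  t : ℝ

namespace Pre

variable {V : RV K} (p q r s : Pre V)

/-- the wedge product of two columns -/
def wd (i j : Fin 2) : K := p.g.1 0 i * q.g.1 1 j - p.g.1 1 i * q.g.1 0 j

/-- defect at a pair of columns -/
noncomputable def tm (i j : Fin 2) : ℝ :=
  open Classical in if wd p q i j = 0 then 0 else wt p.t i + wt q.t j - V.v (wd p q i j)

/-- the distance -/
noncomputable def dd : ℝ := max (max (tm p q 0 0) (tm p q 0 1)) (max (tm p q 1 0) (tm p q 1 1))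

theorem tm_le_dd (i j : Fin 2) : tm p q i j ≤ dd p q := by
  unfold dd
  fin_cases i <;> fin_cases j <;> simp

theorem det_id : p.g.1 0 0 * p.g.1 1 1 - p.g.1 0 1 * p.g.1 1 0 = 1 := by
  have := p.g.2
  rwa [Matrix.det_fin_two] at this

theorem wd_det : wd p q 0 0 * wd p q 1 1 - wd p q 0 1 * wd p q 1 0 = 1 := by
  have h1 := det_id p
  have h2 := det_id q
  unfold wd
  linear_combination (q.g.1 0 0 * q.g.1 1 1 - q.g.1 0 1 * q.g.1 1 0) * h1 + h2

/-- a nonzero product of wedge products with nonpositive value -/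
theorem exists_prod : (wd p q 0 0 ≠ 0 ∧ wd p q 1 1 ≠ 0 ∧ V.v (wd p q 0 0) + V.v (wd p q 1 1) ≤ 0) ∨
    (wd p q 0 1 ≠ 0 ∧ wd p q 1 0 ≠ 0 ∧ V.v (wd p q 0 1) + V.v (wd p q 1 0) ≤ 0) := by
  by_contra hcon
  push Not at hcon
  obtain ⟨h1, h2⟩ := hcon
  have hex : ∃ ε : ℝ, 0 < ε ∧ V.Ge ε (wd p q 0 0 * wd p q 1 1) ∧
      V.Ge ε (wd p q 0 1 * wd p q 1 0) := by
    by_cases a1 : wd p q 0 0 = 0 ∨ wd p q 1 1 = 0
    · have e1 : wd p q 0 0 * wd p q 1 1 = 0 := by rcases a1 with a | a <;> simp [a]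
      by_cases a2 : wd p q 0 1 = 0 ∨ wd p q 1 0 = 0
      · have e2 : wd p q 0 1 * wd p q 1 0 = 0 := by rcases a2 with a | a <;> simp [a]
        exact ⟨1, one_pos, Or.inl e1, Or.inl e2⟩
      · push Not at a2
        have := h2 a2.1 a2.2
        exact ⟨_, this, Or.inl e1, Or.inr (V.v_mul a2.1 a2.2).ge⟩
    · push Not at a1
      have b1 := h1 a1.1 a1.2
      by_cases a2 : wd p q 0 1 = 0 ∨ wd p q 1 0 = 0
      · have e2 : wd p q 0 1 * wd p q 1 0 = 0 := by rcases a2 with a | a <;> simp [a]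
        exact ⟨_, b1, Or.inr (V.v_mul a1.1 a1.2).ge, Or.inl e2⟩
      · push Not at a2
        have b2 := h2 a2.1 a2.2
        refine ⟨min _ _, lt_min b1 b2, Or.inr ?_, Or.inr ?_⟩
        · rw [V.v_mul a1.1 a1.2]; exact min_le_left _ _
        · rw [V.v_mul a2.1 a2.2]; exact min_le_right _ _
  obtain ⟨ε, hε, g1, g2⟩ := hex
  have := g1.sub g2
  rw [wd_det, V.ge_one_iff] at this
  linarith

/-- the distance is attained -/
theorem attain : ∃ i j, wd p q i j ≠ 0 ∧ dd p q = wt p.t i + wt q.t j - V.v (wd p q i j) := by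
  classical
  have hmax : ∃ i j, dd p q = tm p q i j := by
    unfold dd
    rcases max_choice (max (tm p q 0 0) (tm p q 0 1)) (max (tm p q 1 0) (tm p q 1 1)) with h | h
    · rcases max_choice (tm p q 0 0) (tm p q 0 1) with h' | h'
      · exact ⟨0, 0, h.trans h'⟩
      · exact ⟨0, 1, h.trans h'⟩
    · rcases max_choice (tm p q 1 0) (tm p q 1 1) with h' | h'
      · exact ⟨1, 0, h.trans h'⟩
      · exact ⟨1, 1, h.trans h'⟩
  obtain ⟨i, j, hij⟩ := hmax
  by_cases h0 : wd p q i j = 0
  · have hd : dd p q = 0 := by rw [hij]; simp [tm, h0]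
    have hle : ∀ i j, tm p q i j ≤ 0 := fun i j => hd ▸ tm_le_dd p q i j
    rcases exists_prod p q with ⟨n1, n2, h⟩ | ⟨n1, n2, h⟩
    · have a1 := hle 0 0
      have a2 := hle 1 1
      simp only [tm, n1, n2, if_false, wt_zero, wt_one] at a1 a2
      refine ⟨0, 0, n1, ?_⟩
      rw [hd]
      simp only [wt_zero]
      linarith
    · have a1 := hle 0 1
      have a2 := hle 1 0
      simp only [tm, n1, n2, if_false, wt_zero, wt_one] at a1 a2
      refine ⟨0, 1, n1, ?_⟩
      rw [hd]
      simp only [wt_zero, wt_one]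
      linarith
  · refine ⟨i, j, h0, ?_⟩
    rw [hij]
    simp [tm, h0]

theorem dd_le_iff {c : ℝ} :
    dd p q ≤ c ↔ ∀ i j, V.Ge (wt p.t i + wt q.t j - c) (wd p q i j) := by
  classical
  constructor
  · intro h i j
    by_cases h0 : wd p q i j = 0
    · exact Or.inl h0
    · right
      have := (tm_le_dd p q i j).trans h
      simp only [tm, h0, if_false] at this
      linarith
  · intro h
    obtain ⟨i, j, h0, h1⟩ := attain p q
    rw [h1]
    have := (h i j).resolve_left h0
    linarith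

theorem ge_wd (i j : Fin 2) : V.Ge (wt p.t i + wt q.t j - dd p q) (wd p q i j) :=
  (dd_le_iff p q).1 le_rfl i j

theorem wd_self (i j : Fin 2) : wd p p i j = if i = j then 0 else if i = 0 then 1 else -1 := by
  have h := det_id p
  fin_cases i <;> fin_cases j
  · simp [wd]; ring
  · simp [wd]; linear_combination h
  · simp [wd]; linear_combination -h
  · simp [wd]; ring

theorem dd_self : dd p p = 0 := by
  apply le_antisymm
  · rw [dd_le_iff]
    intro i j
    rw [wd_self]
    fin_cases i <;> fin_cases j <;> simp [RV.Ge, V.v_neg, V.v_one]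
  · obtain ⟨i, j, h0, h1⟩ := attain p p
    rw [h1]
    rw [wd_self] at h0 ⊢
    fin_cases i <;> fin_cases j <;> simp [V.v_neg, V.v_one] at h0 ⊢

theorem wd_symm (i j : Fin 2) : wd q p j i = - wd p q i j := by
  unfold wd; ring

theorem dd_symm_le : dd q p ≤ dd p q := by
  rw [dd_le_iff]
  intro i j
  rw [wd_symm, add_comm]
  exact (ge_wd p q j i).neg

theorem dd_symm : dd q p = dd p q := le_antisymm (dd_symm_le p q) (dd_symm_le q p)

/-- expansion of a wedge product in a basis -/
theorem wd_expand (i j : Fin 2) :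
    wd p r i j = wd p q i 1 * wd q r 0 j - wd p q i 0 * wd q r 1 j := by
  have h := det_id q
  unfold wd
  linear_combination (-(p.g.1 0 i * r.g.1 1 j - p.g.1 1 i * r.g.1 0 j)) * h

theorem dd_triangle : dd p r ≤ dd p q + dd q r := by
  rw [dd_le_iff]
  intro i j
  rw [wd_expand p q r]
  refine RV.Ge.sub ?_ ?_
  · refine ((ge_wd p q i 1).mul (ge_wd q r 0 j)).mono ?_
    simp only [wt_zero, wt_one]
    linarith
  · refine ((ge_wd p q i 0).mul (ge_wd q r 1 j)).mono ?_
    simp only [wt_zero, wt_one]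
    linarith

theorem plucker (i j k l : Fin 2) :
    wd p q i j * wd r s k l = wd p r i k * wd q s j l - wd p s i l * wd q r j k := by
  unfold wd; ring

/-- the four point condition -/
theorem dd_hyp : dd p q + dd r s ≤ max (dd p r + dd q s) (dd p s + dd q r) := by
  obtain ⟨i, j, h0, h1⟩ := attain p q
  obtain ⟨k, l, h2, h3⟩ := attain r s
  set M := max (dd p r + dd q s) (dd p s + dd q r) with hM
  have h4 : V.Ge (wt p.t i + wt q.t j + wt r.t k + wt s.t l - M) (wd p q i j * wd r s k l) := by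
    rw [plucker]
    refine RV.Ge.sub ?_ ?_
    · refine ((ge_wd p r i k).mul (ge_wd q s j l)).mono ?_
      have := le_max_left (dd p r + dd q s) (dd p s + dd q r)
      linarith
    · refine ((ge_wd p s i l).mul (ge_wd q r j k)).mono ?_
      have := le_max_right (dd p r + dd q s) (dd p s + dd q r)
      linarith
  rw [V.ge_iff (mul_ne_zero h0 h2), V.v_mul h0 h2] at h4
  rw [h1, h3]
  linarith

theorem dd_nonneg : 0 ≤ dd p q := by
  have h1 := dd_triangle p q p
  rw [dd_self, dd_symm p q] at h1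
  linarith

end Pre

variable {V : RV K}

noncomputable instance : PseudoMetricSpace (Pre V) where
  dist := Pre.dd
  dist_self := Pre.dd_self
  dist_comm p q := (Pre.dd_symm p q).symm
  dist_triangle := Pre.dd_triangle

theorem Pre.dist_def (p q : Pre V) : dist p q = Pre.dd p q := rfl

instance : MulAction (SpecialLinearGroup (Fin 2) K) (Pre V) where
  smul g p := ⟨g * p.g, p.t⟩
  one_smul p := by
    show (⟨1 * p.g, p.t⟩ : Pre V) = p
    rw [one_mul]
  mul_smul g h p := by
    show (⟨g * h * p.g, p.t⟩ : Pre V) = ⟨g * (h * p.g), p.t⟩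
    rw [mul_assoc]

theorem Pre.smul_g (g : SpecialLinearGroup (Fin 2) K) (p : Pre V) : (g • p).g = g * p.g := rfl
theorem Pre.smul_t (g : SpecialLinearGroup (Fin 2) K) (p : Pre V) : (g • p).t = p.t := rfl

theorem Pre.wd_smul (g : SpecialLinearGroup (Fin 2) K) (p q : Pre V) (i j : Fin 2) :
    Pre.wd (g • p) (g • q) i j = Pre.wd p q i j := by
  have h : g.1 0 0 * g.1 1 1 - g.1 0 1 * g.1 1 0 = 1 := by
    have := g.2
    rwa [Matrix.det_fin_two] at this
  unfold Pre.wd
  rw [Pre.smul_g, Pre.smul_g]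
  simp only [Matrix.SpecialLinearGroup.coe_mul, Matrix.mul_apply, Fin.sum_univ_two]
  linear_combination (p.g.1 0 i * q.g.1 1 j - p.g.1 1 i * q.g.1 0 j) * h

theorem Pre.dd_smul (g : SpecialLinearGroup (Fin 2) K) (p q : Pre V) :
    Pre.dd (g • p) (g • q) = Pre.dd p q := by
  apply le_antisymm
  · rw [Pre.dd_le_iff]
    intro i j
    rw [Pre.wd_smul, Pre.smul_t, Pre.smul_t]
    exact Pre.ge_wd p q i j
  · rw [Pre.dd_le_iff]
    intro i j
    have := Pre.ge_wd (g • p) (g • q) i j
    rwa [Pre.wd_smul, Pre.smul_t, Pre.smul_t] at this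

instance : IsIsometricSMul (SpecialLinearGroup (Fin 2) K) (Pre V) where
  isometry_smul g := by
    rw [isometry_iff_dist_eq]
    intro p q
    exact Pre.dd_smul g p q

/-- the real tree -/
abbrev Tr (V : RV K) : Type := SeparationQuotient (Pre V)

/-- the class of a pre-point -/
noncomputable def cls (p : Pre V) : Tr V := SeparationQuotient.mk p

theorem dist_cls (p q : Pre V) : dist (cls p) (cls q) = Pre.dd p q := rfl

theorem smul_cls (g : SpecialLinearGroup (Fin 2) K) (p : Pre V) : g • cls p = cls (g • p) := rfl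

theorem cls_surj (x : Tr V) : ∃ p, cls p = x := SeparationQuotient.surjective_mk x

theorem cls_eq_iff (p q : Pre V) : cls p = cls q ↔ Pre.dd p q = 0 := by
  rw [← dist_cls, dist_eq_zero]

/-- the base point -/
noncomputable def bp (V : RV K) : Tr V := cls ⟨1, 0⟩

theorem dist_smul_eq (g : SpecialLinearGroup (Fin 2) K) (x y : Tr V) :
    dist (g • x) (g • y) = dist x y := by
  obtain ⟨p, rfl⟩ := cls_surj x
  obtain ⟨q, rfl⟩ := cls_surj y
  rw [smul_cls, smul_cls, dist_cls, dist_cls, Pre.dd_smul]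

end

end Pool.Agent.FrR
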