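import Pool.Agent.Lib.MP_305fdd_al.Fr.R.Loops2
import Pool.Agent.Lib.MP_305fdd_al.Fr.T.Edge

/-!
# States of the integral system and edges of the hull
-/

set_option autoImplicit false

namespace Pool.Agent.FrR

open Pool.Agent.FrZ

section
variable {S Γ T : Type} [Group Γ] [MetricSpace T] [MulAction Γ T]
variable {ρ : FreeGroup S →* Γ} {o : T} {P : Finset (FreeGroup S)} {ℓ₀ lo : FreeGroup S → ℝ}
variable (hT : IsRT T) (hiso : ∀ (g : Γ) (p q : T), dist (g • p) (g • q) = dist p q)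
  (hC : Cp P ℓ₀ (len ρ o)) (hP : HP P (len ρ o)) {X : Sys (Jx P ℓ₀) (Ix P ℓ₀) ℤ}
  (hX : toR X = bsys P ℓ₀ (len ρ o) lo) (hG : X.Good) (hE : Ev X)

include hT hP hX hE in
/-- every state is an edge -/
theorem rep_exists {i : Ix P ℓ₀} {x : ℤ} (h1 : X.lo i < x) (h2 : x < X.hi i) (h3 : Odd x)
    (d : Bool) : ∃ y z : VK P ρ o, Rep ρ o lo X i x d y.1 z.1 := by
  have h : Rep ρ o lo X i x d (rea ρ o lo i (x - sgn d)) (rea ρ o lo i (x + sgn d)) :=
    ⟨h1, h2, h3, rfl, rfl⟩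
  obtain ⟨k1, k2⟩ := h.kv hT hP hX hE
  exact ⟨⟨_, k1⟩, ⟨_, k2⟩, h⟩

theorem Rep.same {i : Ix P ℓ₀} {x : ℤ} {d : Bool} {y z y' z' : T} (h : Rep ρ o lo X i x d y z)
    (h' : Rep ρ o lo X i x d y' z') : y = y' ∧ z = z' :=
  ⟨h.2.2.2.1.trans h'.2.2.2.1.symm, h.2.2.2.2.trans h'.2.2.2.2.symm⟩

theorem Rep.flip {i : Ix P ℓ₀} {x : ℤ} {d : Bool} {y z : T} (h : Rep ρ o lo X i x d y z) :
    Rep ρ o lo X i x (!d) z y := by
  obtain ⟨h1, h2, h3, h4, h5⟩ := h
  refine ⟨h1, h2, h3, ?_, ?_⟩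
  · rw [h5]
    congr 1
    cases d <;> simp [sgn, sub_eq_add_neg]
  · rw [h4]
    congr 1
    cases d <;> simp [sgn, sub_eq_add_neg]

include hG in
theorem Rep.comp {i i' : Ix P ℓ₀} {x : ℤ} {d d' : Bool} {y z y' z' : T}
    (h : Rep ρ o lo X i x d y z) (h' : Rep ρ o lo X i' x d' y' z') : i = i' :=
  comp_eq hG h.1.le h.2.1.le h'.1.le h'.2.1.le

include hT hX hE in
theorem Rep.dist {i : Ix P ℓ₀} {x : ℤ} {d : Bool} {y z : T} (h : Rep ρ o lo X i x d y z) :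
    dist y z = 2 := by
  obtain ⟨a1, a2, a3, a4⟩ := h.spec hT hX hE
  rw [a1.dist_eq hT a3, a2, a4]
  cases d
  · simp only [sgn, Bool.false_eq_true, if_false]
    rw [abs_of_nonneg (by linarith)]
    ring
  · simp only [sgn, if_true]
    rw [abs_of_nonpos (by linarith)]
    ring

include hT hX hE in
theorem Rep.bt {i : Ix P ℓ₀} {x : ℤ} {y z : T} (h : Rep ρ o lo X i x true y z) :
    Bt o y z := by
  obtain ⟨a1, a2, a3, a4⟩ := h.spec hT hX hE
  refine a1.ord hT a3 ?_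
  rw [a2, a4]
  simp only [sgn, if_true]
  linarith

include hT hiso hC hP hX hG hE in
/-- closed words of bands at a state -/
theorem rep_closed {i : Ix P ℓ₀} {x : ℤ} {d : Bool} {y z : VK P ρ o}
    (h : Rep ρ o lo X i x d y.1 z.1) (γ : List (Jx P ℓ₀ × Bool))
    (hv : X.Valid (X.OK 0) γ (x, d)) (hr : (X.run γ (x, d)).1 = x) :
    ((X.run γ (x, d)).2 = d ∧ (hpa P ρ o).Path (wS γ) y y ∧ (hpa P ρ o).Path (wS γ) z z) ∨
    ((X.run γ (x, d)).2 = !d ∧ (hpa P ρ o).Path (wS γ) y z ∧ (hpa P ρ o).Path (wS γ) z y) := by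
  obtain ⟨i', y', z', r1, r2, r3, r4, r5⟩ := Rep.word hT hiso hC hP hX hG hE γ h hv
  rw [hr] at r1
  have hi : i = i' := h.comp hG r1
  subst hi
  by_cases hd : (X.run γ (x, d)).2 = d
  · left
    rw [hd] at r1
    obtain ⟨e1, e2⟩ := h.same r1
    have f1 : y = y' := Subtype.ext e1
    have f2 : z = z' := Subtype.ext e2
    rw [← f1] at r4
    rw [← f2] at r5
    exact ⟨hd, r4, r5⟩
  · right
    have hd' : (X.run γ (x, d)).2 = !d := by
      cases d <;> cases h7 : (X.run γ _).2 <;> simp_all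
    rw [hd'] at r1
    obtain ⟨e1, e2⟩ := h.flip.same r1
    have f1 : z = y' := Subtype.ext e1
    have f2 : y = z' := Subtype.ext e2
    rw [← f1] at r4
    rw [← f2] at r5
    exact ⟨hd', r4, r5⟩

include hT hiso hC hP hX hG hE in
/-- closed words of bands at a state keep the direction -/
theorem rep_closed' {i : Ix P ℓ₀} {x : ℤ} {d : Bool} {y z : VK P ρ o}
    (h : Rep ρ o lo X i x d y.1 z.1) (γ : List (Jx P ℓ₀ × Bool))
    (hv : X.Valid (X.OK 0) γ (x, d)) (hr : (X.run γ (x, d)).1 = x) :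
    (X.run γ (x, d)).2 = d ∧ (hpa P ρ o).Path (wS γ) y y ∧ (hpa P ρ o).Path (wS γ) z z := by
  rcases rep_closed hT hiso hC hP hX hG hE h γ hv hr with h1 | ⟨-, h1, -⟩
  · exact h1
  · exfalso
    have hgood := hpa_good hT hiso hP
    have hadj : (hpa P ρ o).K.Adj y z := h.dist hT hX hE
    have h2 := (hpa P ρ o).pt_path (MonoidHom.id (FreeGroup S)) _ 1 y z h1
    have h3 := congrArg ((hpa P ρ o).tcol (MonoidHom.id (FreeGroup S)) hgood) h2
    rw [FrT.PA.tcol_pt, FrT.PA.tcol_pt] at h3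
    exact hgood.colK y z hadj (by first | exact h3 | exact h3.symm)

end

end Pool.Agent.FrR
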