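import Pool.Agent.Lib.MP_305fdd_al.Fr.T.BS

/-!
# MP_305fdd_al, F_r, Theorem R in Lean: further small independent pieces (statements)
-/

set_option autoImplicit false

namespace Pool.Agent.FrR

open Pool.Agent.FrT

/-- (walk) A path which starts with the edge `(u, v)` and passes a second edge of the orbit passes
`b v, b u` for some `b` in the vertex group of `v`.  [The first orbit edge on `P` is `(g v, g u)` with
`v ~ g v`, because `v ~ g u` is excluded.] -/
def S_walk : Prop :=
  ∀ (G V : Type) [Group G] [MulAction G V] (X : SimpleGraph V)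
    (hact : ∀ (g : G) (x y : V), X.Adj x y → X.Adj (g • x) (g • y)) (u v : V)
    (huv : X.Adj u v), X.IsTree → (∀ g : G, ¬ Rch G X u v (g • u) v) →
    ∀ (w : V) (P : X.Walk v w), (SimpleGraph.Walk.cons huv P).IsPath →
      (∃ e ∈ P.edges, e ∈ Orb G u v) →
      ∃ b ∈ Sst (u := u) (v := v) hact v, b • u ∈ P.support ∧ b • v ∈ P.support

/-- (fgA) vertex groups of a finitely generated amalgam over a finitely generated group -/
def S_fgA : Prop :=
  ∀ (H : Type) [Group H] (Gi : Fin 2 → Type) [∀ i, Group (Gi i)] (φ : ∀ i, H →* Gi i),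
    (∀ i, Function.Injective (φ i)) → Group.FG H → Group.FG (Monoid.PushoutI φ) →
    ∀ i, Group.FG (Gi i)

/-- (fgH) the base group of a finitely generated HNN extension over a finitely generated group -/
def S_fgH : Prop :=
  ∀ (A : Type) [Group A] (C₁ C₂ : Subgroup A) (φ : C₁ ≃* C₂), C₁.FG →
    Group.FG (HNNExtension A C₁ C₂ φ) → Group.FG A

end Pool.Agent.FrR
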