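import Pool.Agent.Lib.MP_305fdd_al.Fr.R.Stm2
import Pool.Agent.Lib.MP_305fdd_al.Fr.T.BSH

/-!
# Non-triviality of a one-edge splitting whose edge is on an axis
-/

set_option autoImplicit false

namespace Pool.Agent.FrR

open Pool.Agent.FrT

section
variable {G V : Type} [Group G] [MulAction G V] {X : SimpleGraph V}

theorem orb_swap (u v : V) (a : G) : Orb G (a • v) (a • u) = Orb G u v := by
  ext e
  constructor
  · rintro ⟨g, hg⟩
    refine ⟨g * a, ?_⟩
    rw [hg, mul_smul, mul_smul]
    exact Sym2.eq_swap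
  · rintro ⟨g, hg⟩
    refine ⟨g * a⁻¹, ?_⟩
    rw [hg, smul_smul, smul_smul, inv_mul_cancel_right]
    exact Sym2.eq_swap

theorem rch_swap (u v : V) (a : G) (x y : V) :
    Rch G X (a • v) (a • u) x y ↔ Rch G X u v x y := by
  unfold Rch
  rw [orb_swap]

variable (hact : ∀ (g : G) (x y : V), X.Adj x y → X.Adj (g • x) (g • y))

theorem tree_axis (hwalk : S_walk) (hX : X.IsTree) {u v u1 v1 : V} (huv : X.Adj u v) (a : G)
    (hu1 : u1 = a • u) (hv1 : v1 = a • v) (h1 : X.Adj u1 v1) (W : X.Walk v u1)
    (hW : (SimpleGraph.Walk.cons huv (W.concat h1)).IsPath) :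
    Sst (u := u) (v := v) hact u ≠ ⊤ ∧ Sst (u := u) (v := v) hact v ≠ ⊤ ∧
    ((∀ g : G, ¬ Rch G X u v (g • u) v) →
      (∃ b ∈ Sst (u := u) (v := v) hact u, b • v ≠ v ∧
        a • b • v ∈ (SimpleGraph.Walk.cons huv (W.concat h1)).support) ∧
      (∃ b ∈ Sst (u := u) (v := v) hact v, b • u ≠ u ∧
        b • u ∈ (SimpleGraph.Walk.cons huv (W.concat h1)).support)) := by
  classical
  subst hu1 hv1
  have hW' := (SimpleGraph.Walk.cons_isPath_iff huv (W.concat h1)).1 hW
  have e1 : s(u, v) ∈ Orb G u v := ⟨1, by rw [one_smul, one_smul]⟩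
  have e2 : s(a • u, a • v) ∈ Orb G u v := ⟨a, rfl⟩
  have hrev : (SimpleGraph.Walk.cons huv (W.concat h1)).reverse =
      SimpleGraph.Walk.cons h1.symm (W.reverse.concat huv.symm) := by
    rw [SimpleGraph.Walk.reverse_cons, SimpleGraph.Walk.reverse_concat,
      SimpleGraph.Walk.cons_append, SimpleGraph.Walk.concat_eq_append]
  have hWr : (SimpleGraph.Walk.cons h1.symm (W.reverse.concat huv.symm)).IsPath := by
    rw [← hrev]
    exact hW.reverse
  refine ⟨?_, ?_, ?_⟩
  · have hp : (SimpleGraph.Walk.cons huv W).IsPath := by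
      have : (SimpleGraph.Walk.cons huv (W.concat h1)) = (SimpleGraph.Walk.cons huv W).concat h1 :=
        rfl
      rw [this] at hW
      rw [SimpleGraph.Walk.concat_eq_append] at hW
      exact hW.of_append_left
    exact Sst_ne_top hact hX (g := a) _ hp ⟨s(u, v), by simp, e1⟩
  · exact Sst_ne_top hact hX (g := a) _ hW'.1 ⟨s(a • u, a • v), by
      rw [SimpleGraph.Walk.edges_concat]; simp, e2⟩
  · intro hno
    constructor
    · obtain ⟨b, hb1, hb2, -⟩ := hwalk G V X hact (a • v) (a • u) h1.symm hX (by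
        intro g hg
        rw [rch_swap] at hg
        have h3 := (hg.smul hact (g * a)⁻¹).symm
        rw [← mul_smul g a v, inv_smul_smul] at h3
        apply hno ((g * a)⁻¹ * a)
        rw [mul_smul]
        exact h3) u (W.reverse.concat huv.symm) hWr ⟨s(v, u), by
          rw [SimpleGraph.Walk.edges_concat]; simp, by rw [orb_swap, Sym2.eq_swap]; exact e1⟩
      rw [mem_Sst, rch_swap] at hb1
      have hne : b • a • v ≠ a • v := by
        intro h
        rw [h] at hb2
        exact ((SimpleGraph.Walk.cons_isPath_iff _ _).1 hWr).2 hb2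
      refine ⟨a⁻¹ * b * a, ?_, ?_, ?_⟩
      · rw [mem_Sst]
        have h3 := hb1.smul hact a⁻¹
        rw [inv_smul_smul] at h3
        rw [mul_smul, mul_smul]
        exact h3
      · intro h
        apply hne
        have h4 : a • (a⁻¹ * b * a) • v = a • v := by rw [h]
        rw [mul_smul, mul_smul, smul_inv_smul] at h4
        exact h4
      · rw [mul_smul, mul_smul, smul_inv_smul]
        have h5 : b • a • v ∈ (SimpleGraph.Walk.cons huv (W.concat h1)).reverse.support := by
          rw [hrev, SimpleGraph.Walk.support_cons]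
          exact List.mem_cons_of_mem _ hb2
        rw [SimpleGraph.Walk.support_reverse] at h5
        exact List.mem_reverse.1 h5
    · obtain ⟨b, hb1, hb2, -⟩ := hwalk G V X hact u v huv hX hno (a • v) (W.concat h1) hW
        ⟨s(a • u, a • v), by rw [SimpleGraph.Walk.edges_concat]; simp, e2⟩
      refine ⟨b, hb1, ?_, ?_⟩
      · intro h
        rw [h] at hb2
        exact hW'.2 hb2
      · rw [SimpleGraph.Walk.support_cons]
        exact List.mem_cons_of_mem _ hb2

end

end Pool.Agent.FrR
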